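import Pool.Agent.Lib.MP_dee884_lc.H4.Spec2

/-!
# MP_dee884_lc, H4: the advice language is accepted with one work tape
-/

namespace MPdee884H4

open MPdee884H1 MPdee884H2 Pool.Agent.Lin

namespace AdvM

/-- the transitions -/
def tr (k : ℕ) (q : Fin 3) (a : Option (Bool × Fin (k + 2))) (g : Option Bool) (q' : Fin 3)
    (g' : Option Bool) (d : Dir) : Prop :=
  (q = 0 ∧ (∃ α β : Bool, a = some (α, lt01 k β) ∧ g' = some β) ∧ q' = 0 ∧ d = Dir.right) ∨
  (q = 0 ∧ (a = none ∨ ∃ α : Bool, a = some (α, 0)) ∧ q' = 1 ∧ g' = g ∧ d = Dir.left) ∨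
  (q = 1 ∧ (∃ γ : Bool, a = some (γ, 0) ∧ g = some γ) ∧ q' = 1 ∧ g' = none ∧ d = Dir.left) ∨
  (q = 1 ∧ a = none ∧ g = none ∧ q' = 2 ∧ g' = none ∧ d = Dir.stay)

/-- the machine -/
def M (k : ℕ) : NTM (Bool × Fin (k + 2)) where
  S := Fin 3
  G := Bool
  finS := inferInstance
  finG := inferInstance
  start := 0
  acc := fun q => q = 2
  tr := tr k

/-- the stack `cs` is on the tape, the top in the cell `p`, a blank below it -/
def Stk (t : ℤ → Option Bool) : ℤ → List Bool → Prop
  | p, [] => t p = none
  | p, c :: cs => t p = some c ∧ Stk t (p - 1) cs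

theorem stk_update (t : ℤ → Option Bool) (x : Option Bool) (r : ℤ) : ∀ (cs : List Bool) (p : ℤ),
    p < r → Stk t p cs → Stk (Function.update t r x) p cs := by
  intro cs
  induction cs with
  | nil =>
    intro p hp h
    simp only [Stk] at h ⊢
    rw [Function.update_of_ne (by omega), h]
  | cons c cs ih =>
    intro p hp h
    simp only [Stk] at h ⊢
    rw [Function.update_of_ne (by omega)]
    exact ⟨h.1, ih (p - 1) (by omega) h.2⟩

/-- the words with the second component `0` -/
def z0 (k : ℕ) (l : List Bool) : List (Bool × Fin (k + 2)) := l.map (fun γ => (γ, 0))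

theorem invG {A : Type} (M : NTM A) (n : ℕ) (x : List A) (q : M.S) (p : ℤ) (t : ℤ → Option M.G)
    (h : M.Acc n x q p t) : (n = 0 ∧ x = [] ∧ M.acc q) ∨
    ∃ (n' : ℕ) (a : Option A) (y : List A) (q' : M.S) (b : Option M.G) (d : Dir), n = n' + 1 ∧
      x = a.toList ++ y ∧ M.tr q a (t p) q' b d ∧
      M.Acc n' y q' (p + d.toInt) (Function.update t p b) := by
  match n, x, q, p, t, h with
  | _, _, _, _, _, NTM.Acc.done _ _ _ hq => exact Or.inl ⟨rfl, rfl, hq⟩
  | _, _, _, _, _, NTM.Acc.step n a y _ q' _ _ b d htr h =>
    exact Or.inr ⟨n, a, y, q', b, d, rfl, rfl, htr, h⟩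

/-- inversion -/
theorem invM (k n : ℕ) (x : List (Bool × Fin (k + 2))) (q : Fin 3) (p : ℤ) (t : ℤ → Option Bool)
    (h : NTM.Acc (M k) n x q p t) : (n = 0 ∧ x = [] ∧ q = 2) ∨
    ∃ (n' : ℕ) (a : Option (Bool × Fin (k + 2))) (y : List (Bool × Fin (k + 2))) (q' : Fin 3)
      (b : Option Bool) (d : Dir), n = n' + 1 ∧ x = a.toList ++ y ∧ tr k q a (t p) q' b d ∧
      NTM.Acc (M k) n' y q' (p + d.toInt) (Function.update t p b) :=
  invG (M k) n x q p t h

/-- one step -/
theorem stepM (k n : ℕ) (a : Option (Bool × Fin (k + 2))) (x : List (Bool × Fin (k + 2)))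
    (q q' : Fin 3) (p p' : ℤ) (t t' : ℤ → Option Bool) (b : Option Bool) (d : Dir)
    (htr : tr k q a (t p) q' b d) (hp : p' = p + d.toInt) (ht : t' = Function.update t p b)
    (h : NTM.Acc (M k) n x q' p' t') : NTM.Acc (M k) (n + 1) (a.toList ++ x) q p t := by
  subst hp ht
  exact @NTM.Acc.step _ (M k) n a x q q' p t b d htr h

theorem accF (k n : ℕ) (x : List (Bool × Fin (k + 2))) (p : ℤ) (t : ℤ → Option Bool)
    (h : NTM.Acc (M k) n x (2 : Fin 3) p t) : x = [] := by
  rcases invM k n x 2 p t h with h1 | ⟨n', a, y, q', b, d, -, -, htr, -⟩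
  · exact h1.2.1
  · exfalso
    rcases htr with h1 | h1 | h1 | h1 <;> exact absurd h1.1 (by decide)

theorem popC (k : ℕ) : ∀ (cs : List Bool) (p : ℤ) (t : ℤ → Option Bool), Stk t p cs →
    NTM.Acc (M k) (cs.length + 1) (z0 k cs) (1 : Fin 3) p t := by
  intro cs
  induction cs with
  | nil =>
    intro p t h
    have hs : tr k (1 : Fin 3) none (t p) (2 : Fin 3) none Dir.stay := by
      right; right; right
      exact ⟨rfl, rfl, h, rfl, rfl, rfl⟩
    exact stepM k 0 none [] 1 2 p _ t _ none Dir.stay hs rfl rfl
      (@NTM.Acc.done _ (M k) (2 : Fin 3) _ _ rfl)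
  | cons c cs ih =>
    intro p t h
    have hs : tr k (1 : Fin 3) (some (c, 0)) (t p) (1 : Fin 3) none Dir.left := by
      right; right; left
      exact ⟨rfl, ⟨c, rfl, h.1⟩, rfl, rfl, rfl⟩
    exact stepM k _ (some (c, 0)) (z0 k cs) 1 1 p (p - 1) t _ none Dir.left hs rfl rfl
      (ih (p - 1) _ (stk_update t none p cs (p - 1) (by omega) h.2))

theorem popS (k : ℕ) : ∀ (n : ℕ) (x : List (Bool × Fin (k + 2))) (cs : List Bool) (p : ℤ)
    (t : ℤ → Option Bool), Stk t p cs → NTM.Acc (M k) n x (1 : Fin 3) p t → x = z0 k cs := by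
  intro n
  induction n with
  | zero =>
    intro x cs p t hs h
    rcases invM k 0 x 1 p t h with h1 | ⟨n', a, y, q', b, d, h1, -, -, -⟩
    · exact absurd h1.2.2 (by decide)
    · omega
  | succ n ih =>
    intro x cs p t hs h
    rcases invM k (n + 1) x 1 p t h with h1 | ⟨n', a, y, q', b, d, hn, hx, htr, h⟩
    · exact absurd h1.2.2 (by decide)
    · have hn' : n' = n := by omega
      subst hn'
      rcases htr with h1 | h1 | h1 | h1
      · exact absurd h1.1 (by decide)
      · exact absurd h1.1 (by decide)
      · obtain ⟨-, ⟨γ, ha, hg⟩, hq, hb, hd⟩ := h1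
        subst hq hb hd ha
        cases cs with
        | nil =>
          have h2 : t p = none := hs
          rw [hg] at h2
          exact absurd h2 (by simp)
        | cons c cs =>
          obtain ⟨h2, h3⟩ := hs
          have h4 : γ = c := by
            have h5 : (some γ : Option Bool) = some c := hg.symm.trans h2
            exact Option.some.inj h5
          subst h4
          have h5 := ih y cs (p - 1) _ (stk_update t none p cs (p - 1) (by omega) h3) h
          rw [hx, h5]
          rfl
      · obtain ⟨-, ha, hg, hq, hb, hd⟩ := h1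
        subst hq hb hd ha
        cases cs with
        | nil =>
          have h5 := accF k n' y _ _ h
          rw [hx, h5]
          rfl
        | cons c cs =>
          obtain ⟨h2, h3⟩ := hs
          rw [h2] at hg
          exact absurd hg (by simp)

theorem pushC (k : ℕ) (mid : List Bool) (hmid : mid.length ≤ 1) : ∀ (us bs cs : List Bool) (p : ℤ)
    (t : ℤ → Option Bool), us.length = bs.length → Stk t (p - 1) cs →
    NTM.Acc (M k) (2 * us.length + cs.length + 2)
      (us.zip (bs.map (lt01 k)) ++ (z0 k mid ++ z0 k (bs.reverse ++ cs))) (0 : Fin 3) p t := by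
  intro us
  induction us with
  | nil =>
    intro bs cs p t hl hs
    have hb : bs = [] := by
      cases bs with
      | nil => rfl
      | cons b bs => simp at hl
    subst hb
    have e0 : t = Function.update t p (t p) := (Function.update_eq_self p t).symm
    have hpop := popC k cs (p - 1) t hs
    have hlen : 2 * ([] : List Bool).length + cs.length + 2 = (cs.length + 1) + 1 := by simp
    rw [hlen]
    cases mid with
    | nil =>
      have hst : tr k (0 : Fin 3) none (t p) (1 : Fin 3) (t p) Dir.left := by
        right; left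
        exact ⟨rfl, Or.inl rfl, rfl, rfl, rfl⟩
      exact stepM k _ none (z0 k cs) 0 1 p (p - 1) t t (t p) Dir.left hst rfl e0 hpop
    | cons α mid =>
      cases mid with
      | cons _ _ => simp at hmid
      | nil =>
        have hst : tr k (0 : Fin 3) (some (α, 0)) (t p) (1 : Fin 3) (t p) Dir.left := by
          right; left
          exact ⟨rfl, Or.inr ⟨α, rfl⟩, rfl, rfl, rfl⟩
        exact stepM k _ (some (α, 0)) (z0 k cs) 0 1 p (p - 1) t t (t p) Dir.left hst rfl e0 hpop
  | cons u us ih =>
    intro bs cs p t hl hs
    cases bs with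
    | nil => simp at hl
    | cons b bs =>
      have hl' : us.length = bs.length := by simpa using hl
      have hst : tr k (0 : Fin 3) (some (u, lt01 k b)) (t p) (0 : Fin 3) (some b) Dir.right := by
        left
        exact ⟨rfl, ⟨u, b, rfl, rfl⟩, rfl, rfl⟩
      have hs' : Stk (Function.update t p (some b)) (p + 1 - 1) (b :: cs) := by
        have e1 : p + 1 - 1 = p := by ring
        rw [e1]
        exact ⟨Function.update_self p (some b) t, stk_update t (some b) p cs (p - 1) (by omega) hs⟩
      have h1 := ih bs (b :: cs) (p + 1) (Function.update t p (some b)) hl' hs'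
      have e2 : bs.reverse ++ b :: cs = (b :: bs).reverse ++ cs := by simp
      rw [e2] at h1
      have e3 : 2 * (u :: us).length + cs.length + 2 = (2 * us.length + (b :: cs).length + 2) + 1 := by
        simp only [List.length_cons]; ring
      rw [e3]
      exact stepM k _ (some (u, lt01 k b)) _ 0 0 p (p + 1) t _ (some b) Dir.right hst rfl rfl h1

theorem pushS (k : ℕ) : ∀ (n : ℕ) (x : List (Bool × Fin (k + 2))) (cs : List Bool) (p : ℤ)
    (t : ℤ → Option Bool), Stk t (p - 1) cs → NTM.Acc (M k) n x (0 : Fin 3) p t →
    ∃ us bs mid : List Bool, us.length = bs.length ∧ mid.length ≤ 1 ∧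
      x = us.zip (bs.map (lt01 k)) ++ (z0 k mid ++ z0 k (bs.reverse ++ cs)) := by
  intro n
  induction n with
  | zero =>
    intro x cs p t hs h
    rcases invM k 0 x 0 p t h with h1 | ⟨n', a, y, q', b, d, h1, -, -, -⟩
    · exact absurd h1.2.2 (by decide)
    · omega
  | succ n ih =>
    intro x cs p t hs h
    rcases invM k (n + 1) x 0 p t h with h1 | ⟨n', a, y, q', b, d, hn, hx, htr, h⟩
    · exact absurd h1.2.2 (by decide)
    · have hn' : n' = n := by omega
      subst hn'
      rcases htr with h1 | h1 | h1 | h1
      · obtain ⟨-, ⟨α, β, ha, hb⟩, hq, hd⟩ := h1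
        subst hq hb hd ha
        have hs' : Stk (Function.update t p (some β)) (p + 1 - 1) (β :: cs) := by
          have e1 : p + 1 - 1 = p := by ring
          rw [e1]
          exact ⟨Function.update_self p (some β) t,
            stk_update t (some β) p cs (p - 1) (by omega) hs⟩
        obtain ⟨us, bs, mid, h2, h3, h4⟩ := ih y (β :: cs) (p + 1) _ hs' h
        refine ⟨α :: us, β :: bs, mid, by simp [h2], h3, ?_⟩
        rw [hx, h4]
        have e2 : bs.reverse ++ β :: cs = (β :: bs).reverse ++ cs := by simp
        rw [e2]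
        rfl
      · obtain ⟨-, ha, hq, hb, hd⟩ := h1
        subst hq hb hd
        have e0 : Function.update t p (t p) = t := Function.update_eq_self p t
        have h2 := popS k n' y cs (p - 1) (Function.update t p (t p)) (by rw [e0]; exact hs) h
        rcases ha with ha | ⟨α, ha⟩
        · subst ha
          exact ⟨[], [], [], rfl, by simp, by rw [hx, h2]; rfl⟩
        · subst ha
          exact ⟨[], [], [α], rfl, by simp, by rw [hx, h2]; rfl⟩
      · exact absurd h1.1 (by decide)
      · exact absurd h1.1 (by decide)

theorem withAdvice_eq (k : ℕ) (us bs mid : List Bool) (h : us.length = bs.length) :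
    withAdvice k (us ++ (mid ++ bs.reverse)) bs =
      us.zip (bs.map (lt01 k)) ++ (z0 k mid ++ z0 k bs.reverse) := by
  unfold withAdvice pad
  have h1 : (bs ++ List.replicate (us ++ (mid ++ bs.reverse)).length false).take
      (us ++ (mid ++ bs.reverse)).length = bs ++ List.replicate (mid ++ bs.reverse).length false := by
    rw [List.take_append, List.take_of_length_le (by simp [h]), List.take_replicate]
    congr 2
    simp only [List.length_append, List.length_reverse]
    omega
  rw [h1, List.map_append, List.zip_append (by simp [h])]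
  congr 1
  unfold z0
  rw [← List.map_append, List.map_replicate]
  generalize mid ++ bs.reverse = l
  apply List.ext_getElem
  · simp
  · intro i h2 h3
    simp [lt01]

theorem advL_iff (k : ℕ) (v : List (Bool × Fin (k + 2))) : v ∈ AdvL k ↔
    ∃ us bs mid : List Bool, us.length = bs.length ∧ mid.length ≤ 1 ∧
      v = us.zip (bs.map (lt01 k)) ++ (z0 k mid ++ z0 k bs.reverse) := by
  constructor
  · intro hv
    have hv' : v = withAdvice k (v.map Prod.fst) ((v.map Prod.fst).reverse.take (v.length / 2)) := hv
    obtain ⟨x, hx⟩ : ∃ x, x = v.map Prod.fst := ⟨_, rfl⟩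
    have hxl : v.length = x.length := by rw [hx, List.length_map]
    rw [← hx, hxl] at hv'
    obtain ⟨m, hm⟩ : ∃ m, m = x.length / 2 := ⟨_, rfl⟩
    rw [← hm] at hv'
    have h1 : x.reverse.take m = (x.drop (x.length - m)).reverse := List.take_reverse
    have h2 : x = x.take m ++ ((x.drop m).take (x.length - 2 * m) ++ (x.reverse.take m).reverse) := by
      rw [h1, List.reverse_reverse]
      have h3 : x.drop (x.length - m) = (x.drop m).drop (x.length - 2 * m) := by
        rw [List.drop_drop]
        congr 1
        omega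
      rw [h3, List.take_append_drop, List.take_append_drop]
    have h4 : (x.take m).length = (x.reverse.take m).length := by
      simp
    refine ⟨x.take m, x.reverse.take m, (x.drop m).take (x.length - 2 * m), h4, ?_, ?_⟩
    · rw [List.length_take]
      omega
    · have h5 := withAdvice_eq k (x.take m) (x.reverse.take m) ((x.drop m).take (x.length - 2 * m)) h4
      rw [← h2, ← hv'] at h5
      exact h5
  · rintro ⟨us, bs, mid, h1, h2, h3⟩
    have h4 := withAdvice_eq k us bs mid h1
    rw [← h3] at h4
    have h5 : v.map Prod.fst = us ++ (mid ++ bs.reverse) := by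
      rw [h3, List.map_append, List.map_append, List.map_fst_zip (by simp [h1])]
      unfold z0
      simp [List.map_map, Function.comp_def]
    have h6 : v.length = us.length + (mid.length + bs.length) := by
      have h7 := congrArg List.length h5
      simpa using h7
    have h7 : v.length / 2 = bs.length := by omega
    show v = withAdvice k (v.map Prod.fst) ((v.map Prod.fst).reverse.take (v.length / 2))
    rw [h5, h7]
    have h8 : (us ++ (mid ++ bs.reverse)).reverse.take bs.length = bs := by
      rw [List.reverse_append, List.reverse_append, List.reverse_reverse, List.append_assoc]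
      exact List.take_left
    rw [h8, h4]

end AdvM

open AdvM in
theorem tAdv : S_Adv := by
  intro k
  refine ⟨M k, 2, ?_, ?_⟩
  · intro v hv
    obtain ⟨us, bs, mid, h1, h2, h3⟩ := (advL_iff k v).1 hv
    refine ⟨2 * us.length + 0 + 2, ?_, ?_⟩
    · have h4 := congrArg List.length h3
      rw [List.length_append, List.length_append, List.length_zip] at h4
      unfold z0 at h4
      simp only [List.length_map, List.length_reverse] at h4
      have h5 : min us.length bs.length = us.length := by rw [h1]; exact min_self _
      rw [h5] at h4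
      omega
    · have h4 := pushC k mid h2 us bs [] 0 (fun _ => none) h1 rfl
      rw [List.append_nil, ← h3] at h4
      exact h4
  · intro n v h
    obtain ⟨us, bs, mid, h1, h2, h3⟩ := pushS k n v [] 0 (fun _ => none) rfl h
    rw [List.append_nil] at h3
    exact (advL_iff k v).2 ⟨us, bs, mid, h1, h2, h3⟩

end MPdee884H4
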