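import Pool.Agent.Lib.MP_dee884_lc.H4.Spec4

/-!
# MP_dee884_lc, H4: the advice language is in LINTIME

Only equalities of multi-pass homomorphisms (`lintime_eq`) are used.
-/

namespace MPdee884H4

open MPdee884H1 MPdee884H2 Pool.Agent.Lin

private theorem AdvD_fm {α β : Type} (c : α → Bool) (f : α → β) (x : List α) :
    (x.flatMap fun p => if c p then [f p] else []) = (x.filter c).map f := by
  induction x with
  | nil => rfl
  | cons a x ih =>
    rw [List.flatMap_cons, ih, List.filter_cons]
    cases c a <;> simp

private theorem AdvD_unit (l l' : List Unit) (h : l.length = l'.length) : l = l' := by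
  have h1 : l = List.replicate l'.length () := List.eq_replicate_iff.2 ⟨h, fun _ _ => rfl⟩
  have h2 : l' = List.replicate l'.length () := List.eq_replicate_iff.2 ⟨rfl, fun _ _ => rfl⟩
  rw [h1, ← h2]

private theorem AdvD_len {α : Type} (c : α → Bool) (D : ℕ) (x : List α) :
    (x.flatMap fun p => if c p then List.replicate D () else []).length =
      D * (x.filter c).length := by
  induction x with
  | nil => rfl
  | cons a x ih =>
    rw [List.flatMap_cons, List.length_append, ih, List.filter_cons]
    cases c a
    · simp
    · simp only [if_true, List.length_replicate, List.length_cons]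
      ring

private theorem AdvD_empty {α : Type} [Finite α] : LINTIME (∅ : Set (List α)) := by
  have h := lintime_eq (α := α) (β := Unit) (MP.hom fun _ => []) [((fun _ => []), [()])]
  have e : {x : List α | (MP.hom fun _ => ([] : List Unit)).val x =
      MP.val [((fun _ => ([] : List Unit)), [()])] x} = ∅ := by
    ext x
    simp only [Set.mem_ofPred_eq, Set.mem_empty_iff_false, iff_false]
    intro h1
    rw [MP.hom_val] at h1
    have h2 := congrArg List.length h1
    simp [MP.val] at h2
  rw [e] at h
  exact h

private theorem AdvD_cnt {α : Type} [Finite α] (c : α → Bool) (D : ℕ) (m : ℕ) :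
    LINTIME {v : List α | ∃ r < m, v.length = D * (v.filter c).length + r} := by
  induction m with
  | zero =>
    have e : {v : List α | ∃ r < 0, v.length = D * (v.filter c).length + r} = ∅ := by
      ext v
      simp
    rw [e]
    exact AdvD_empty
  | succ m ih =>
    have h := lintime_eq (α := α) (β := Unit) (MP.hom fun _ => [()])
      [((fun p => if c p then List.replicate D () else []), List.replicate m ())]
    have e : {v : List α | ∃ r < m + 1, v.length = D * (v.filter c).length + r} =
        {v : List α | ∃ r < m, v.length = D * (v.filter c).length + r} ∪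
        {v : List α | (MP.hom fun _ => [()]).val v =
          MP.val [((fun p => if c p then List.replicate D () else []), List.replicate m ())] v} := by
      ext v
      have h1 : ((MP.hom fun _ => [()]).val v =
          MP.val [((fun p => if c p then List.replicate D () else []), List.replicate m ())] v) ↔
          v.length = D * (v.filter c).length + m := by
        have h2 : ((MP.hom fun _ => [()]).val v).length = v.length := by
          rw [MP.hom_val, flatMap_single, List.length_map]
        have h3 : (MP.val [((fun p => if c p then List.replicate D () else []),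
            List.replicate m ())] v).length = D * (v.filter c).length + m := by
          have h4 := AdvD_len c D v
          simp only [MP.val, List.flatMap_cons, List.flatMap_nil, List.append_nil,
            List.length_append, List.length_replicate]
          rw [h4]
        constructor
        · intro h5
          rw [← h2, h5, h3]
        · intro h5
          exact AdvD_unit _ _ (by rw [h2, h3, h5])
      simp only [Set.mem_union, Set.mem_ofPred_eq]
      rw [h1]
      constructor
      · rintro ⟨r, hr, h5⟩
        rcases Nat.lt_succ_iff_lt_or_eq.1 hr with h6 | h6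
        · exact Or.inl ⟨r, h6, h5⟩
        · subst h6
          exact Or.inr h5
      · rintro (⟨r, hr, h5⟩ | h5)
        · exact ⟨r, by omega, h5⟩
        · exact ⟨m, by omega, h5⟩
    rw [e]
    exact ih.union h

private theorem AdvD_pad (u : List Bool) (n : ℕ) (h : u.length ≤ n) :
    pad u n = u ++ List.replicate (n - u.length) false := by
  unfold pad
  rw [List.take_append, List.take_of_length_le h, List.take_replicate]
  congr 2
  omega

theorem tAdvD : S_AdvD := by
  intro k D hD
  obtain ⟨c0, hc0⟩ : ∃ c0 : (Bool × Fin (k + 2)) × Fin (k + 2) → Bool,
      c0 = fun p => decide (p.2 = 0) := ⟨_, rfl⟩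
  obtain ⟨c1, hc1⟩ : ∃ c1 : (Bool × Fin (k + 2)) × Fin (k + 2) → Bool,
      c1 = fun p => decide (p.2 = 1) := ⟨_, rfl⟩
  have m0 : ∀ p, c0 p = true ↔ p.2 = 0 := fun p => by rw [hc0]; simp
  have m1 : ∀ p, c1 p = true ↔ p.2 = 1 := fun p => by rw [hc1]; simp
  have h01 : (0 : Fin (k + 2)) ≠ 1 := by
    intro h
    have := congrArg Fin.val h
    simp at this
  -- the three languages
  have s1 := lintime_eq (α := (Bool × Fin (k + 2)) × Fin (k + 2))
    (β := (Bool × Fin (k + 2)) × Fin (k + 2)) (MP.hom fun p => [p])
    [((fun p => if c0 p then [p] else []), []), ((fun p => if c1 p then [p] else []), [])]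
  have s2 := AdvD_cnt c0 D D
  have s3 := lintime_eq (α := (Bool × Fin (k + 2)) × Fin (k + 2)) (β := Fin (k + 2))
    (MP.hom fun p => [p.1.2])
    [((fun p => if c1 p then [lt01 k p.1.1] else []), []),
      ((fun p => if c0 p then [(0 : Fin (k + 2))] else []), [])]
  have e1 : ∀ v : List ((Bool × Fin (k + 2)) × Fin (k + 2)),
      ((MP.hom fun p => [p]).val v = MP.val [((fun p => if c0 p then [p] else []), []),
        ((fun p => if c1 p then [p] else []), [])] v) ↔ v = v.filter c0 ++ v.filter c1 := by
    intro v
    have a0 := AdvD_fm c0 (fun p => p) v
    have a1 := AdvD_fm c1 (fun p => p) v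
    rw [List.map_id'] at a0 a1
    rw [MP.hom_val, flatMap_single, List.map_id']
    simp only [MP.val, List.flatMap_cons, List.flatMap_nil, List.append_nil]
    rw [a0, a1]
  have e3 : ∀ v : List ((Bool × Fin (k + 2)) × Fin (k + 2)),
      ((MP.hom fun p => [p.1.2]).val v = MP.val [((fun p => if c1 p then [lt01 k p.1.1] else []), []),
        ((fun p => if c0 p then [(0 : Fin (k + 2))] else []), [])] v) ↔
      v.map (fun p => p.1.2) = (v.filter c1).map (fun p => lt01 k p.1.1) ++
        List.replicate (v.filter c0).length 0 := by
    intro v
    have a0 := AdvD_fm c0 (fun _ => (0 : Fin (k + 2))) v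
    have a1 := AdvD_fm c1 (fun p => lt01 k p.1.1) v
    rw [MP.hom_val, flatMap_single]
    simp only [MP.val, List.flatMap_cons, List.flatMap_nil, List.append_nil]
    rw [a0, a1, List.map_const']
  have key := (s1.inter s2).inter s3
  have hset : AdvD k D = ({v | (MP.hom fun p => [p]).val v =
        MP.val [((fun p => if c0 p then [p] else []), []),
          ((fun p => if c1 p then [p] else []), [])] v} ∩
      {v | ∃ r < D, v.length = D * (v.filter c0).length + r}) ∩
      {v | (MP.hom fun p => [p.1.2]).val v =
        MP.val [((fun p => if c1 p then [lt01 k p.1.1] else []), []),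
          ((fun p => if c0 p then [(0 : Fin (k + 2))] else []), [])] v} := by
    ext v
    simp only [Set.mem_inter_iff, Set.mem_ofPred_eq, AdvD]
    rw [e1, e3]
    constructor
    · rintro ⟨u, z, hv, hu, hz, hl, ht⟩
      have f0u : u.filter c0 = u := List.filter_eq_self.2 fun p hp => (m0 p).2 (hu p hp)
      have f0z : z.filter c0 = [] := List.filter_eq_nil_iff.2 fun p hp h => by
        rw [m0, hz p hp] at h
        exact h01 h.symm
      have f1u : u.filter c1 = [] := List.filter_eq_nil_iff.2 fun p hp h => by
        rw [m1, hu p hp] at h
        exact h01 h
      have f1z : z.filter c1 = z := List.filter_eq_self.2 fun p hp => (m1 p).2 (hz p hp)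
      have g0 : v.filter c0 = u := by rw [hv, List.filter_append, f0u, f0z, List.append_nil]
      have g1 : v.filter c1 = z := by rw [hv, List.filter_append, f1u, f1z, List.nil_append]
      rw [g0, g1]
      refine ⟨⟨hv, v.length % D, Nat.mod_lt _ hD, ?_⟩, ?_⟩
      · rw [hl]
        exact (Nat.div_add_mod _ _).symm
      · have hlen : v.length = u.length + z.length := by rw [hv, List.length_append]
        rw [ht, AdvD_pad _ _ (by rw [List.length_map]; omega), List.map_append, List.map_map,
          List.map_replicate, List.length_map]
        have : v.length - z.length = u.length := by omega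
        rw [this]
        rfl
    · rintro ⟨⟨hv, r, hr, hl⟩, ht⟩
      refine ⟨v.filter c0, v.filter c1, hv, ?_, ?_, ?_, ?_⟩
      · intro p hp
        exact (m0 p).1 (List.mem_filter.1 hp).2
      · intro p hp
        exact (m1 p).1 (List.mem_filter.1 hp).2
      · rw [hl, Nat.mul_add_div hD, Nat.div_eq_of_lt hr, add_zero]
      · have hlen : v.length = (v.filter c0).length + (v.filter c1).length := by
          conv_lhs => rw [hv, List.length_append]
        rw [ht, AdvD_pad _ _ (by rw [List.length_map]; omega), List.map_append, List.map_map,
          List.map_replicate, List.length_map]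
        have : v.length - (v.filter c1).length = (v.filter c0).length := by omega
        rw [this]
        rfl
  rw [hset]
  exact key

end MPdee884H4
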