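import Pool.Agent.Lib.MP_dee884_lc.H4.Spec

/-!
# MP_dee884_lc, H4: basic facts on computations and records
-/

namespace MPdee884H4

open MPdee884H1 MPdee884H2 MPdee884H3 Pool.Agent.Lin

private theorem bas_exe {K : Type} {Γ : K → Type} {M : NM K Γ} (R : List (RN M)) :
    ∀ (c : NC M) (R' : List (RN M)), exe c (R ++ R') = exe (exe c R) R' := by
  induction R with
  | nil => intro c R'; rfl
  | cons r R ih => intro c R'; exact ih (upd c r.2.1 r.2.2) R'

private theorem bas_first {K : Type} {Γ : K → Type} {M : NM K Γ} {P : NC M → Prop} {c : NC M}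
    {R : List (RN M)} (h : TrN M P c R) : P c := by
  cases h with
  | nil _ h => exact h
  | cons _ _ _ _ h _ _ => exact h

private theorem bas_split {K : Type} {Γ : K → Type} {M : NM K Γ} (P : NC M → Prop)
    (R : List (RN M)) : ∀ (c : NC M) (R' : List (RN M)),
    TrN M P c (R ++ R') → TrN M P c R ∧ TrN M P (exe c R) R' := by
  induction R with
  | nil => intro c R' h; exact ⟨TrN.nil c (bas_first h), h⟩
  | cons r R ih =>
    intro c R' h
    rw [List.cons_append] at h
    cases h with
    | cons _ q' a _ hP ht h =>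
      obtain ⟨h1, h2⟩ := ih (upd c q' a) R' h
      exact ⟨TrN.cons c q' a R hP ht h1, h2⟩

private theorem bas_join {K : Type} {Γ : K → Type} {M : NM K Γ} (P : NC M → Prop)
    (R : List (RN M)) : ∀ (c : NC M) (R' : List (RN M)),
    TrN M P c R → TrN M P (exe c R) R' → TrN M P c (R ++ R') := by
  induction R with
  | nil => intro c R' _ h; exact h
  | cons r R ih =>
    intro c R' h h'
    cases h with
    | cons _ q' a _ hP ht h => exact TrN.cons c q' a (R ++ R') hP ht (ih (upd c q' a) R' h h')

private theorem bas_mono {K : Type} {Γ : K → Type} {M : NM K Γ} (P P' : NC M → Prop)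
    (hPP : ∀ c', P c' → P' c') {c : NC M} {R : List (RN M)} (h : TrN M P c R) :
    TrN M P' c R := by
  induction h with
  | nil c hP => exact TrN.nil c (hPP c hP)
  | cons c q' a R hP ht _ ih => exact TrN.cons c q' a R (hPP c hP) ht ih

private theorem bas_last {K : Type} {Γ : K → Type} {M : NM K Γ} (P : NC M → Prop) {c : NC M}
    {R : List (RN M)} (h : TrN M P c R) : P (exe c R) := by
  induction h with
  | nil c hP => exact hP
  | cons c q' a R _ _ _ ih => exact ih

private theorem bas_and {K : Type} {Γ : K → Type} {M : NM K Γ} (P P' : NC M → Prop)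
    (R : List (RN M)) : ∀ c : NC M, TrN M P c R → TrN M P' c R →
    TrN M (fun c' => P c' ∧ P' c') c R := by
  induction R with
  | nil => intro c h h'; exact TrN.nil c ⟨bas_first h, bas_first h'⟩
  | cons r R ih =>
    intro c h h'
    cases h with
    | cons _ q' a _ hP ht h =>
      cases h' with
      | cons _ _ _ _ hP' _ h' => exact TrN.cons c q' a R ⟨hP, hP'⟩ ht (ih (upd c q' a) h h')

/-- Basic facts. -/
theorem tBas : S_Bas := by
  intro K Γ M
  exact ⟨fun c R R' => bas_exe R c R',
    fun P c R R' => ⟨fun h => bas_split P R c R' h, fun h => bas_join P R c R' h.1 h.2⟩,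
    fun P P' c R hPP h => bas_mono P P' hPP h,
    fun P c R h => ⟨bas_first h, bas_last P h⟩,
    fun P P' c R h h' => bas_and P P' R c h h'⟩

end MPdee884H4
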