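import Pool.Agent.Lib.MP_dee884_lc.H4.Spec

/-!
# MP_dee884_lc, H4: congruence of the local conditions
-/

namespace MPdee884H4

open MPdee884H1 MPdee884H2 MPdee884H3 Pool.Agent.Lin

private theorem Cgr_src {K : Type} {I : Set K} {k1 : K} {h h' : K → ℕ → ℤ} {N : ℕ}
    (hh : ∀ k w, w < N → h k w = h' k w) {k : K} {e : Fin 3} {u w : ℕ} {e' : Fin 3} (hw : w < N)
    (hs : Src I k1 h k e u w e') : Src I k1 h' k e u w e' := by
  unfold Src at hs ⊢
  by_cases h1 : k = k1
  · rw [if_pos h1] at hs ⊢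
    obtain ⟨hp, he⟩ := hs
    have hu : u < N := lt_trans hp.1 hw
    refine ⟨?_, ?_⟩
    · rw [← hh k w hw]
      exact isPr_congr (le_of_lt hw) (fun t ht => hh k t ht) hp
    · rw [← hh k w hw, ← hh k u hu]
      exact he
  · rw [if_neg h1] at hs ⊢
    by_cases h2 : k ∈ I
    · rw [if_pos h2] at hs ⊢
      obtain ⟨h3, h4, h5⟩ := hs
      have hu : u < N := by omega
      refine ⟨h3, h4, ?_⟩
      rw [← hh k w hw, ← hh k u hu]
      exact h5
    · rw [if_neg h2] at hs ⊢
      exact hs

private theorem Cgr_ini {K : Type} {I : Set K} {k1 : K} {h h' : K → ℕ → ℤ} {N : ℕ}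
    (hh : ∀ k w, w < N → h k w = h' k w) {k : K} {e : Fin 3} {w : ℕ} (hw : w < N)
    (hs : Ini I k1 h k e w) : Ini I k1 h' k e w := by
  unfold Ini at hs ⊢
  by_cases h1 : k = k1
  · rw [if_pos h1] at hs ⊢
    rw [← hh k w hw]
    exact noPr_congr (le_of_lt hw) (fun t ht => hh k t ht) hs
  · rw [if_neg h1] at hs ⊢
    exact hs

theorem tCgr : S_Cgr := by
  intro K Γ M I k1 τ b N h h' q q' J V Y Y' d d' hV hh hq hY hd hSrc G
  have hh' : ∀ k w, w < N → h' k w = h k w := fun k w hw => (hh k w hw).symm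
  refine ⟨?_, ?_⟩
  · intro w hw
    have hwN : w < N := hV w hw
    have L := G.loc w hw
    obtain ⟨e1, e2, e3⟩ := hd w hw
    constructor
    · intro k e
      rw [← e1]
      exact L.lsc k e
    · rw [← e2]
      exact L.lrc
    · intro k e
      rw [← e3]
      exact L.lec k e
    · intro k
      rw [← e1, ← e1, ← e1, ← e2, ← e3, ← e3, ← e3]
      exact L.sim k
    · intro k hk
      rw [← e1]
      exact L.fl0 k hk
    · intro k hk
      rw [← e1]
      exact L.fl2 k hk
    · intro h0 k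
      rw [← e1]
      exact L.fl1 h0 k
    · rw [← e2, ← hq w (by omega), ← hq (w + 1) (by omega)]
      exact L.chn
    · intro k e u e' hs huJ
      rw [← e1, ← hY u huJ]
      exact L.prY k e u e' (Cgr_src hh' hwN hs) huJ
    · intro k e u e' hs huJ
      have hs' : Src I k1 h k e u w e' := Cgr_src hh' hwN hs
      have huV : u ∈ V := (hSrc w hw k e u e' hs').resolve_left huJ
      rw [← e1, ← (hd u huV).2.2 k e']
      exact L.prE k e u e' hs' huJ
    · intro k e hn
      rw [← e1, hh' k w hwN]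
      exact L.prI k e (Cgr_ini hh' hwN hn)
  · intro w hw hwJ k e
    rw [← (hd w hw).2.2 k e, ← hY w hwJ]
    exact G.top w hw hwJ k e

end MPdee884H4
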