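import Pool.Agent.Lib.MP_dee884_lc.H4.Spec

/-! # Pigeonhole for the residue of the cells -/

set_option autoImplicit false

namespace MPdee884H4

open MPdee884H1 MPdee884H2 MPdee884H3 Pool.Agent.Lin

private theorem Cm1_card (A : ℕ) (hA : 3 ≤ A) (c : ℤ) :
    ((Finset.range A).filter (fun r : ℕ => (c - (r : ℤ)) % (A : ℤ) ≤ 2)).card ≤ 3 := by
  have hA0 : (A : ℤ) ≠ 0 := by omega
  have h : ((Finset.range A).filter (fun r : ℕ => (c - (r : ℤ)) % (A : ℤ) ≤ 2)).card ≤
      (Finset.range 3).card := by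
    apply Finset.card_le_card_of_injOn (fun r : ℕ => ((c - (r : ℤ)) % (A : ℤ)).toNat)
    · intro r hr
      have hr' := (Finset.mem_filter.1 (Finset.mem_coe.1 hr)).2
      have h0 := Int.emod_nonneg (c - (r : ℤ)) hA0
      simp only [Finset.coe_range, Set.mem_Iio]
      omega
    · intro r hr s hs h
      have hr1 := Finset.mem_range.1 (Finset.mem_filter.1 (Finset.mem_coe.1 hr)).1
      have hs1 := Finset.mem_range.1 (Finset.mem_filter.1 (Finset.mem_coe.1 hs)).1
      have h0 := Int.emod_nonneg (c - (r : ℤ)) hA0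
      have h0' := Int.emod_nonneg (c - (s : ℤ)) hA0
      simp only at h
      have h1 : (c - (r : ℤ)) % (A : ℤ) = (c - (s : ℤ)) % (A : ℤ) := by
        rw [← Int.toNat_of_nonneg h0, ← Int.toNat_of_nonneg h0', h]
      have h2 : (A : ℤ) ∣ (c - (s : ℤ)) - (c - (r : ℤ)) := Int.ModEq.dvd h1
      have h3 : (c - (s : ℤ)) - (c - (r : ℤ)) = 0 := by
        apply Int.eq_zero_of_abs_lt_dvd h2
        rw [abs_lt]
        constructor <;> omega
      omega
  rwa [Finset.card_range] at h

theorem tCm1 : S_Cm1 := by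
  intro A N g hA
  by_contra hcon
  simp only [not_exists, not_le] at hcon
  have h1 : ∑ r ∈ Finset.range A, (3 * N) < ∑ r ∈ Finset.range A,
      A * ((Finset.range N).filter (fun w => rsd A (r : ℤ) g w ≤ 2)).card :=
    Finset.sum_lt_sum_of_nonempty ⟨0, Finset.mem_range.2 (by omega)⟩ (fun r _ => hcon r)
  rw [Finset.sum_const, Finset.card_range, smul_eq_mul, ← Finset.mul_sum] at h1
  have h2 : ∑ r ∈ Finset.range A,
      ((Finset.range N).filter (fun w => rsd A (r : ℤ) g w ≤ 2)).card ≤ 3 * N := by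
    simp only [Finset.card_filter]
    rw [Finset.sum_comm]
    calc ∑ w ∈ Finset.range N, ∑ r ∈ Finset.range A, (if rsd A (r : ℤ) g w ≤ 2 then 1 else 0)
        ≤ ∑ w ∈ Finset.range N, 3 := Finset.sum_le_sum fun w _ => by
          rw [← Finset.card_filter]
          exact Cm1_card A hA (g w + 1)
      _ = 3 * N := by rw [Finset.sum_const, Finset.card_range, smul_eq_mul, mul_comm]
  have h3 := Nat.mul_le_mul_left A h2
  omega

end MPdee884H4
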