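import Pool.Agent.Lib.MP_dee884_lc.H4.Spec

/-!
# MP_dee884_lc, H4: the same cell
-/

namespace MPdee884H4

open MPdee884H1 MPdee884H2 MPdee884H3 Pool.Agent.Lin

theorem Cm2_aux (A a b : ℤ) (hA : 1 ≤ A) (ha : 2 < a % A) (hb : 2 < b % A) (h : a - b ≤ 2) :
    a / A ≤ b / A := by
  by_contra hc
  have h1 : b / A + 1 ≤ a / A := by omega
  have e1 : a % A + A * (a / A) = a := Int.emod_add_mul_ediv a A
  have e2 : b % A + A * (b / A) = b := Int.emod_add_mul_ediv b A
  have h3 : b % A < A := Int.emod_lt_of_pos b (by omega)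
  have h4 : A * (b / A + 1) ≤ A * (a / A) := mul_le_mul_of_nonneg_left h1 (by omega)
  have h5 : A * (b / A + 1) = A * (b / A) + A := by ring
  linarith

theorem tCm2 : S_Cm2 := by
  intro A r g u w hA hu hw h
  unfold rsd at hu hw
  have hA' : (1 : ℤ) ≤ (A : ℤ) := by exact_mod_cast hA
  have h1 := (abs_le.mp h).1
  have h2 := (abs_le.mp h).2
  exact le_antisymm (Cm2_aux _ _ _ hA' hu hw (by linarith))
    (Cm2_aux _ _ _ hA' hw hu (by linarith))

end MPdee884H4
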