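import Pool.Agent.Lib.MP_dee884_lc.H4.Spec

/-!
# MP_dee884_lc, H4: edges between groups of one cell
-/

namespace MPdee884H4

open MPdee884H1 MPdee884H2 MPdee884H3 Pool.Agent.Lin

private def Cm3_P (C : Finset ℕ) (g : ℕ → ℤ) (gr : ℕ → ℕ) (lo : ℤ) (u c : ℕ) : Prop :=
  (c = 0 ∧ ∃ w ∈ C, gr u ≠ gr w ∧ u + 1 = w) ∨
    (1 ≤ c ∧ ∃ w ∈ C, gr u ≠ gr w ∧ IsPr g (lo + (c : ℤ) - 2) u w)

private theorem Cm3_ex (C : Finset ℕ) (g : ℕ → ℤ) (gr : ℕ → ℕ) (lo : ℤ) (A : ℕ)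
    (hg : ∀ w ∈ C, lo ≤ g w ∧ g w < lo + A) (u : ℕ)
    (hu : ∃ w ∈ C, gr u ≠ gr w ∧ EdN g u w) : ∃ c : ℕ, c < A + 3 ∧ Cm3_P C g gr lo u c := by
  obtain ⟨w, hw, hne, h | ⟨e, h⟩⟩ := hu
  · exact ⟨0, by omega, Or.inl ⟨rfl, w, hw, hne, h⟩⟩
  · obtain ⟨h1, h2⟩ := hg w hw
    have he : (e.1 : ℤ) ≤ 2 := by have := e.2; omega
    have he0 : (0 : ℤ) ≤ (e.1 : ℤ) := by positivity
    have hc : (((sh (g w) e - lo + 2).toNat : ℕ) : ℤ) = sh (g w) e - lo + 2 := by
      apply Int.toNat_of_nonneg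
      unfold sh; omega
    refine ⟨(sh (g w) e - lo + 2).toNat, ?_, Or.inr ⟨?_, w, hw, hne, ?_⟩⟩
    · have : (((sh (g w) e - lo + 2).toNat : ℕ) : ℤ) < (A : ℤ) + 3 := by
        rw [hc]; unfold sh; omega
      omega
    · have : (1 : ℤ) ≤ (((sh (g w) e - lo + 2).toNat : ℕ) : ℤ) := by
        rw [hc]; unfold sh; omega
      omega
    · have h3 : lo + (((sh (g w) e - lo + 2).toNat : ℕ) : ℤ) - 2 = sh (g w) e := by
        rw [hc]; ring
      rw [h3]; exact h

private theorem Cm3_inj (C : Finset ℕ) (g : ℕ → ℤ) (gr : ℕ → ℕ) (lo : ℤ)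
    (hm : ∀ u ∈ C, ∀ w ∈ C, u < w → gr u ≤ gr w) (u v c : ℕ) (hu : u ∈ C) (hv : v ∈ C)
    (huv : u < v) (hgr : gr u = gr v) (h1 : Cm3_P C g gr lo u c) (h2 : Cm3_P C g gr lo v c) :
    False := by
  have key : ∀ w ∈ C, gr u ≠ gr w → u < w → v < w := by
    intro w hw hne huw
    by_contra hcon
    rcases Nat.lt_or_ge w v with h | h
    · have h3 := hm w hw v hv h
      have h4 := hm u hu w hw huw
      omega
    · have : w = v := by omega
      rw [this] at hne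
      exact hne hgr
  rcases h1 with ⟨h0, w, hw, hne, h3⟩ | ⟨h0, w, hw, hne, h3⟩
  · have := key w hw hne (by omega)
    omega
  · rcases h2 with ⟨h0', -⟩ | ⟨-, w', -, -, h4⟩
    · omega
    · have h5 := key w hw hne h3.1
      have h6 := h3.2.2 v huv h5
      have h7 := h4.2.1
      omega

theorem tCm3 : S_Cm3 := by
  intro C g gr lo A n1 hg hn hm T hT
  have hex : ∀ u ∈ T, ∃ c : ℕ, c < A + 3 ∧ Cm3_P C g gr lo u c := fun u hu =>
    Cm3_ex C g gr lo A hg u (hT u hu).2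
  choose! c hc using hex
  have hcard : T.card ≤ (Finset.range n1 ×ˢ Finset.range (A + 3)).card := by
    refine Finset.card_le_card_of_injOn (fun u => (gr u, c u)) ?_ ?_
    · intro u hu
      have hu' : u ∈ T := hu
      simp only [Finset.coe_product, Finset.coe_range, Set.mem_prod, Set.mem_Iio]
      exact ⟨hn u (hT u hu').1, (hc u hu').1⟩
    · intro u hu v hv huv
      have hu' : u ∈ T := hu
      have hv' : v ∈ T := hv
      simp only [Prod.mk.injEq] at huv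
      obtain ⟨h1, h2⟩ := huv
      by_contra hne
      have hPu := (hc u hu').2
      have hPv := (hc v hv').2
      rcases Nat.lt_or_gt_of_ne hne with h | h
      · rw [← h2] at hPv
        exact Cm3_inj C g gr lo hm u v (c u) (hT u hu').1 (hT v hv').1 h h1 hPu hPv
      · rw [h2] at hPu
        exact Cm3_inj C g gr lo hm v u (c v) (hT v hv').1 (hT u hu').1 h h1.symm hPv hPu
  rwa [Finset.card_product, Finset.card_range, Finset.card_range] at hcard

end MPdee884H4
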