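import Pool.Agent.Lib.MP_dee884_lc.H4.Spec

/-!
# MP_dee884_lc, H4: ranks
-/

namespace MPdee884H4

open MPdee884H1 MPdee884H2 MPdee884H3 Pool.Agent.Lin

theorem tCm4 : S_Cm4 := by
  intro C G j hG
  have h1 : (C.filter (fun w => rk C w / G = j)).card ≤
      (Finset.Ico (G * j) (G * j + G)).card := by
    apply Finset.card_le_card_of_injOn (rk C)
    · intro w hw
      simp only [Finset.coe_filter, Set.mem_setOf_eq] at hw
      rw [Finset.coe_Ico, Set.mem_Ico]
      have h2 := Nat.div_add_mod (rk C w) G
      have h3 := Nat.mod_lt (rk C w) (by omega : 0 < G)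
      rw [hw.2] at h2
      constructor <;> omega
    · intro u hu w hw h
      simp only [Finset.coe_filter, Set.mem_setOf_eq] at hu hw
      exact rk_inj hu.1 hw.1 h
  simpa using h1

end MPdee884H4
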