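import Pool.Agent.Lib.MP_dee884_lc.H4.Spec

/-!
# MP_dee884_lc, H4: tails of edges
-/

namespace MPdee884H4

open MPdee884H1 MPdee884H2 MPdee884H3 Pool.Agent.Lin

private theorem Cm5_lt {g : ℕ → ℤ} {u w : ℕ} (h : EdN g u w) : u < w := by
  rcases h with h | ⟨e, h⟩
  · omega
  · exact h.1

private theorem Cm5_uniq {g : ℕ → ℤ} {β : ℤ} {u u' w : ℕ} (h : IsPr g β u w)
    (h' : IsPr g β u' w) : u = u' := by
  rcases lt_trichotomy u u' with h1 | h1 | h1
  · have := h.2.2 u' h1 h'.1
    have := h'.2.1
    omega
  · exact h1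
  · have := h'.2.2 u h1 h.1
    have := h.2.1
    omega

open Classical in
theorem tCm5 : S_Cm5 := by
  intro J1 g N hN
  have key : ∀ w ∈ J1, ((Finset.range w).filter (fun u => EdN g u w)).card ≤ 4 := by
    intro w _
    have h1 : (Finset.range w).filter (fun u => EdN g u w) ⊆ {w - 1} ∪
        (Finset.univ : Finset (Fin 3)).biUnion
          (fun e => (Finset.range w).filter (fun u => IsPr g (sh (g w) e) u w)) := by
      intro u hu
      rw [Finset.mem_filter] at hu
      rw [Finset.mem_union, Finset.mem_singleton, Finset.mem_biUnion]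
      rcases hu.2 with h | ⟨e, h⟩
      · left
        omega
      · right
        exact ⟨e, Finset.mem_univ e, Finset.mem_filter.2 ⟨hu.1, h⟩⟩
    have h2 : ((Finset.univ : Finset (Fin 3)).biUnion
          (fun e => (Finset.range w).filter (fun u => IsPr g (sh (g w) e) u w))).card ≤
        (Finset.univ : Finset (Fin 3)).card * 1 := by
      refine Finset.card_biUnion_le_card_mul _ _ _ ?_
      intro e _
      rw [Finset.card_le_one]
      intro a ha b hb
      exact Cm5_uniq (Finset.mem_filter.1 ha).2 (Finset.mem_filter.1 hb).2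
    have h3 := (Finset.card_le_card h1).trans (Finset.card_union_le _ _)
    rw [Finset.card_singleton] at h3
    have h4 : (Finset.univ : Finset (Fin 3)).card = 3 := by simp
    omega
  refine ⟨J1 ∪ J1.biUnion (fun w => (Finset.range w).filter (fun u => EdN g u w)), ?_, ?_, ?_⟩
  · intro u
    rw [Finset.mem_union, Finset.mem_biUnion]
    constructor
    · rintro (h | ⟨w, hw, hu⟩)
      · exact Or.inl h
      · exact Or.inr ⟨w, hw, (Finset.mem_filter.1 hu).2⟩
    · rintro (h | ⟨w, hw, hu⟩)
      · exact Or.inl h
      · exact Or.inr ⟨w, hw, Finset.mem_filter.2 ⟨Finset.mem_range.2 (Cm5_lt hu), hu⟩⟩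
  · have h1 := Finset.card_biUnion_le_card_mul J1
      (fun w => (Finset.range w).filter (fun u => EdN g u w)) 4 key
    have h2 := Finset.card_union_le J1
      (J1.biUnion (fun w => (Finset.range w).filter (fun u => EdN g u w)))
    omega
  · intro u hu
    rw [Finset.mem_union, Finset.mem_biUnion] at hu
    rcases hu with h | ⟨w, hw, hu⟩
    · exact hN u h
    · have h1 := Cm5_lt (Finset.mem_filter.1 hu).2
      have h2 := hN w hw
      omega

end MPdee884H4
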