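import Pool.Agent.Lib.MP_dee884_lc.H4.Spec

/-!
# MP_dee884_lc, H4: cells and groups

Self-contained proof of `S_Cmb`.
-/

namespace MPdee884H4.CmbM

/-- edges, with a block `β` next to the one of `w` -/
def Edge (g : ℕ → ℤ) (u w : ℕ) : Prop :=
  u < w ∧ (u + 1 = w ∨ ∃ β : ℤ, |g w - β| ≤ 1 ∧ |g u - β| ≤ 1 ∧
    ∀ v, u < v → v < w → ¬ |g v - β| ≤ 1)

open Finset Classical

/-- pigeonhole over the residues -/
theorem exists_res (A N : ℕ) (hA : 3 ≤ A) (g : ℕ → ℤ) :
    ∃ r : ℕ, A * ((range N).filter (fun w => (g w - r + 1) % (A : ℤ) < 3)).card ≤ 3 * N := by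
  by_contra hcon
  push Not at hcon
  have h1 : ∀ r ∈ range A, 3 * N + 1 ≤
      A * ((range N).filter (fun w => (g w - r + 1) % (A : ℤ) < 3)).card := fun r _ => hcon r
  have h2 := Finset.sum_le_sum h1
  rw [Finset.sum_const, card_range, smul_eq_mul, ← Finset.mul_sum] at h2
  have h3 : ∑ r ∈ range A, ((range N).filter (fun w => (g w - r + 1) % (A : ℤ) < 3)).card
      ≤ 3 * N := by
    have h4 : ∀ r ∈ range A, ((range N).filter (fun w => (g w - r + 1) % (A : ℤ) < 3)).card
        = ∑ w ∈ range N, if (g w - r + 1) % (A : ℤ) < 3 then 1 else 0 := by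
      intro r _
      rw [Finset.card_filter]
    rw [Finset.sum_congr rfl h4, Finset.sum_comm]
    have h5 : ∀ w ∈ range N, (∑ r ∈ range A, if (g w - r + 1) % (A : ℤ) < 3 then 1 else 0) ≤ 3 := by
      intro w _
      rw [← Finset.card_filter]
      have h6 : ((range A).filter (fun r : ℕ => (g w - r + 1) % (A : ℤ) < 3)).card
          ≤ (Finset.Ico (0 : ℤ) 3).card := by
        apply Finset.card_le_card_of_injOn (fun r : ℕ => (g w - r + 1) % (A : ℤ))
        · intro r hr
          rw [Finset.coe_filter] at hr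
          rw [Finset.coe_Ico, Set.mem_Ico]
          exact ⟨Int.emod_nonneg _ (by positivity), hr.2⟩
        · intro r hr s hs hrs
          rw [Finset.coe_filter] at hr hs
          have hr1 : r < A := Finset.mem_range.1 hr.1
          have hs1 : s < A := Finset.mem_range.1 hs.1
          simp only at hrs
          have hd : (A : ℤ) ∣ ((g w - r + 1) - (g w - s + 1)) :=
            Int.ModEq.dvd (Int.ModEq.symm hrs)
          have hd2 : (A : ℤ) ∣ ((s : ℤ) - r) := by
            have he : (g w - r + 1) - (g w - s + 1) = (s : ℤ) - r := by ring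
            rwa [he] at hd
          have h0 : (s : ℤ) - r = 0 := by
            apply Int.eq_zero_of_abs_lt_dvd hd2
            rw [abs_lt]
            constructor <;> omega
          omega
      simpa using h6
    calc _ ≤ ∑ w ∈ range N, 3 := Finset.sum_le_sum h5
      _ = 3 * N := by rw [Finset.sum_const, card_range, smul_eq_mul, mul_comm]
  have h7 : A * (3 * N + 1) ≤ A * (3 * N) := le_trans h2 (Nat.mul_le_mul_left _ h3)
  have h8 : 3 * N + 1 ≤ 3 * N := Nat.le_of_mul_le_mul_left h7 (by omega)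
  omega

theorem fg_eq (P : ℕ → Prop) [DecidablePred P] (u M : ℕ) (h1 : u ≤ M) (h2 : P u) (h3 : ∀ v, u < v → v ≤ M → ¬ P v) :
    Nat.findGreatest P M = u := by
  rw [Nat.findGreatest_eq_iff]
  exact ⟨h1, fun _ => h2, fun {n} hn hM => h3 n hn hM⟩

theorem cmb (D : ℕ) (hD : 0 < D) : ∃ N0 : ℕ, ∀ N, N0 ≤ N → ∀ g : ℕ → ℤ,
    (∀ w, w + 1 < N → |g (w + 1) - g w| ≤ 1) →
    ∃ (J : Finset ℕ) (cl gr : ℕ → ℕ) (J2 : ℕ → Finset ℕ),
      D * J.card ≤ N ∧ (∀ i, D * (J2 i).card ≤ N) ∧ (∀ u ∈ J, u < N) ∧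
      (∀ i, ∀ u ∈ J2 i, u < N ∧ cl u = i) ∧
      (∀ i j, D * ((range N).filter (fun w => cl w = i ∧ gr w = j)).card ≤ N) ∧
      (∀ w < N, cl w < N ∧ gr w < N) ∧
      ∀ u w, w < N → Edge g u w → u ∈ J ∨ (cl u = cl w ∧ (gr u = gr w ∨ u ∈ J2 (cl w))) := by
  obtain ⟨A, hA⟩ : ∃ A, A = 15 * D := ⟨_, rfl⟩
  refine ⟨D * (2 * D * (A + 3)) + D, fun N hN g hg => ?_⟩
  have hND : D ≤ N := by omega
  obtain ⟨r, hr⟩ := exists_res A N (by omega) g
  obtain ⟨J1, hJ1⟩ : ∃ J1, J1 = (range N).filter (fun w => (g w - r + 1) % (A : ℤ) < 3) := ⟨_, rfl⟩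
  rw [← hJ1] at hr
  have hAz : (0 : ℤ) < A := by omega
  obtain ⟨m, hm⟩ : ∃ m, m = N / D := ⟨_, rfl⟩
  have hm1 : 1 ≤ m := by rw [hm]; exact (Nat.one_le_div_iff hD).2 hND
  have hmD : D * m ≤ N := by rw [hm]; exact Nat.mul_div_le N D
  have hmN : N < 2 * D * m := by
    have h1 : N < D * (m + 1) := by rw [hm]; exact Nat.lt_mul_div_succ N hD
    nlinarith
  obtain ⟨L, hL⟩ : ∃ L : ℤ → ℕ → ℕ, L = fun β w =>
    Nat.findGreatest (fun u => u < w ∧ |g u - β| ≤ 1) w := ⟨_, rfl⟩
  obtain ⟨T, hT⟩ : ∃ T : ℕ → Finset ℕ, T = fun w =>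
    {w - 1, L (g w - 1) w, L (g w) w, L (g w + 1) w} := ⟨_, rfl⟩
  have hTc : ∀ w, (T w).card ≤ 4 := by
    intro w
    rw [hT]
    exact Finset.card_le_four
  -- tails of edges
  have hTe : ∀ u w, Edge g u w → u ∈ T w := by
    intro u w he
    rw [hT]
    simp only [Finset.mem_insert, Finset.mem_singleton]
    rcases he with ⟨huw, h | ⟨β, h1, h2, h3⟩⟩
    · left; omega
    · have hLu : L β w = u := by
        rw [hL]
        beta_reduce
        apply fg_eq
        · exact huw.le
        · exact ⟨huw, h2⟩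
        · intro v hv1 _ hv3
          exact h3 v hv1 hv3.1 hv3.2
      rw [abs_le] at h1
      have h4 : β = g w - 1 ∨ β = g w ∨ β = g w + 1 := by omega
      rcases h4 with h4 | h4 | h4 <;> rw [← h4, hLu] <;> tauto
  obtain ⟨J, hJ⟩ : ∃ J, J = (J1 ∪ J1.biUnion T).filter (fun u => u < N) := ⟨_, rfl⟩
  have hJc : D * J.card ≤ N := by
    have h1 : J.card ≤ 5 * J1.card := by
      calc J.card ≤ (J1 ∪ J1.biUnion T).card := by rw [hJ]; exact Finset.card_filter_le _ _
        _ ≤ J1.card + (J1.biUnion T).card := Finset.card_union_le _ _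
        _ ≤ J1.card + J1.card * 4 := by
            have := Finset.card_biUnion_le_card_mul J1 T 4 (fun w _ => hTc w)
            omega
        _ = 5 * J1.card := by ring
    have h2 : 3 * (D * J.card) ≤ 3 * N := by
      calc 3 * (D * J.card) ≤ 3 * (D * (5 * J1.card)) := by gcongr
        _ = A * J1.card := by rw [hA]; ring
        _ ≤ 3 * N := hr
    omega
  obtain ⟨cz, hcz⟩ : ∃ cz : ℕ → ℤ, cz = fun w => (g w - r) / (A : ℤ) := ⟨_, rfl⟩
  obtain ⟨cl, hcl⟩ : ∃ cl : ℕ → ℕ, cl = fun w =>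
    if w ∈ J1 then w else sInf {v | v ∉ J1 ∧ cz v = cz w} := ⟨_, rfl⟩
  have hcl1 : ∀ w ∈ J1, cl w = w := by intro w hw; rw [hcl]; simp [hw]
  have hcl2 : ∀ w, w ∉ J1 → cl w ∉ J1 ∧ cz (cl w) = cz w := by
    intro w hw
    have h1 : cl w = sInf {v | v ∉ J1 ∧ cz v = cz w} := by rw [hcl]; simp [hw]
    rw [h1]
    have h2 : sInf {v | v ∉ J1 ∧ cz v = cz w} ∈ {v | v ∉ J1 ∧ cz v = cz w} :=
      Nat.sInf_mem ⟨w, hw, rfl⟩
    exact h2
  have hcl3 : ∀ u w, u ∉ J1 → w ∉ J1 → cz u = cz w → cl u = cl w := by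
    intro u w hu hw h
    rw [hcl]
    simp [hu, hw, h]
  have hcl4 : ∀ w, cl w ≤ w := by
    intro w
    by_cases hw : w ∈ J1
    · rw [hcl1 w hw]
    · have h1 : cl w = sInf {v | v ∉ J1 ∧ cz v = cz w} := by rw [hcl]; simp [hw]
      rw [h1]
      exact Nat.sInf_le ⟨hw, rfl⟩
  have hcl5 : ∀ u w, u ≠ w → cl u = cl w → u ∉ J1 ∧ w ∉ J1 := by
    intro u w hne h
    by_cases hu : u ∈ J1
    · by_cases hw : w ∈ J1
      · rw [hcl1 u hu, hcl1 w hw] at h; exact absurd h hne
      · have := (hcl2 w hw).1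
        rw [← h, hcl1 u hu] at this
        exact absurd hu this
    · by_cases hw : w ∈ J1
      · have := (hcl2 u hu).1
        rw [h, hcl1 w hw] at this
        exact absurd hw this
      · exact ⟨hu, hw⟩
  obtain ⟨rk, hrk⟩ : ∃ rk : ℕ → ℕ, rk = fun w => ((range w).filter (fun v => cl v = cl w)).card :=
    ⟨_, rfl⟩
  have hrk1 : ∀ u w, u < w → cl u = cl w → rk u < rk w := by
    intro u w huw h
    rw [hrk]
    apply Finset.card_lt_card
    rw [Finset.ssubset_iff_of_subset]
    · refine ⟨u, ?_, ?_⟩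
      · simp [huw, h]
      · simp
    · intro v hv
      simp only [Finset.mem_filter, Finset.mem_range] at hv ⊢
      exact ⟨by omega, by rw [hv.2, h]⟩
  have hrk2 : ∀ w, rk w ≤ w := by
    intro w
    rw [hrk]
    calc ((range w).filter (fun v => cl v = cl w)).card ≤ (range w).card :=
          Finset.card_filter_le _ _
      _ = w := card_range w
  obtain ⟨gr, hgr⟩ : ∃ gr : ℕ → ℕ, gr = fun w => rk w / m := ⟨_, rfl⟩
  have hgr1 : ∀ w, gr w ≤ w := by
    intro w
    rw [hgr]
    exact le_trans (Nat.div_le_self _ _) (hrk2 w)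
  have hgr2 : ∀ w < N, gr w < 2 * D := by
    intro w hw
    rw [hgr]
    simp only
    rw [Nat.div_lt_iff_lt_mul (by omega)]
    have := hrk2 w
    omega
  have hgr3 : ∀ u w, u ≤ w → cl u = cl w → gr u ≤ gr w := by
    intro u w huw h
    rcases Nat.lt_or_eq_of_le huw with h1 | h1
    · rw [hgr]
      exact Nat.div_le_div_right (hrk1 u w h1 h).le
    · rw [h1]
  obtain ⟨J2, hJ2⟩ : ∃ J2 : ℕ → Finset ℕ, J2 = fun i => (range N).filter (fun u => cl u = i ∧
    ∃ w, w < N ∧ Edge g u w ∧ cl w = i ∧ gr u ≠ gr w) := ⟨_, rfl⟩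
  refine ⟨J, cl, gr, J2, hJc, ?_, ?_, ?_, ?_, ?_, ?_⟩
  · intro i
    rcases Finset.eq_empty_or_nonempty (J2 i) with h0 | ⟨u0, hu0⟩
    · rw [h0]; simp
    have hu0' := hu0
    rw [hJ2] at hu0'
    simp only [Finset.mem_filter, Finset.mem_range] at hu0'
    obtain ⟨_, hcu0, w0, hw0N, he0, hcw0, _⟩ := hu0'
    have hnJ0 := hcl5 u0 w0 he0.1.ne (hcu0.trans hcw0.symm)
    -- all elements of the cell
    have hcell : ∀ w, w ≠ w0 → cl w = i → w ∉ J1 ∧ cz w = cz w0 := by
      intro w hw h
      have h1 := hcl5 w w0 hw (h.trans hcw0.symm)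
      refine ⟨h1.1, ?_⟩
      rw [← (hcl2 w h1.1).2, ← (hcl2 w0 h1.2).2, h, hcw0]
    have hcell2 : ∀ w, cl w = i → cz w = cz w0 := by
      intro w h
      by_cases hw : w = w0
      · rw [hw]
      · exact (hcell w hw h).2
    obtain ⟨B, hB⟩ : ∃ B : Finset ℤ, B = Finset.Icc ((A : ℤ) * cz w0 + r - 1)
      ((A : ℤ) * cz w0 + r + A) := ⟨_, rfl⟩
    have hBc : B.card = A + 2 := by
      rw [hB, Int.card_Icc]
      have : (A : ℤ) * cz w0 + r + A + 1 - ((A : ℤ) * cz w0 + r - 1) = ((A + 2 : ℕ) : ℤ) := by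
        push_cast; ring
      rw [this, Int.toNat_natCast]
    have hBm : ∀ w β, cl w = i → |g w - β| ≤ 1 → β ∈ B := by
      intro w β h h1
      have h2 := hcell2 w h
      rw [hcz] at h2
      simp only at h2
      have h3 : (A : ℤ) * ((g w - r) / (A : ℤ)) + (g w - r) % (A : ℤ) = g w - r :=
        Int.mul_ediv_add_emod _ _
      have h4 := Int.emod_nonneg (g w - r) hAz.ne'
      have h5 := Int.emod_lt_of_pos (g w - r) hAz
      have h6 : (A : ℤ) * cz w0 = (A : ℤ) * ((g w - r) / (A : ℤ)) := by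
        rw [h2, hcz]
      rw [abs_le] at h1
      rw [hB, Finset.mem_Icc, h6]
      constructor <;> omega
    obtain ⟨F1, hF1⟩ : ∃ F1 : ℕ → ℕ, F1 = fun γ =>
      Nat.findGreatest (fun v => cl v = i ∧ gr v = γ) (N - 1) := ⟨_, rfl⟩
    obtain ⟨F2, hF2⟩ : ∃ F2 : ℕ × ℤ → ℕ, F2 = fun p =>
      Nat.findGreatest (fun v => cl v = i ∧ gr v = p.1 ∧ |g v - p.2| ≤ 1) (N - 1) := ⟨_, rfl⟩
    have hsub : J2 i ⊆ ((range (2 * D)).image F1) ∪ (((range (2 * D)) ×ˢ B).image F2) := by
      intro u hu
      rw [hJ2] at hu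
      simp only [Finset.mem_filter, Finset.mem_range] at hu
      obtain ⟨huN, hcu, w, hwN, he, hcw, hne⟩ := hu
      have huw := he.1
      have hle := hgr3 u w huw.le (hcu.trans hcw.symm)
      rw [Finset.mem_union]
      rcases he with ⟨_, h | ⟨β, h1, h2, h3⟩⟩
      · left
        rw [Finset.mem_image]
        refine ⟨gr u, Finset.mem_range.2 (hgr2 u huN), ?_⟩
        rw [hF1]
        beta_reduce
        apply fg_eq
        · omega
        · exact ⟨hcu, rfl⟩
        · intro v hv1 hv2 hv3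
          have := hgr3 w v (by omega) (hcw.trans hv3.1.symm)
          omega
      · right
        rw [Finset.mem_image]
        refine ⟨(gr u, β), ?_, ?_⟩
        · rw [Finset.mem_product]
          exact ⟨Finset.mem_range.2 (hgr2 u huN), hBm w β hcw h1⟩
        · rw [hF2]
          beta_reduce
          apply fg_eq
          · omega
          · exact ⟨hcu, rfl, h2⟩
          · intro v hv1 hv2 hv3
            rcases Nat.lt_or_ge v w with h4 | h4
            · exact h3 v hv1 h4 hv3.2.2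
            · have := hgr3 w v h4 (hcw.trans hv3.1.symm)
              omega
    have hcard : (J2 i).card ≤ 2 * D * (A + 3) := by
      calc (J2 i).card ≤ (((range (2 * D)).image F1) ∪ (((range (2 * D)) ×ˢ B).image F2)).card :=
            Finset.card_le_card hsub
        _ ≤ ((range (2 * D)).image F1).card + (((range (2 * D)) ×ˢ B).image F2).card :=
            Finset.card_union_le _ _
        _ ≤ (range (2 * D)).card + ((range (2 * D)) ×ˢ B).card :=
            add_le_add Finset.card_image_le Finset.card_image_le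
        _ = 2 * D * (A + 3) := by
            rw [Finset.card_product, card_range, hBc]; ring
    calc D * (J2 i).card ≤ D * (2 * D * (A + 3)) := Nat.mul_le_mul_left _ hcard
      _ ≤ N := by omega
  · intro u hu
    rw [hJ] at hu
    exact (Finset.mem_filter.1 hu).2
  · intro i u hu
    rw [hJ2] at hu
    simp only [Finset.mem_filter, Finset.mem_range] at hu
    exact ⟨hu.1, hu.2.1⟩
  · intro i j
    have h1 : ((range N).filter (fun w => cl w = i ∧ gr w = j)).card ≤
        (Finset.Ico (j * m) (j * m + m)).card := by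
      apply Finset.card_le_card_of_injOn rk
      · intro w hw
        simp only [Finset.coe_filter, Set.mem_ofPred_eq, Finset.mem_range] at hw
        rw [Finset.coe_Ico, Set.mem_Ico]
        have h2 : rk w / m = j := by
          have := hw.2.2
          rw [hgr] at this
          exact this
        have h3 := Nat.div_add_mod (rk w) m
        have h4 := Nat.mod_lt (rk w) (show 0 < m by omega)
        rw [h2] at h3
        have h5 : j * m = m * j := Nat.mul_comm _ _
        constructor <;> omega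
      · intro u hu w hw huw
        simp only [Finset.coe_filter, Set.mem_ofPred_eq, Finset.mem_range] at hu hw
        have h2 : cl u = cl w := hu.2.1.trans hw.2.1.symm
        rcases Nat.lt_trichotomy u w with h3 | h3 | h3
        · have := hrk1 u w h3 h2
          omega
        · exact h3
        · have := hrk1 w u h3 h2.symm
          omega
    rw [Nat.card_Ico] at h1
    calc _ ≤ D * (j * m + m - j * m) := Nat.mul_le_mul_left _ h1
      _ = D * m := by rw [Nat.add_sub_cancel_left]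
      _ ≤ N := hmD
  · intro w hw
    have h1 := hcl4 w
    have h2 := hgr1 w
    constructor <;> omega
  · intro u w hwN he
    by_cases huJ : u ∈ J
    · left; exact huJ
    right
    have huw := he.1
    have hwJ1 : w ∉ J1 := by
      intro hw
      apply huJ
      rw [hJ, Finset.mem_filter, Finset.mem_union]
      exact ⟨Or.inr (Finset.mem_biUnion.2 ⟨w, hw, hTe u w he⟩), by omega⟩
    have huJ1 : u ∉ J1 := by
      intro hu
      apply huJ
      rw [hJ, Finset.mem_filter, Finset.mem_union]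
      exact ⟨Or.inl hu, by omega⟩
    have hdist : |g w - g u| ≤ 2 := by
      rcases he with ⟨_, h | ⟨β, h1, h2, _⟩⟩
      · have := hg u (by omega)
        rw [h] at this
        linarith
      · rw [abs_le] at h1 h2 ⊢
        constructor <;> omega
    have hz : cz u = cz w := by
      rw [hcz]
      simp only
      have hu1 : ¬ (g u - r + 1) % (A : ℤ) < 3 := by
        intro h
        apply huJ1
        rw [hJ1, Finset.mem_filter]
        exact ⟨Finset.mem_range.2 (by omega), h⟩
      have hw1 : ¬ (g w - r + 1) % (A : ℤ) < 3 := by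
        intro h
        apply hwJ1
        rw [hJ1, Finset.mem_filter]
        exact ⟨Finset.mem_range.2 (by omega), h⟩
      have hA3 : (15 : ℤ) ≤ A := by omega
      have key : ∀ x : ℤ, ¬ (x - r + 1) % (A : ℤ) < 3 → 2 ≤ (x - r) % (A : ℤ) ∧
          (x - r) % (A : ℤ) ≤ A - 2 := by
        intro x hx
        have e1 := Int.mul_ediv_add_emod (x - r) (A : ℤ)
        have e2 := Int.emod_nonneg (x - r) hAz.ne'
        have e3 := Int.emod_lt_of_pos (x - r) hAz
        have e4 : (x - r + 1) % (A : ℤ) = ((x - r) % (A : ℤ) + 1) % (A : ℤ) := by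
          rw [Int.emod_add_emod]
        rcases lt_or_ge ((x - r) % (A : ℤ) + 1) A with h | h
        · rw [e4, Int.emod_eq_of_lt (by omega) h] at hx
          constructor <;> omega
        · exfalso
          apply hx
          have e5 : (x - r) % (A : ℤ) + 1 = A := by omega
          rw [e4, e5, Int.emod_self]
          norm_num
      obtain ⟨a1, a2⟩ := key _ hu1
      obtain ⟨b1, b2⟩ := key _ hw1
      have e1 := Int.mul_ediv_add_emod (g u - r) (A : ℤ)
      have e2 := Int.mul_ediv_add_emod (g w - r) (A : ℤ)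
      rw [abs_le] at hdist
      rcases lt_trichotomy ((g u - r) / (A : ℤ)) ((g w - r) / (A : ℤ)) with h | h | h
      · exfalso
        have : (A : ℤ) * ((g u - r) / (A : ℤ) + 1) ≤ (A : ℤ) * ((g w - r) / (A : ℤ)) :=
          mul_le_mul_of_nonneg_left (by omega) hAz.le
        rw [mul_add, mul_one] at this
        omega
      · exact h
      · exfalso
        have : (A : ℤ) * ((g w - r) / (A : ℤ) + 1) ≤ (A : ℤ) * ((g u - r) / (A : ℤ)) :=
          mul_le_mul_of_nonneg_left (by omega) hAz.le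
        rw [mul_add, mul_one] at this
        omega
    have hcc := hcl3 u w huJ1 hwJ1 hz
    refine ⟨hcc, ?_⟩
    by_cases hgg : gr u = gr w
    · left; exact hgg
    right
    rw [hJ2]
    simp only [Finset.mem_filter, Finset.mem_range]
    exact ⟨by omega, hcc, w, hwN, he, rfl, hgg⟩

end MPdee884H4.CmbM

namespace MPdee884H4

open MPdee884H1 MPdee884H2 MPdee884H3

theorem edge_of_EdN (g : ℕ → ℤ) (u w : ℕ) (h : EdN g u w) : CmbM.Edge g u w := by
  rcases h with h | ⟨e, h1, h2, h3⟩
  · exact ⟨by omega, Or.inl h⟩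
  · refine ⟨h1, Or.inr ⟨sh (g w) e, ?_, h2, ?_⟩⟩
    · have he : (e : ℕ) < 3 := e.2
      rw [abs_le]
      unfold sh
      constructor <;> omega
    · intro v hv1 hv2 hv3
      have := h3 v hv1 hv2
      omega

/-- `S_Cmb`, without other statements -/
theorem tCmb0 : S_Cmb := by
  intro D hD
  obtain ⟨N0, hN0⟩ := CmbM.cmb D hD
  refine ⟨N0, fun N hN g hg => ?_⟩
  obtain ⟨J, cl, gr, J2, h1, h2, _, _, h3, h4, h5⟩ := hN0 N hN g hg
  exact ⟨J, cl, gr, J2, h1, h4, h2, h3, fun u w hw he => h5 u w hw (edge_of_EdN g u w he)⟩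

theorem tCmb : S_Cm1 → S_Cm2 → S_Cm3 → S_Cm4 → S_Cm5 → S_Cmb := fun _ _ _ _ _ => tCmb0

end MPdee884H4
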