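import Pool.Agent.Lib.MP_dee884_lc.H4.Spec

/-!
# MP_dee884_lc, H4: completeness, a computation gives good local data (`tCplN`)
-/

set_option autoImplicit false

namespace MPdee884H4

open MPdee884H1 MPdee884H2 MPdee884H3 Pool.Agent.Lin

section

variable {K : Type} {Γ : K → Type}

private theorem CplN_sh0 (g : ℤ) : sh g 0 = g - 1 := by
  simp [sh]

private theorem CplN_sh1 (g : ℤ) : sh g 1 = g := by
  simp [sh]

private theorem CplN_sh2 (g : ℤ) : sh g 2 = g + 1 := by
  simp only [sh]
  norm_num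
  ring

private theorem CplN_len {M : NM K Γ} (c : NC M) (k : K) (b : ℕ) (β : ℤ) :
    (bN c k b β).length = b := by
  simp [bN]

private theorem CplN_win {M : NM K Γ} (c : NC M) (k : K) (b : ℕ) (g : ℤ) :
    bN c k b (sh g 0) ++ bN c k b (sh g 1) ++ bN c k b (sh g 2) = wN c k b g := by
  rw [CplN_sh0, CplN_sh1, CplN_sh2, wN]

private theorem CplN_far {p b β i s : ℤ} (hb : 1 ≤ b) (h : 2 ≤ |p / b - β|) (h1 : β * b ≤ i)
    (h2 : i < β * b + b) (hs : |s - p| ≤ b) : s ≠ i := by
  intro hsi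
  subst hsi
  have hm := Int.emod_add_mul_ediv p b
  have hm1 := Int.emod_nonneg p (show b ≠ 0 by omega)
  have hm2 := Int.emod_lt_of_pos p (show 0 < b by omega)
  rw [abs_le] at hs
  rcases le_abs.1 h with h3 | h3
  · have h4 : β + 2 ≤ p / b := by omega
    have h5 : b * (β + 2) ≤ b * (p / b) := Int.mul_le_mul_of_nonneg_left h4 (by omega)
    have h6 : b * (β + 2) = β * b + 2 * b := by ring
    omega
  · have h4 : p / b ≤ β - 2 := by omega
    have h5 : b * (p / b) ≤ b * (β - 2) := Int.mul_le_mul_of_nonneg_left h4 (by omega)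
    have h6 : b * (β - 2) = β * b - 2 * b := by ring
    omega

private theorem CplN_quo {p q b : ℤ} (hb : 1 ≤ b) (h1 : |q - p| ≤ b) :
    |q / b - p / b| ≤ 1 := by
  have hm := Int.emod_add_mul_ediv p b
  have hm1 := Int.emod_nonneg p (show (b : ℤ) ≠ 0 by omega)
  have hm2 := Int.emod_lt_of_pos p (show (0 : ℤ) < b by omega)
  have hn := Int.emod_add_mul_ediv q b
  have hn1 := Int.emod_nonneg q (show (b : ℤ) ≠ 0 by omega)
  have hn2 := Int.emod_lt_of_pos q (show (0 : ℤ) < b by omega)
  rw [abs_le] at h1 ⊢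
  constructor
  · by_contra hcon
    have h4 : q / b ≤ p / b - 2 := by omega
    have h5 : (b : ℤ) * (q / b) ≤ b * (p / b - 2) := Int.mul_le_mul_of_nonneg_left h4 (by omega)
    have h6 : (b : ℤ) * (p / b - 2) = b * (p / b) - 2 * b := by ring
    omega
  · by_contra hcon
    have h4 : p / b + 2 ≤ q / b := by omega
    have h5 : (b : ℤ) * (p / b + 2) ≤ b * (q / b) := Int.mul_le_mul_of_nonneg_left h4 (by omega)
    have h6 : (b : ℤ) * (p / b + 2) = b * (p / b) + 2 * b := by ring
    omega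

private theorem CplN_pos {p b : ℤ} (hb : 1 ≤ b) : p / b * b ≤ p ∧ p < (p / b + 1) * b :=
  ⟨Int.ediv_mul_le _ (by omega), Int.lt_ediv_add_one_mul_self _ (by omega)⟩

private theorem CplN_fl {M : NM K Γ} (c : NC M) (k : K) (b : ℕ) (β : ℤ)
    (h : ∀ o : ℕ, o < b → c.2.2 k ≠ β * b + o) : ∀ a ∈ bN c k b β, a.2 = false := by
  intro a ha
  rw [bN, List.mem_map] at ha
  obtain ⟨o, ho, rfl⟩ := ha
  rw [List.mem_range] at ho
  change decide (c.2.2 k = β * b + o) = false
  exact decide_eq_false (h o ho)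

/-- the configuration at the beginning of the segment `w` -/
private noncomputable def CplN_cfg (M : NM K Γ) (τ : (k : K) → ℤ → Option (Γ k)) (R : List (RN M))
    (b w : ℕ) : NC M :=
  exe (M := M) (M.start, τ, fun _ => 0) (R.take (w * b))

open Classical in
/-- the middle blocks -/
private noncomputable def CplN_h (M : NM K Γ) (I : Set K) (k1 : K)
    (τ : (k : K) → ℤ → Option (Γ k)) (R : List (RN M)) (b : ℕ) (k : K) (w : ℕ) : ℤ :=
  if k = k1 ∨ k ∈ I then (CplN_cfg M τ R b w).2.2 k / (b : ℤ) else 0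

private theorem CplN_h1 {M : NM K Γ} {I : Set K} {k1 : K} {τ : (k : K) → ℤ → Option (Γ k)}
    {R : List (RN M)} {b : ℕ} {k : K} (hk : k = k1 ∨ k ∈ I) (w : ℕ) :
    CplN_h M I k1 τ R b k w = (CplN_cfg M τ R b w).2.2 k / (b : ℤ) := by
  rw [CplN_h, if_pos hk]

private theorem CplN_h2 {M : NM K Γ} {I : Set K} {k1 : K} {τ : (k : K) → ℤ → Option (Γ k)}
    {R : List (RN M)} {b : ℕ} {k : K} (hk : ¬ (k = k1 ∨ k ∈ I)) (w : ℕ) :
    CplN_h M I k1 τ R b k w = 0 := by
  rw [CplN_h, if_neg hk]

end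

theorem tCplN : S_Bas → S_Mv → S_Kp → S_Ro → S_WinC → S_CplN := by
  intro hBas hMv hKp hRo hWinC K Γ M I k1 τ b N R hb hN hro hk1 hRl hTr
  obtain ⟨hB1, hB2, hB3, hB4, -⟩ := hBas M
  obtain ⟨P, hP⟩ : ∃ P : NC M → Prop, P = fun c => ∀ k, k ∉ I → k ≠ k1 → |c.2.2 k| < (b : ℤ) :=
    ⟨_, rfl⟩
  rw [← hP] at hTr
  have hbz : (1 : ℤ) ≤ b := by exact_mod_cast hb
  obtain ⟨cfg, hcfg⟩ : ∃ cfg : ℕ → NC M, cfg = CplN_cfg M τ R b := ⟨_, rfl⟩
  obtain ⟨h, hh⟩ : ∃ h : K → ℕ → ℤ, h = CplN_h M I k1 τ R b := ⟨_, rfl⟩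
  have hcw : ∀ w, cfg w = exe (M := M) (M.start, τ, fun _ => 0) (R.take (w * b)) := by
    intro w
    rw [hcfg, CplN_cfg]
  have hh1 : ∀ k, (k = k1 ∨ k ∈ I) → ∀ w, h k w = (cfg w).2.2 k / (b : ℤ) := by
    intro k hk w
    rw [hh, hcfg]
    exact CplN_h1 hk w
  have hh2 : ∀ k, ¬ (k = k1 ∨ k ∈ I) → ∀ w, h k w = 0 := by
    intro k hk w
    rw [hh]
    exact CplN_h2 hk w
  obtain ⟨RR, hRR⟩ : ∃ RR : ℕ → List (RN M), RR = fun w => (R.drop (w * b)).take b := ⟨_, rfl⟩
  have hc0 : cfg 0 = (M.start, τ, fun _ => 0) := by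
    rw [hcw, Nat.zero_mul, List.take_zero]
    rfl
  have hcs : ∀ w, cfg (w + 1) = exe (cfg w) (RR w) := by
    intro w
    rw [hcw, hcw, hRR, ← hB1, Nat.add_mul, Nat.one_mul, List.take_add]
  have hRRl : ∀ w, w < N → (RR w).length = b := by
    intro w hw
    rw [hRR]
    simp only [List.length_take, List.length_drop]
    have h1 : (w + 1) * b ≤ N * b := Nat.mul_le_mul_right b hw
    rw [Nat.add_mul, Nat.one_mul] at h1
    rw [hRl]
    omega
  have hsplit : ∀ w, R = R.take (w * b) ++ (RR w ++ (R.drop (w * b)).drop b) := by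
    intro w
    rw [hRR]
    simp only [List.take_append_drop]
  have hTw0 : ∀ w, TrN M P (M.start, τ, fun _ => 0) (R.take (w * b)) := by
    intro w
    have h1 := hTr
    rw [hsplit w] at h1
    exact ((hB2 P _ _ _).1 h1).1
  have hTw : ∀ w, TrN M P (cfg w) (RR w) := by
    intro w
    have h1 := hTr
    rw [hsplit w] at h1
    have h2 := ((hB2 P _ _ _).1 h1).2
    rw [← hcw] at h2
    exact ((hB2 P _ _ _).1 h2).1
  have hTm : ∀ w, w < N → TrN M (fun c' => P c' ∧ ∀ k, |c'.2.2 k - (cfg w).2.2 k| ≤ (b : ℤ))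
      (cfg w) (RR w) := fun w hw => hMv M P (cfg w) (RR w) b (hTw w) (hRRl w hw).le
  have hmove : ∀ w, w < N → ∀ k, |(cfg (w + 1)).2.2 k - (cfg w).2.2 k| ≤ (b : ℤ) := by
    intro w hw k
    have h1 := (hB4 _ _ _ (hTm w hw)).2.2 k
    rw [← hcs] at h1
    exact h1
  have hpos : ∀ k, (k = k1 ∨ k ∈ I) → ∀ w, h k w * b ≤ (cfg w).2.2 k ∧
      (cfg w).2.2 k < (h k w + 1) * b := by
    intro k hk w
    rw [hh1 k hk]
    exact CplN_pos hbz
  have hIn : ∀ w, w < N → TrN M (InW M b (fun k => h k w)) (cfg w) (RR w) := by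
    intro w hw
    refine hB3 _ _ _ _ ?_ (hTm w hw)
    rintro c' ⟨h1, h2⟩ k
    have h2k := h2 k
    rw [abs_le] at h2k
    show (h k w - 1) * b ≤ c'.2.2 k ∧ c'.2.2 k < (h k w + 2) * b
    by_cases hk : k = k1 ∨ k ∈ I
    · obtain ⟨h3, h4⟩ := hpos k hk w
      constructor
      · have e1 : (h k w - 1) * b = h k w * b - b := by ring
        rw [e1]
        omega
      · have e1 : (h k w + 2) * b = (h k w + 1) * b + b := by ring
        rw [e1]
        omega
    · rw [hh2 k hk w]
      have hkk := not_or.1 hk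
      rw [hP] at h1
      have h3 := h1 k hkk.2 hkk.1
      rw [abs_lt] at h3
      constructor
      · omega
      · omega
  have hW := fun w (hw : w < N) => hWinC M b (cfg w) (fun k => h k w) (RR w) hb (hIn w hw)
  -- one step of a block which is not in the window
  have hseg : ∀ k, (k = k1 ∨ k ∈ I) → ∀ (β : ℤ) (w : ℕ), w < N → 2 ≤ |h k w - β| →
      bN (cfg (w + 1)) k b β = bN (cfg w) k b β := by
    intro k hk β w hw hβ
    have hq := hh1 k hk w
    have hp := hpos k hk w
    rw [bN, bN]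
    refine List.map_congr_left fun o ho => ?_
    rw [List.mem_range] at ho
    have ho' : (o : ℤ) < b := by exact_mod_cast ho
    have ho0 : (0 : ℤ) ≤ o := Int.natCast_nonneg o
    rw [hq] at hβ
    have h2 : (cfg (w + 1)).2.2 k ≠ β * b + o :=
      CplN_far hbz hβ (by omega) (by omega) (hmove w hw k)
    have h3 : (cfg w).2.2 k ≠ β * b + o :=
      CplN_far hbz hβ (by omega) (by omega) (by simp)
    have h4 : (cfg (w + 1)).2.1 k (β * b + o) = (cfg w).2.1 k (β * b + o) := by
      rw [hcs]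
      refine hKp M (InW M b (fun k => h k w)) (cfg w) (RR w) k ((h k w - 1) * b)
        ((h k w + 2) * b) (hIn w hw) (fun c' hc' => hc' k) _ ?_
      rw [← hq] at hβ
      rcases le_abs.1 hβ with h5 | h5
      · left
        have h6 : (β + 1) * b ≤ (h k w - 1) * b :=
          Int.mul_le_mul_of_nonneg_right (by omega) (by omega)
        have h7 : (β + 1) * b = β * b + b := by ring
        omega
      · right
        have h6 : (h k w + 2) * b ≤ β * b :=
          Int.mul_le_mul_of_nonneg_right (by omega) (by omega)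
        omega
    rw [ceN, ceN, h4, decide_eq_false h2, decide_eq_false h3]
  have hkeep : ∀ k, (k = k1 ∨ k ∈ I) → ∀ (β : ℤ) (u w : ℕ), u ≤ w → w ≤ N →
      (∀ t, u ≤ t → t < w → 2 ≤ |h k t - β|) → bN (cfg w) k b β = bN (cfg u) k b β := by
    intro k hk β u w huw
    induction w, huw using Nat.le_induction with
    | base => intro _ _; rfl
    | succ w huw ih =>
      intro hwN ht
      rw [hseg k hk β w (by omega) (ht w huw (by omega))]
      exact ih (by omega) fun t h1 h2 => ht t h1 (by omega)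
  have hstep : ∀ k w, w < N → |h k (w + 1) - h k w| ≤ 1 := by
    intro k w hw
    by_cases hk : k = k1 ∨ k ∈ I
    · rw [hh1 k hk, hh1 k hk]
      exact CplN_quo hbz (hmove w hw k)
    · rw [hh2 k hk, hh2 k hk]
      simp
  have hz : ∀ k, h k 0 = 0 := by
    intro k
    by_cases hk : k = k1 ∨ k ∈ I
    · rw [hh1 k hk, hc0]
      simp
    · exact hh2 k hk 0
  refine ⟨h, fun w => (cfg w).1, ⟨fun w k e => bN (cfg w) k b (sh (h k w) e), RR,
    fun w k e => bN (cfg (w + 1)) k b (sh (h k w) e)⟩, ⟨hz, fun k w hw => hstep k w (by omega),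
      fun k w h1 h2 => hh2 k (not_or.2 ⟨h2, h1⟩) w, ?_⟩, ?_, ?_, ?_⟩
  · show (cfg 0).1 = M.start
    rw [hc0]
  · intro k w
    induction w with
    | zero =>
      intro _
      rw [hz]
      simp
    | succ w ih =>
      intro hw
      have h1 := ih (by omega)
      have h2 := hstep k w (by omega)
      rw [abs_le] at h1 h2 ⊢
      push_cast
      constructor <;> omega
  · show (cfg N).1 = _
    rw [hcw, List.take_of_length_le hRl.le]
  · intro w hw
    obtain ⟨hW1, hW2⟩ := hW w hw
    rw [← hcs] at hW1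
    refine ⟨fun k e => CplN_len _ _ _ _, hRRl w hw, fun k e => CplN_len _ _ _ _, ?_, ?_, ?_, ?_,
      hW1, ?_, ?_, ?_⟩
    · intro k
      have h5 := hW2 k
      rw [← hcs, ← CplN_win, ← CplN_win] at h5
      exact h5
    · intro k hk
      refine CplN_fl _ _ _ _ ?_
      intro o ho
      have h5 := (hpos k hk w).1
      rw [CplN_sh0]
      have ho' : (o : ℤ) < b := by exact_mod_cast ho
      have e1 : (h k w - 1) * b = h k w * b - b := by ring
      rw [e1]
      omega
    · intro k hk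
      refine CplN_fl _ _ _ _ ?_
      intro o ho
      have h5 := (hpos k hk w).2
      rw [CplN_sh2]
      have ho' : (0 : ℤ) ≤ o := Int.natCast_nonneg o
      omega
    · intro hw0 k
      subst hw0
      change ((bN (cfg 0) k b (sh (h k 0) 1))[0]?).map Prod.snd = some true
      rw [hz, CplN_sh1, hc0, bN, List.getElem?_map]
      have h5 : (List.range b)[0]? = some 0 := by
        rw [List.getElem?_range (by omega)]
      rw [h5]
      change some (decide ((0 : ℤ) = 0 * (b : ℤ) + ((0 : ℕ) : ℤ))) = some true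
      simp
    · intro k e u e' _ hu
      exact absurd hu (Finset.notMem_empty u)
    · intro k e u e' hS _
      change bN (cfg w) k b (sh (h k w) e) = bN (cfg (u + 1)) k b (sh (h k u) e')
      unfold Src at hS
      by_cases hk : k = k1
      · rw [if_pos hk] at hS
        obtain ⟨⟨h1, -, h3⟩, h4⟩ := hS
        rw [h4]
        exact hkeep k (Or.inl hk) _ (u + 1) w (by omega) hw.le
          fun t h5 h6 => h3 t (by omega) h6
      · rw [if_neg hk] at hS
        by_cases hkI : k ∈ I
        · rw [if_pos hkI] at hS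
          obtain ⟨h1, -, h3⟩ := hS
          rw [h3, h1]
        · rw [if_neg hkI] at hS
          obtain ⟨h1, h2⟩ := hS
          have h3 : ¬ (k = k1 ∨ k ∈ I) := not_or.2 ⟨hk, hkI⟩
          rw [hh2 k h3, hh2 k h3, h1, h2]
    · intro k e hI
      change (bN (cfg w) k b (sh (h k w) e)).map Prod.fst = _
      unfold Ini at hI
      by_cases hk : k = k1
      · rw [if_pos hk] at hI
        rw [hkeep k (Or.inl hk) _ 0 w (Nat.zero_le _) hw.le fun t _ h6 => hI t h6, hc0, bN,
          List.map_map]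
        rfl
      · rw [if_neg hk] at hI
        by_cases hkI : k ∈ I
        · have h1 : (cfg w).2.1 k = τ k := by
            rw [hcw]
            exact hRo M I hro P _ _ (hTw0 w) k hkI
          rw [bN, List.map_map]
          refine List.map_congr_left fun o _ => ?_
          change (cfg w).2.1 k _ = _
          rw [h1]
        · rw [if_neg hkI] at hI
          subst hI
          rw [hc0, bN, List.map_map]
          rfl

end MPdee884H4
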