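import Pool.Agent.Lib.MP_dee884_lc.H4.Spec3

/-!
# MP_dee884_lc, H4: tape compression
-/

namespace MPdee884H4

open MPdee884H1 MPdee884H2 MPdee884H3 Pool.Agent.Lin

section

variable {K : Type} {Γ : K → Type}

/-- alphabets of the new machine -/
def Cps_G (K : Type) (Γ : K → Type) (r : ℕ) : Option K → Type
  | none => Unit
  | some k => Fin r → Option (Γ k)

/-- a cell of a block -/
def Cps_dec {G : Type} {r : ℕ} (a : Option (Fin r → Option G)) (o : Fin r) : Option G :=
  match a with
  | none => none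
  | some f => f o

/-- the symbols scanned by the old machine -/
def Cps_sc {r : ℕ} (v : (k : Option K) → Option (Cps_G K Γ r k)) (o : K → Fin r) :
    (k : K) → Option (Γ k) :=
  fun k => Cps_dec (G := Γ k) (r := r) (v (some k)) (o k)

/-- the move between blocks -/
def Cps_mv {r : ℕ} (o : Fin r) (d : Dir) : Dir :=
  if ((o : ℕ) : ℤ) + d.toInt < 0 then Dir.left
  else if (r : ℤ) ≤ ((o : ℕ) : ℤ) + d.toInt then Dir.right else Dir.stay

/-- the new position in the block -/
def Cps_nw {r : ℕ} (o : Fin r) (d : Dir) : Fin r :=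
  ⟨if ((o : ℕ) : ℤ) + d.toInt < 0 then r - 1
    else if (r : ℤ) ≤ ((o : ℕ) : ℤ) + d.toInt then 0 else (((o : ℕ) : ℤ) + d.toInt).toNat, by
    have := o.2
    split_ifs <;> omega⟩

theorem Cps_mvnw {r : ℕ} (o : Fin r) (d : Dir) :
    (r : ℤ) * (Cps_mv o d).toInt + ((Cps_nw o d : Fin r) : ℕ) = ((o : ℕ) : ℤ) + d.toInt := by
  have h := o.2
  have hd : -1 ≤ d.toInt ∧ d.toInt ≤ 1 := by cases d <;> simp [Dir.toInt]
  have hl : Dir.left.toInt = -1 := rfl
  have hs : Dir.stay.toInt = 0 := rfl
  have hg : Dir.right.toInt = 1 := rfl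
  unfold Cps_mv Cps_nw
  by_cases h1 : ((o : ℕ) : ℤ) + d.toInt < 0
  · rw [if_pos h1]
    simp only [if_pos h1, hl]
    omega
  · by_cases h2 : (r : ℤ) ≤ ((o : ℕ) : ℤ) + d.toInt
    · rw [if_neg h1, if_pos h2]
      simp only [if_neg h1, if_pos h2, hg]
      omega
    · rw [if_neg h1, if_neg h2]
      simp only [if_neg h1, if_neg h2, hs]
      omega

open Classical in
/-- the action of the new machine -/
noncomputable def Cps_act {r : ℕ} (I : Set K) (o : K → Fin r)
    (v : (k : Option K) → Option (Cps_G K Γ r k)) (b : (k : K) → Option (Γ k) × Dir) :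
    (k : Option K) → Option (Cps_G K Γ r k) × Dir
  | none => (v none, Dir.stay)
  | some k => if k ∈ I then (v (some k), (b k).2)
    else (some (Function.update (Cps_dec (G := Γ k) (r := r) (v (some k))) (o k) (b k).1),
      Cps_mv (o k) (b k).2)

open Classical in
/-- the new positions in the blocks -/
noncomputable def Cps_off {r : ℕ} (I : Set K) (o : K → Fin r)
    (b : (k : K) → Option (Γ k) × Dir) : K → Fin r :=
  fun k => if k ∈ I then o k else Cps_nw (o k) (b k).2

/-- the new machine -/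
def Cps_M [Finite K] (M : NM K Γ) (r : ℕ) (I : Set K) (hr : 0 < r) :
    NM (Option K) (Cps_G K Γ r) where
  S := M.S × (K → Fin r)
  fin := by
    have := M.fin
    infer_instance
  start := (M.start, fun _ => ⟨0, hr⟩)
  acc Q := M.acc Q.1
  tr Q v Q' a := ∃ b, M.tr Q.1 (Cps_sc v Q.2) Q'.1 b ∧ Q'.2 = Cps_off I Q.2 b ∧
    a = Cps_act I Q.2 v b

/-- the same configuration -/
structure Cps_Rel [Finite K] (M : NM K Γ) (r : ℕ) (I : Set K) (hr : 0 < r) (cf : NC M)
    (cf' : NC (Cps_M M r I hr)) : Prop where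
  st : cf'.1.1 = cf.1
  po : ∀ k, k ∉ I → cf.2.2 k = (r : ℤ) * cf'.2.2 (some k) + ((cf'.1.2 k : Fin r) : ℕ)
  ta : ∀ k, k ∉ I → ∀ (i : ℤ) (o : Fin r),
    Cps_dec (G := Γ k) (r := r) (cf'.2.1 (some k) i) o = cf.2.1 k ((r : ℤ) * i + (o : ℕ))
  pi : ∀ k, k ∈ I → cf'.2.2 (some k) = cf.2.2 k
  ti : ∀ k, k ∈ I → ∀ (i : ℤ) (o : Fin r),
    Cps_dec (G := Γ k) (r := r) (cf'.2.1 (some k) i) o = cf.2.1 k i

theorem Cps_scan [Finite K] {M : NM K Γ} {r : ℕ} {I : Set K} {hr : 0 < r} {cf : NC M}
    {cf' : NC (Cps_M M r I hr)} (h : Cps_Rel M r I hr cf cf') :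
    Cps_sc (K := K) (Γ := Γ) (r := r) (fun k => cf'.2.1 k (cf'.2.2 k)) cf'.1.2 =
      fun k => cf.2.1 k (cf.2.2 k) := by
  funext k
  unfold Cps_sc
  by_cases hk : k ∈ I
  · rw [h.ti k hk, h.pi k hk]
  · rw [h.ta k hk, h.po k hk]

theorem Cps_euc {r : ℕ} {i j : ℤ} {o p : Fin r}
    (h : (r : ℤ) * i + (o : ℕ) = (r : ℤ) * j + (p : ℕ)) : i = j ∧ o = p := by
  have ho := o.2
  have hp := p.2
  have h1 : i = j := by
    rcases lt_trichotomy i j with hlt | heq | hgt
    · have : (r : ℤ) * (i + 1) ≤ (r : ℤ) * j :=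
        mul_le_mul_of_nonneg_left (by omega) (by omega)
      rw [mul_add] at this
      omega
    · exact heq
    · have : (r : ℤ) * (j + 1) ≤ (r : ℤ) * i :=
        mul_le_mul_of_nonneg_left (by omega) (by omega)
      rw [mul_add] at this
      omega
  subst h1
  refine ⟨rfl, Fin.ext ?_⟩
  omega

theorem Cps_step [Finite K] {M : NM K Γ} {r : ℕ} {I : Set K} {hr : 0 < r} {cf : NC M}
    {cf' : NC (Cps_M M r I hr)} (h : Cps_Rel M r I hr cf cf') (q' : M.S)
    (b : (k : K) → Option (Γ k) × Dir) (hb : ∀ k, k ∈ I → (b k).1 = cf.2.1 k (cf.2.2 k)) :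
    Cps_Rel M r I hr (upd cf q' b)
      (upd cf' ((q', Cps_off I cf'.1.2 b) : M.S × (K → Fin r))
        (Cps_act I cf'.1.2 (fun k => cf'.2.1 k (cf'.2.2 k)) b)) := by
  constructor
  · rfl
  · intro k hk
    have h1 := h.po k hk
    have h2 := Cps_mvnw (cf'.1.2 k) (b k).2
    show cf.2.2 k + (b k).2.toInt = (r : ℤ) * (cf'.2.2 (some k) +
      (Cps_act I cf'.1.2 (fun k => cf'.2.1 k (cf'.2.2 k)) b (some k)).2.toInt) +
      ((Cps_off I cf'.1.2 b k : Fin r) : ℕ)
    simp only [Cps_act, Cps_off, if_neg hk]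
    rw [h1, mul_add]
    linarith
  · intro k hk i o
    have h1 := h.po k hk
    show Cps_dec (G := Γ k) (r := r) (Function.update (cf'.2.1 (some k)) (cf'.2.2 (some k))
      (Cps_act I cf'.1.2 (fun k => cf'.2.1 k (cf'.2.2 k)) b (some k)).1 i) o =
      Function.update (cf.2.1 k) (cf.2.2 k) (b k).1 ((r : ℤ) * i + (o : ℕ))
    simp only [Cps_act, if_neg hk]
    by_cases hi : i = cf'.2.2 (some k)
    · subst hi
      rw [Function.update_self]
      show Function.update (Cps_dec (G := Γ k) (r := r)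
        (cf'.2.1 (some k) (cf'.2.2 (some k)))) (cf'.1.2 k) (b k).1 o = _
      by_cases ho : o = cf'.1.2 k
      · subst ho
        rw [Function.update_self, h1, Function.update_self]
      · rw [Function.update_of_ne ho, h.ta k hk, Function.update_of_ne]
        rw [h1]
        intro he
        exact ho (Cps_euc he).2
    · rw [Function.update_of_ne hi, h.ta k hk, Function.update_of_ne]
      rw [h1]
      intro he
      exact hi (Cps_euc he).1
  · intro k hk
    show cf'.2.2 (some k) +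
      (Cps_act I cf'.1.2 (fun k => cf'.2.1 k (cf'.2.2 k)) b (some k)).2.toInt =
      cf.2.2 k + (b k).2.toInt
    simp only [Cps_act, if_pos hk]
    rw [h.pi k hk]
  · intro k hk i o
    show Cps_dec (G := Γ k) (r := r) (Function.update (cf'.2.1 (some k)) (cf'.2.2 (some k))
      (Cps_act I cf'.1.2 (fun k => cf'.2.1 k (cf'.2.2 k)) b (some k)).1 i) o =
      Function.update (cf.2.1 k) (cf.2.2 k) (b k).1 i
    simp only [Cps_act, if_pos hk]
    rw [hb k hk, Function.update_eq_self, Function.update_eq_self, h.ti k hk]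

theorem Cps_fwd [Finite K] {M : NM K Γ} {r : ℕ} {I : Set K} {hr : 0 < r}
    (hro : ∀ q v q' a, M.tr q v q' a → ∀ k ∈ I, (a k).1 = v k) (T B : ℤ)
    (hTB : T ≤ r * B) : ∀ (n : ℕ) (cf : NC M), M.Acc (fun _ => True) n cf →
    ∀ cf' : NC (Cps_M M r I hr), Cps_Rel M r I hr cf cf' → (∀ k, |cf.2.2 k| + n ≤ T) →
    (Cps_M M r I hr).Acc (fun cf => ∀ k : Option K, k ∉ (some '' I : Set (Option K)) →
      k ≠ none → |cf.2.2 k| ≤ B) n cf' := by
  have hP : ∀ (cf : NC M) (cf' : NC (Cps_M M r I hr)), Cps_Rel M r I hr cf cf' →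
      (∀ k, |cf.2.2 k| ≤ T) → ∀ k : Option K, k ∉ (some '' I : Set (Option K)) →
      k ≠ none → |cf'.2.2 k| ≤ B := by
    intro cf cf' h hT k hk hk1
    rcases k with _ | k
    · exact absurd rfl hk1
    · have hkI : k ∉ I := fun hh => hk ⟨k, hh, rfl⟩
      have h1 := h.po k hkI
      have h2 := abs_le.1 (hT k)
      have h3 := (cf'.1.2 k : Fin r).2
      have hr' : (0 : ℤ) < r := by exact_mod_cast hr
      rw [abs_le]
      constructor
      · by_contra hcon
        have h4 : cf'.2.2 (some k) ≤ -B - 1 := by omega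
        have h5 : (r : ℤ) * cf'.2.2 (some k) ≤ (r : ℤ) * (-B - 1) :=
          mul_le_mul_of_nonneg_left h4 hr'.le
        have h6 : (r : ℤ) * (-B - 1) = - ((r : ℤ) * B) - r := by ring
        omega
      · by_contra hcon
        have h4 : B + 1 ≤ cf'.2.2 (some k) := by omega
        have h5 : (r : ℤ) * (B + 1) ≤ (r : ℤ) * cf'.2.2 (some k) :=
          mul_le_mul_of_nonneg_left h4 hr'.le
        have h6 : (r : ℤ) * (B + 1) = (r : ℤ) * B + r := by ring
        omega
  intro n cf hA
  induction hA with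
  | done c _ hacc =>
    intro cf' h hT
    refine NM.Acc.done _ (hP c cf' h ?_) ?_
    · intro k
      have := hT k
      simpa using this
    · show M.acc cf'.1.1
      rw [h.st]
      exact hacc
  | step n c q' b _ htr _ ih =>
    intro cf' h hT
    have hb := hro _ _ _ _ htr
    have h1 := Cps_step h q' b hb
    refine NM.Acc.step n cf' ((q', Cps_off I cf'.1.2 b) : M.S × (K → Fin r))
      (Cps_act I cf'.1.2 (fun k => cf'.2.1 k (cf'.2.2 k)) b) (hP c cf' h ?_) ?_ (ih _ h1 ?_)
    · intro k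
      have := hT k
      push_cast at this
      have h0 : (0 : ℤ) ≤ n := by positivity
      omega
    · refine ⟨b, ?_, rfl, rfl⟩
      rw [Cps_scan h]
      show M.tr cf'.1.1 _ _ _
      rw [h.st]
      exact htr
    · intro k
      have h2 := hT k
      push_cast at h2
      show |c.2.2 k + (b k).2.toInt| + (n : ℤ) ≤ T
      have h3 : |c.2.2 k + (b k).2.toInt| ≤ |c.2.2 k| + 1 := by
        refine (abs_add_le _ _).trans ?_
        have : |(b k).2.toInt| ≤ 1 := by
          cases (b k).2 <;> simp [Dir.toInt]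
        omega
      omega

theorem Cps_bwd [Finite K] {M : NM K Γ} {r : ℕ} {I : Set K} {hr : 0 < r}
    (hro : ∀ q v q' a, M.tr q v q' a → ∀ k ∈ I, (a k).1 = v k) :
    ∀ (n : ℕ) (cf' : NC (Cps_M M r I hr)), (Cps_M M r I hr).Acc (fun _ => True) n cf' →
    ∀ cf : NC M, Cps_Rel M r I hr cf cf' → M.Acc (fun _ => True) n cf := by
  intro n cf' hA
  induction hA with
  | done c _ hacc =>
    intro cf h
    refine NM.Acc.done _ trivial ?_
    rw [← h.st]
    exact hacc
  | step n c Q' a _ htr _ ih =>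
    intro cf h
    obtain ⟨b, h1, h2, h3⟩ := htr
    have hQ : Q' = ((Q'.1, Cps_off I c.1.2 b) : M.S × (K → Fin r)) := by
      rw [← h2]
      rfl
    rw [Cps_scan h, h.st] at h1
    have hb := hro _ _ _ _ h1
    refine NM.Acc.step n cf Q'.1 b trivial h1 (ih _ ?_)
    have h4 := Cps_step h Q'.1 b hb
    rw [hQ, h3]
    exact h4

/-- the letter map of the new machine -/
def Cps_emb {A : Type} (r : ℕ) (emb : (k : K) → A → Γ k) :
    (k : Option K) → A → Cps_G K Γ r k
  | none => fun _ => ()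
  | some k => fun a => (fun _ => some (emb k a) : Fin r → Option (Γ k))

theorem Cps_init [Finite K] {A : Type} (M : NM K Γ) (r : ℕ) (I : Set K) (hr : 0 < r)
    (emb : (k : K) → A → Γ k) (x : List A) :
    Cps_Rel M r I hr (M.start, ini I emb x, fun _ => 0)
      ((Cps_M M r I hr).start, ini (some '' I : Set (Option K)) (Cps_emb r emb) x,
        fun _ => 0) := by
  constructor
  · rfl
  · intro k hk
    show (0 : ℤ) = (r : ℤ) * 0 + ((0 : ℕ) : ℤ)
    simp
  · intro k hk i o
    have hk' : some k ∉ (some '' I : Set (Option K)) := by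
      rintro ⟨j, hj, he⟩
      rw [Option.some.injEq] at he
      exact hk (he ▸ hj)
    show Cps_dec (G := Γ k) (r := r) (ini (some '' I : Set (Option K)) (Cps_emb r emb) x
      (some k) i) o = ini I emb x k ((r : ℤ) * i + (o : ℕ))
    unfold ini
    rw [if_neg hk', if_neg hk]
    rfl
  · intro k hk
    rfl
  · intro k hk i o
    have hk' : some k ∈ (some '' I : Set (Option K)) := ⟨k, hk, rfl⟩
    show Cps_dec (G := Γ k) (r := r) (ini (some '' I : Set (Option K)) (Cps_emb r emb) x
      (some k) i) o = ini I emb x k i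
    unfold ini
    rw [if_pos hk', if_pos hk]
    unfold tapeOf
    by_cases hi : 0 ≤ i
    · simp only [if_pos hi, List.getElem?_map]
      cases x[i.toNat]? <;> rfl
    · simp only [if_neg hi]
      rfl

end

theorem tCps : S_Cps := by
  intro A L D hD hL
  obtain ⟨hA, K, hK, Γ, hΓ, I, emb, M, c, hro, hacc, hsnd⟩ := hL
  have hr : 0 < c * D + 1 := Nat.succ_pos _
  refine ⟨hA, Option K, inferInstance, Cps_G K Γ (c * D + 1), ?_, (some '' I : Set (Option K)),
    none, Cps_emb (c * D + 1) emb, Cps_M M (c * D + 1) I hr, c, ?_, ?_, ?_, ?_⟩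
  · intro k
    rcases k with _ | k
    · show Finite Unit
      infer_instance
    · show Finite (Fin (c * D + 1) → Option (Γ k))
      have := hΓ k
      infer_instance
  · rintro ⟨j, _, he⟩
    exact Option.some_ne_none _ he
  · rintro q v q' a ⟨b, _, _, h3⟩ k ⟨j, hj, rfl⟩
    rw [h3]
    simp only [Cps_act, if_pos hj]
  · intro x hx
    obtain ⟨n, hn, h⟩ := hacc x hx
    refine ⟨n, hn, ?_⟩
    refine Cps_fwd hro (c * (x.length + 1) : ℕ) ((x.length / D + 2 : ℕ) : ℤ) ?_ n _ h _
      (Cps_init M _ I hr emb x) ?_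
    · have h1 : x.length + 1 ≤ D * (x.length / D + 1) := by
        have := Nat.lt_mul_div_succ x.length (show 0 < D by omega)
        omega
      have h2 : c * (x.length + 1) ≤ (c * D + 1) * (x.length / D + 2) := by
        calc c * (x.length + 1) ≤ c * (D * (x.length / D + 1)) := Nat.mul_le_mul_left _ h1
          _ = c * D * (x.length / D + 1) := by ring
          _ ≤ (c * D + 1) * (x.length / D + 2) := Nat.mul_le_mul (by omega) (by omega)
      exact_mod_cast h2
    · intro k
      show |(0 : ℤ)| + (n : ℤ) ≤ ((c * (x.length + 1) : ℕ) : ℤ)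
      rw [abs_zero, zero_add]
      exact_mod_cast hn
  · intro n x h
    exact hsnd n x (Cps_bwd hro n _ h _ (Cps_init M _ I hr emb x))

end MPdee884H4
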