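import Pool.Agent.Lib.MP_dee884_lc.H4.StmF

/-!
# MP_dee884_lc, H4: auxiliary form of the class `AlmostOne`
-/

namespace MPdee884H4

open MPdee884H1 MPdee884H2 Pool.Agent.Lin

/-- `L` is accepted in linear time by a nondeterministic machine with finitely many tapes and heads
(one head on each tape): the tapes in `I` contain the input and are read only (two-way input heads),
`k1` is a work tape without restriction, on the other tapes only the cells up to the distance
`s(|x|) = o(|x|)` from the start are used. Each word `x` of `L` is accepted by such a computation of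
at most `c (|x| + 1)` steps, and no other word is accepted by any computation. -/
def AlmostOneTape {A : Type} (L : Set (List A)) : Prop :=
  ∃ (_ : Finite A) (K : Type) (_ : Finite K) (Γ : K → Type) (_ : ∀ k, Finite (Γ k)) (I : Set K)
    (k1 : K) (emb : (k : K) → A → Γ k) (M : NM K Γ) (c : ℕ) (s : ℕ → ℕ),
    k1 ∉ I ∧ (∀ q v q' a, M.tr q v q' a → ∀ k ∈ I, (a k).1 = v k) ∧
    (∀ D : ℕ, ∃ n0 : ℕ, ∀ n, n0 ≤ n → D * s n ≤ n) ∧
    (∀ x ∈ L, ∃ n ≤ c * (x.length + 1), M.Acc
      (fun cf => ∀ k, k ∉ I → k ≠ k1 → |cf.2.2 k| ≤ (s x.length : ℤ)) n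
      (M.start, ini I emb x, fun _ => 0)) ∧
    ∀ n x, M.Acc (fun _ => True) n (M.start, ini I emb x, fun _ => 0) → x ∈ L

end MPdee884H4
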