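import Pool.Agent.Lib.MP_dee884_lc.H3.Dat
import Pool.Agent.Lib.MP_dee884_lc.H4.Stm

/-!
# MP_dee884_lc, H4: definitions

Computations of nondeterministic machines cut into time segments and tape blocks.
-/

namespace MPdee884H4

open MPdee884H1 MPdee884H2 MPdee884H3 Pool.Agent.Lin

section

variable {K : Type} {Γ : K → Type}

/-! ### computations -/

/-- the scanned symbols -/
def scN {M : NM K Γ} (c : NC M) : (k : K) → Option (Γ k) := fun k => c.2.1 k (c.2.2 k)

/-- the machine with idle steps -/
def idle (M : NM K Γ) : NM K Γ :=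
  ⟨M.S, M.fin, M.start, M.acc, fun q v q' a =>
    M.tr q v q' a ∨ (q' = q ∧ a = fun k => (v k, Dir.stay))⟩

/-- records of one step: the state, the scanned symbols, the new state, the action -/
abbrev RN (M : NM K Γ) : Type :=
  (M.S × ((k : K) → Option (Γ k))) × (M.S × ((k : K) → Option (Γ k) × Dir))

/-- the operation on the tape `k` -/
def opN {M : NM K Γ} (k : K) (r : RN M) : Op (Γ k) := (r.1.2 k, (r.2.2 k).1, (r.2.2 k).2)

open Classical in
/-- the automaton which checks the states and the transitions of a record -/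
noncomputable def chN (M : NM K Γ) (s : Option M.S) (r : RN M) : Option M.S :=
  if s = some r.1.1 ∧ M.tr r.1.1 r.1.2 r.2.1 r.2.2 then some r.2.1 else none

/-- the configuration after the steps with the records `R` (no condition is checked) -/
def exe {M : NM K Γ} : NC M → List (RN M) → NC M
  | c, [] => c
  | c, r :: R => exe (upd c r.2.1 r.2.2) R

/-- `TrN M P c R`: `R` is the list of the records of a computation from the configuration `c`, all
its configurations (the first and the last one included) satisfy `P` -/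
inductive TrN (M : NM K Γ) (P : NC M → Prop) : NC M → List (RN M) → Prop
  | nil (c : NC M) : P c → TrN M P c []
  | cons (c : NC M) (q' : M.S) (a : (k : K) → Option (Γ k) × Dir) (R : List (RN M)) : P c →
      M.tr c.1 (scN c) q' a → TrN M P (upd c q' a) R →
      TrN M P c (((c.1, scN c), (q', a)) :: R)

/-! ### blocks -/

/-- the cell `i` of the tape `k`: the symbol, and whether the head is there -/
def ceN {M : NM K Γ} (c : NC M) (k : K) (i : ℤ) : Option (Γ k) × Bool :=
  (c.2.1 k i, decide (c.2.2 k = i))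

/-- the block `β` of the tape `k`, blocks of length `b` -/
def bN {M : NM K Γ} (c : NC M) (k : K) (b : ℕ) (β : ℤ) : List (Option (Γ k) × Bool) :=
  (List.range b).map (fun o : ℕ => ceN c k (β * b + o))

/-- the window: the blocks `β - 1`, `β`, `β + 1` of the tape `k` -/
def wN {M : NM K Γ} (c : NC M) (k : K) (b : ℕ) (β : ℤ) : List (Option (Γ k) × Bool) :=
  bN c k b (β - 1) ++ bN c k b β ++ bN c k b (β + 1)

/-- all heads are in their windows, the middle block of the window of the tape `k` is `h k` -/
def InW (M : NM K Γ) (b : ℕ) (h : K → ℤ) (c : NC M) : Prop :=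
  ∀ k, (h k - 1) * b ≤ c.2.2 k ∧ c.2.2 k < (h k + 2) * b

/-! ### the shape of a computation; `h k w` is the middle block of the window of the tape `k` in the
segment `w`, `q w` the state at its beginning; `I` input tapes, `k1` the main tape -/

/-- the conditions on the shape -/
structure Shp (M : NM K Γ) (I : Set K) (k1 : K) (N : ℕ) (h : K → ℕ → ℤ) (q : ℕ → M.S) : Prop where
  h0 : ∀ k, h k 0 = 0
  hs : ∀ k w, w + 1 < N → |h k (w + 1) - h k w| ≤ 1
  ha : ∀ k w, k ∉ I → k ≠ k1 → h k w = 0
  q0 : q 0 = M.start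

open Classical in
/-- the block `e` of the window of the tape `k` at the beginning of the segment `w` is the block
`e'` of its window at the end of the segment `u` -/
def Src (I : Set K) (k1 : K) (h : K → ℕ → ℤ) (k : K) (e : Fin 3) (u w : ℕ) (e' : Fin 3) : Prop :=
  if k = k1 then IsPr (h k) (sh (h k w) e) u w ∧ sh (h k u) e' = sh (h k w) e
  else if k ∈ I then u + 1 = w ∧ e = 1 ∧ sh (h k u) e' = sh (h k w) e
  else u + 1 = w ∧ e' = e

open Classical in
/-- the symbols in the block `e` of the window of the tape `k` at the beginning of the segment `w`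
are the symbols at the time `0` -/
def Ini (I : Set K) (k1 : K) (h : K → ℕ → ℤ) (k : K) (e : Fin 3) (w : ℕ) : Prop :=
  if k = k1 then NoPr (h k) (sh (h k w) e) w else if k ∈ I then True else w = 0

/-! ### local data -/

/-- the data of the segments `w`: the three blocks of each window at the beginning, the record, the
three blocks at the end -/
structure DatN (M : NM K Γ) where
  sc : ℕ → (k : K) → Fin 3 → List (Option (Γ k) × Bool)
  rc : ℕ → List (RN M)
  ec : ℕ → (k : K) → Fin 3 → List (Option (Γ k) × Bool)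

/-- the conditions on the data of one segment `w` -/
structure LocN (M : NM K Γ) (I : Set K) (k1 : K) (τ : (k : K) → ℤ → Option (Γ k)) (b : ℕ)
    (h : K → ℕ → ℤ) (q : ℕ → M.S) (J : Finset ℕ)
    (Y : ℕ → (k : K) → Fin 3 → List (Option (Γ k) × Bool)) (d : DatN M) (w : ℕ) : Prop where
  lsc : ∀ k e, (d.sc w k e).length = b
  lrc : (d.rc w).length = b
  lec : ∀ k e, (d.ec w k e).length = b
  sim : ∀ k, SimW (d.sc w k 0 ++ d.sc w k 1 ++ d.sc w k 2) ((d.rc w).map (opN k))
    (d.ec w k 0 ++ d.ec w k 1 ++ d.ec w k 2)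
  fl0 : ∀ k, (k = k1 ∨ k ∈ I) → ∀ a ∈ d.sc w k 0, a.2 = false
  fl2 : ∀ k, (k = k1 ∨ k ∈ I) → ∀ a ∈ d.sc w k 2, a.2 = false
  fl1 : w = 0 → ∀ k, ((d.sc w k 1)[0]?).map Prod.snd = some true
  chn : (d.rc w).foldl (chN M) (some (q w)) = some (q (w + 1))
  prY : ∀ k e u e', Src I k1 h k e u w e' → u ∈ J → d.sc w k e = Y u k e'
  prE : ∀ k e u e', Src I k1 h k e u w e' → u ∉ J → d.sc w k e = d.ec u k e'
  prI : ∀ k e, Ini I k1 h k e w → (d.sc w k e).map Prod.fst =
    (List.range b).map (fun o : ℕ => τ k (sh (h k w) e * b + o))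

/-- the conditions on the data of the segments of the set `V` -/
structure GoodN (M : NM K Γ) (I : Set K) (k1 : K) (τ : (k : K) → ℤ → Option (Γ k)) (b : ℕ)
    (h : K → ℕ → ℤ) (q : ℕ → M.S) (J : Finset ℕ)
    (Y : ℕ → (k : K) → Fin 3 → List (Option (Γ k) × Bool)) (d : DatN M) (V : Finset ℕ) :
    Prop where
  loc : ∀ w ∈ V, LocN M I k1 τ b h q J Y d w
  top : ∀ w ∈ V, w ∈ J → ∀ k e, d.ec w k e = Y w k e

/-- all segments: the data `D` of all segments `w < N` fit together -/
def AllN (M : NM K Γ) (I : Set K) (k1 : K) (τ : (k : K) → ℤ → Option (Γ k)) (b N : ℕ)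
    (h : K → ℕ → ℤ) (q : ℕ → M.S) (D : DatN M) : Prop :=
  ∀ w < N, LocN M I k1 τ b h q ∅ (fun _ _ _ => []) D w

/-- the words `Y1` on `J`, `Y2` elsewhere -/
def Yc (J : Finset ℕ) (Y1 Y2 : ℕ → (k : K) → Fin 3 → List (Option (Γ k) × Bool)) :
    ℕ → (k : K) → Fin 3 → List (Option (Γ k) × Bool) := fun u => if u ∈ J then Y1 u else Y2 u

/-- the segments of the class `(i, j)` -/
def cls (N : ℕ) (cl gr : ℕ → ℕ) (i j : ℕ) : Finset ℕ :=
  (Finset.range N).filter (fun w => cl w = i ∧ gr w = j)

end

/-! ### edges -/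

/-- the edges between segments; `g` the blocks of the head of the main tape -/
def EdN (g : ℕ → ℤ) (u w : ℕ) : Prop := u + 1 = w ∨ ∃ e : Fin 3, IsPr g (sh (g w) e) u w

/-- the residue of the block modulo `A`, moved by one: `0, 1, 2` for the blocks next to the boundary
`r` -/
def rsd (A : ℕ) (r : ℤ) (g : ℕ → ℤ) (w : ℕ) : ℤ := (g w + 1 - r) % (A : ℤ)

/-! ### letters and slots -/

section

variable {K : Type} {Γ : K → Type}

/-- the letters: a record and a flag -/
abbrev LN (M : NM K Γ) : Type := RN M × Bool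

/-- the letter as a record -/
def asRN {M : NM K Γ} (a : LN M) : RN M := a.1

/-- the letter as a cell of the tape `k` -/
def asCN {M : NM K Γ} (k : K) (a : LN M) : Option (Γ k) × Bool := (a.1.1.2 k, a.2)

/-- the letter for a record -/
def mkRN {M : NM K Γ} (r : RN M) : LN M := (r, false)

open Classical in
/-- the letter for a cell -/
noncomputable def mkCN (M : NM K Γ) (k : K) (c : Option (Γ k) × Bool) : LN M :=
  (((M.start, Function.update (fun _ => none) k c.1), (M.start, fun _ => (none, Dir.stay))), c.2)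

/-- first words `y`: the slots `0, .., P0 - 1` -/
def ofY1 (M : NM K Γ) (p : Prm K) (l : ℕ) (dec : List Bool → LN M) (J : Finset ℕ)
    (u : List Bool) (b : ℕ) : ℕ → (k : K) → Fin 3 → List (Option (Γ k) × Bool) :=
  fun t k e => (slot l dec u b (p.yS J t k e)).map (asCN k)

/-- second words `y`: the slots `P0, .., 2 P0 - 1` -/
def ofY2 (M : NM K Γ) (p : Prm K) (l : ℕ) (dec : List Bool → LN M) (J : Finset ℕ)
    (u : List Bool) (b : ℕ) : ℕ → (k : K) → Fin 3 → List (Option (Γ k) × Bool) :=
  fun t k e => (slot l dec u b (p.P0 + p.yS J t k e)).map (asCN k)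

/-- words `z`: the slots `2 P0, .., 3 P0 - 1` -/
def ofZN (M : NM K Γ) (p : Prm K) (l : ℕ) (dec : List Bool → LN M) (A : Finset ℕ)
    (u : List Bool) (b : ℕ) : DatN M :=
  ⟨fun w k e => (slot l dec u b (p.P0 + p.zS A w k e)).map (asCN k),
    fun w => (slot l dec u b (p.P0 + p.zR A w)).map asRN,
    fun w k e => (slot l dec u b (p.P0 + p.zE A w k e)).map (asCN k)⟩

end

end MPdee884H4
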