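import Pool.Agent.Lib.MP_dee884_lc.H4.Spec

/-!
# MP_dee884_lc, H4: sources are edges
-/

namespace MPdee884H4

open MPdee884H1 MPdee884H2 MPdee884H3 Pool.Agent.Lin

theorem tEd : S_Ed := by
  intro K I k1 h k e u w e' hs
  unfold Src at hs
  by_cases hk : k = k1
  · rw [if_pos hk] at hs
    subst hk
    exact ⟨Or.inr ⟨e, hs.1⟩, hs.1.1⟩
  · rw [if_neg hk] at hs
    by_cases hI : k ∈ I
    · rw [if_pos hI] at hs
      exact ⟨Or.inl hs.1, by have := hs.1; omega⟩
    · rw [if_neg hI] at hs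
      exact ⟨Or.inl hs.1, by have := hs.1; omega⟩

end MPdee884H4
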