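import Pool.Agent.Lib.MP_dee884_lc.H4.Spec

/-!
# MP_dee884_lc, H4: data written on tracks, the words `y`
-/

namespace MPdee884H4

open MPdee884H1 MPdee884H2 MPdee884H3 Pool.Agent.Lin

private theorem ExY_cell {K : Type} {Γ : K → Type} (M : NM K Γ) (k : K)
    (L : List (Option (Γ k) × Bool)) : L = (L.map (mkCN M k)).map (asCN k) := by
  rw [List.map_map]
  conv_lhs => rw [← List.map_id L]
  refine List.map_congr_left ?_
  intro a _
  show a = asCN k (mkCN M k a)
  unfold asCN mkCN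
  simp only [Function.update_self]

private theorem ExY_gen {K : Type} {Γ : K → Type} (M : NM K Γ) (hC : S_Code) (p : Prm K) (l : ℕ)
    (dec : List Bool → LN M) (enc : LN M → List Bool) (hl : 1 ≤ l)
    (henc : ∀ a, (enc a).length = l) (hdec : ∀ a, dec (enc a) = a) (J : Finset ℕ)
    (hJc : J.card * (3 * p.κ) ≤ p.P0) (b n s : ℕ) (hs : s ≤ 2 * p.P0)
    (hn : 3 * p.P0 * b * l ≤ n)
    (Y : ℕ → (k : K) → Fin 3 → List (Option (Γ k) × Bool))
    (hY : ∀ u ∈ J, ∀ k e, (Y u k e).length = b) :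
    ∃ u : List Bool, u.length = n ∧ ∀ t ∈ J, ∀ k e,
      Y t k e = (slot l dec u b (s + p.yS J t k e)).map (asCN k) := by
  obtain ⟨u, h1, h2⟩ := hC (I := {u // u ∈ J} × (K × Fin 3)) l dec enc hl henc hdec b (3 * p.P0)
    n hn (fun i => s + p.yI J i) (fun i j hij => p.yI_inj J (Nat.add_left_cancel hij)) (fun i => by
      have := p.yS_lt hJc i.1.2 i.2.1 i.2.2
      show s + p.yI J i < 3 * p.P0
      unfold Prm.yI
      omega) (fun i => (Y i.1.1 i.2.1 i.2.2).map (mkCN M i.2.1)) (fun i => by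
      rw [List.length_map]
      exact hY i.1.1 i.1.2 i.2.1 i.2.2)
  refine ⟨u, h1, ?_⟩
  intro t ht k e
  have h4 : slot l dec u b (s + p.yS J t k e) = (Y t k e).map (mkCN M k) :=
    h2 (⟨t, ht⟩, (k, e))
  rw [h4]
  exact ExY_cell M k _

theorem tExY : S_Code → S_ExY := by
  intro hC K Γ M p l dec enc hl henc hdec J hJc b n hn Y hY
  constructor
  · obtain ⟨u, h1, h2⟩ := ExY_gen M hC p l dec enc hl henc hdec J hJc b n 0 (Nat.zero_le _) hn Y hY
    refine ⟨u, h1, ?_⟩
    intro t ht k e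
    have h3 := h2 t ht k e
    rw [Nat.zero_add] at h3
    exact h3
  · obtain ⟨u, h1, h2⟩ := ExY_gen M hC p l dec enc hl henc hdec J hJc b n p.P0 (by omega) hn Y hY
    exact ⟨u, h1, fun t ht k e => h2 t ht k e⟩

end MPdee884H4
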