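import Pool.Agent.Lib.MP_dee884_lc.H4.Spec

/-! Module ExZ (MP_dee884_lc, H4): data written on tracks, the words `z`. -/

namespace MPdee884H4

open MPdee884H1 MPdee884H2 MPdee884H3 Pool.Agent.Lin

theorem ExZ_cell {K : Type} {Γ : K → Type} (M : NM K Γ) (k : K)
    (L : List (Option (Γ k) × Bool)) : L = (L.map (mkCN M k)).map (asCN k) := by
  rw [List.map_map]
  conv_lhs => rw [← List.map_id L]
  refine List.map_congr_left ?_
  intro a _
  simp only [id, Function.comp, asCN, mkCN, Function.update_self]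

theorem ExZ_rec {K : Type} {Γ : K → Type} (M : NM K Γ) (L : List (RN M)) :
    L = (L.map (mkRN (M := M))).map asRN := by
  rw [List.map_map]
  conv_lhs => rw [← List.map_id L]
  refine List.map_congr_left ?_
  intro a _
  rfl

theorem tExZ : S_Code → S_ExZ := by
  intro hC K Γ M p l dec enc hl henc hdec A hAc b n hn d hd
  let W : {w // w ∈ A} × ((K × Fin 3) ⊕ (Unit ⊕ (K × Fin 3))) → List (LN M) := fun i =>
    match i with
    | (w, Sum.inl (k, e)) => (d.sc w.1 k e).map (mkCN M k)
    | (w, Sum.inr (Sum.inl _)) => (d.rc w.1).map mkRN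
    | (w, Sum.inr (Sum.inr (k, e))) => (d.ec w.1 k e).map (mkCN M k)
  have hW : ∀ i, (W i).length = b := by
    rintro ⟨w, ⟨k, e⟩ | ⟨⟨⟩⟩ | ⟨k, e⟩⟩
    · simp only [W, List.length_map]
      exact (hd w.1 w.2).1 k e
    · simp only [W, List.length_map]
      exact (hd w.1 w.2).2.1
    · simp only [W, List.length_map]
      exact (hd w.1 w.2).2.2 k e
  obtain ⟨u, h1, h2⟩ := hC l dec enc hl henc hdec b (3 * p.P0)
    n hn (fun i => p.P0 + p.zI A i) (fun i i' h => p.zI_inj A (Nat.add_left_cancel h))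
    (fun i => by
      have := p.zI_lt hAc i
      show p.P0 + p.zI A i < 3 * p.P0
      omega) W hW
  refine ⟨u, h1, ?_⟩
  intro w hw
  refine ⟨?_, ?_, ?_⟩
  · intro k e
    have h4 : slot l dec u b (p.P0 + p.zS A w k e) = (d.sc w k e).map (mkCN M k) :=
      h2 (⟨w, hw⟩, Sum.inl (k, e))
    unfold ofZN
    simp only
    rw [h4]
    exact ExZ_cell M k _
  · have h4 : slot l dec u b (p.P0 + p.zR A w) = (d.rc w).map mkRN :=
      h2 (⟨w, hw⟩, Sum.inr (Sum.inl ()))
    unfold ofZN
    simp only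
    rw [h4]
    exact ExZ_rec M _
  · intro k e
    have h4 : slot l dec u b (p.P0 + p.zE A w k e) = (d.ec w k e).map (mkCN M k) :=
      h2 (⟨w, hw⟩, Sum.inr (Sum.inr (k, e)))
    unfold ofZN
    simp only
    rw [h4]
    exact ExZ_cell M k _

end MPdee884H4
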