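import Pool.Agent.Lib.MP_dee884_lc.H4.Spec

/-!
# MP_dee884_lc, H4: the data of all segments are good for every class
-/

set_option autoImplicit false

namespace MPdee884H4

open MPdee884H1 MPdee884H2 MPdee884H3 Pool.Agent.Lin

theorem tGluC : S_GluC := by
  intro K Γ M I k1 τ b N h q D hD J V hV
  refine ⟨fun w hw => ?_, fun w _ _ k e => rfl⟩
  have L := hD w (hV w hw)
  exact ⟨L.lsc, L.lrc, L.lec, L.sim, L.fl0, L.fl2, L.fl1, L.chn,
    fun k e u e' hs _ => L.prE k e u e' hs (by simp),
    fun k e u e' hs _ => L.prE k e u e' hs (by simp), L.prI⟩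

end MPdee884H4
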