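import Pool.Agent.Lib.MP_dee884_lc.H4.Spec

/-!
# MP_dee884_lc, H4: the inclusion, main assembly
-/

namespace MPdee884H4

open MPdee884H1 MPdee884H2 MPdee884H3 Pool.Agent.Lin

theorem IncN_card {c l κ P0 KK t : ℕ} (hKK : KK = l * (3 * P0))
    (h : 6 * (c + 1) * (l + 1) * (6 * κ + 1) * t ≤ (c + 1) * (KK + 2)) :
    t * (6 * κ + 1) ≤ P0 := by
  have h1 : (c + 1) * (6 * (l + 1) * (t * (6 * κ + 1))) ≤ (c + 1) * (KK + 2) := by
    calc (c + 1) * (6 * (l + 1) * (t * (6 * κ + 1))) =
        6 * (c + 1) * (l + 1) * (6 * κ + 1) * t := by ring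
      _ ≤ _ := h
  have h2 := Nat.le_of_mul_le_mul_left h1 (Nat.succ_pos c)
  by_contra h3
  have h4 : P0 + 1 ≤ t * (6 * κ + 1) := by omega
  have h5 : 6 * (l + 1) * (P0 + 1) ≤ 6 * (l + 1) * (t * (6 * κ + 1)) :=
    Nat.mul_le_mul_left _ h4
  rw [hKK] at h2
  have h6 : 6 * (l + 1) * (P0 + 1) = 2 * (l * (3 * P0)) + (6 * l + 6 * P0 + 6) := by ring
  omega

theorem IncN_accMono {K : Type} {Γ : K → Type} {M : NM K Γ} {P P' : NC M → Prop}
    (h : ∀ c, P c → P' c) {n : ℕ} {c : NC M} (ha : M.Acc P n c) : M.Acc P' n c := by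
  induction ha with
  | done c h1 h2 => exact NM.Acc.done c (h c h1) h2
  | step n c q' a h1 h2 _ ih => exact NM.Acc.step n c q' a (h c h1) h2 ih

theorem IncN_card3 {t κ P0 : ℕ} (h : t * (6 * κ + 1) ≤ P0) : t * (3 * κ) ≤ P0 :=
  le_trans (Nat.mul_le_mul_left _ (by omega)) h

/-- the main part, for a machine which may wait -/
theorem IncN_core (hSnd : S_SndN) (hCpl : S_CplN) (hGluS : S_GluS) (hGluC : S_GluC)
    (hCgr : S_Cgr) (hCmb : S_Cmb) (hEd : S_Ed) (hExY : S_ExY) (hExZ : S_ExZ) (hRec : S_RecN)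
    (hR : S_RegL) (hMk : S_MkL) {ρ : Type} {B : ρ → Type}
    (E : (i : ρ) → Set (List (B i × Bool))) {m : ℕ} (hm : 2 ≤ m) {A K : Type} {Γ : K → Type}
    [Finite A] [Finite K] [∀ k, Finite (Γ k)] (L : Set (List A)) (I : Set K) (k1 : K)
    (emb : (k : K) → A → Γ k) (M : NM K Γ) (c : ℕ) (hk1 : k1 ∉ I)
    (hro : ∀ q v q' a, M.tr q v q' a → ∀ k ∈ I, (a k).1 = v k)
    (hA : ∀ KK : ℕ, ∃ n0 : ℕ, ∀ x ∈ L, n0 ≤ x.length → ∀ b : ℕ, 1 ≤ b →
      x.length ≤ KK * b + b → ∀ T : ℕ, c * (x.length + 1) ≤ T →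
      ∃ R : List (RN M), R.length = T ∧
        TrN M (fun cf => ∀ k, k ∉ I → k ≠ k1 → |cf.2.2 k| < (b : ℤ))
          (M.start, ini I emb x, fun _ => 0) R ∧
        M.acc (exe (M := M) (M.start, ini I emb x, fun _ => 0) R).1)
    (hB : ∀ (x : List A) (R : List (RN M)),
      TrN M (fun _ => True) (M.start, ini I emb x, fun _ => 0) R →
      M.acc (exe (M := M) (M.start, ini I emb x, fun _ => 0) R).1 → x ∈ L) :
    Cls E m 5 A L := by
  classical
  have hMS := M.fin
  have hfd : Finite Dir := by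
    have hsur : Function.Surjective
        (fun i : Fin 3 => match i with
          | 0 => Dir.left
          | 1 => Dir.stay
          | 2 => Dir.right) := by
      intro d
      cases d
      · exact ⟨0, rfl⟩
      · exact ⟨1, rfl⟩
      · exact ⟨2, rfl⟩
    exact Finite.of_surjective _ hsur
  have hne : Nonempty (LN M) :=
    ⟨(((M.start, fun _ => none), (M.start, fun _ => (none, Dir.stay))), false)⟩
  obtain ⟨l, dec, enc, hl, henc, hdec⟩ := codes (LN M)
  obtain ⟨κ, ⟨f⟩⟩ := Finite.exists_equiv_fin K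
  obtain ⟨N0, hN0⟩ := hCmb (6 * (c + 1) * (l + 1) * (6 * κ + 1))
    (Nat.succ_le_of_lt (by positivity))
  let p : Prm K := ⟨κ, N0 + 1, fun k => (f k).1, fun k => (f k).2,
    fun a b h => f.injective (Fin.ext h)⟩
  have hpκ : p.κ = κ := rfl
  have hpP : p.P0 = N0 + 1 := rfl
  have hP0 : 1 ≤ p.P0 := by omega
  obtain ⟨KK, hKK⟩ : ∃ KK, KK = l * (3 * p.P0) := ⟨_, rfl⟩
  have hKK2 : 3 * p.P0 ≤ KK := by
    rw [hKK]
    exact Nat.le_mul_of_pos_left _ hl
  have hKK1 : 1 ≤ KK := by omega
  obtain ⟨n0, hn0⟩ := hA KK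
  obtain ⟨N, hN⟩ : ∃ N, N = (c + 1) * (KK + 2) := ⟨_, rfl⟩
  have hN2 : KK + 2 ≤ N := by
    rw [hN]
    exact Nat.le_mul_of_pos_left _ (Nat.succ_pos c)
  have hNN : N0 ≤ N := by omega
  have hN1 : 1 ≤ N := by omega
  -- the time
  have htime : ∀ (n b : ℕ), 1 ≤ b → n ≤ KK * b + b → c * (n + 1) ≤ N * b := by
    intro n b hb hx
    have h2 : n + 1 ≤ (KK + 2) * b := by
      have : (KK + 2) * b = KK * b + b + b := by ring
      omega
    calc c * (n + 1) ≤ (c + 1) * ((KK + 2) * b) := Nat.mul_le_mul (Nat.le_succ c) h2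
      _ = N * b := by rw [hN]; ring
  -- guesses
  let Sg : Type := (Fin (N + 1) → M.S) × (K → Fin N → Fin (2 * N + 1))
  let qf : Sg → ℕ → M.S := fun σ t => if h : t < N + 1 then σ.1 ⟨t, h⟩ else M.start
  let hf : Sg → K → ℕ → ℤ := fun σ k t => if h : t < N then ((σ.2 k ⟨t, h⟩).1 : ℤ) - N else 0
  let valid : Sg → Prop := fun σ => Shp M I k1 N (hf σ) (qf σ) ∧ M.acc (qf σ N)
  have hJ : ∀ σ : Sg, ∃ (J : Finset ℕ) (cl gr : ℕ → ℕ) (J2 : ℕ → Finset ℕ), valid σ →
      J.card * (6 * p.κ + 1) ≤ p.P0 ∧ (∀ w, w < N → cl w < N ∧ gr w < N) ∧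
      (∀ i, (J2 i).card * (6 * p.κ + 1) ≤ p.P0) ∧
      (∀ i j, (cls N cl gr i j).card * (6 * p.κ + 1) ≤ p.P0) ∧
      ∀ u w, w < N → EdN (hf σ k1) u w →
        u ∈ J ∨ (cl u = cl w ∧ (gr u = gr w ∨ u ∈ J2 (cl w))) := by
    intro σ
    by_cases hv : valid σ
    · obtain ⟨J, cl, gr, J2, h1, h2, h3, h4, h5⟩ := hN0 N hNN (hf σ k1)
        (fun w hw => hv.1.hs k1 w hw)
      refine ⟨J, cl, gr, J2, fun _ => ⟨?_, h2, ?_, ?_, h5⟩⟩
      · rw [hN] at h1
        exact IncN_card hKK h1
      · intro i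
        have h6 := h3 i
        rw [hN] at h6
        exact IncN_card hKK h6
      · intro i j
        have h6 : 6 * (c + 1) * (l + 1) * (6 * κ + 1) * (cls N cl gr i j).card ≤
            (c + 1) * (KK + 2) := by
          rw [← hN]
          exact h4 i j
        exact IncN_card hKK h6
    · exact ⟨∅, fun _ => 0, fun _ => 0, fun _ => ∅, fun h => absurd h hv⟩
  choose J cl gr J2 hJ using hJ
  have hcls : ∀ (σ : Sg) (i j w : ℕ), w ∈ cls N (cl σ) (gr σ) i j →
      w < N ∧ cl σ w = i ∧ gr σ w = j := by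
    intro σ i j w hw
    unfold cls at hw
    rw [Finset.mem_filter, Finset.mem_range] at hw
    exact hw
  have hsrc : ∀ (σ : Sg) (i j : ℕ), valid σ → ∀ w ∈ cls N (cl σ) (gr σ) i j,
      ∀ k e u e', Src I k1 (hf σ) k e u w e' →
        u < w ∧ (u ∈ J σ ∪ J2 σ i ∨ u ∈ cls N (cl σ) (gr σ) i j) := by
    intro σ i j hv w hw k e u e' hu
    obtain ⟨hwN, hwi, hwj⟩ := hcls σ i j w hw
    obtain ⟨h1, h2⟩ := hEd I k1 (hf σ) k e u w e' hu
    refine ⟨h2, ?_⟩
    rcases (hJ σ hv).2.2.2.2 u w hwN h1 with h3 | ⟨h3, h4 | h4⟩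
    · left
      exact Finset.mem_union_left _ h3
    · right
      unfold cls
      rw [Finset.mem_filter, Finset.mem_range]
      exact ⟨lt_trans h2 hwN, h3.trans hwi, h4.trans hwj⟩
    · left
      rw [hwi] at h4
      exact Finset.mem_union_right _ h4
  -- the conditions
  have g1 : ∀ (σ : Sg) (i j : ℕ), valid σ →
      RgC E m 1 KK (fun q : (((A × Fin m) × Fin m) × Fin m) × Fin m => bit q.1.1.1.2)
        (fun w b => GoodN M I k1 (ini I emb (w.map (fun q => q.1.1.1.1))) b (hf σ) (qf σ)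
          (J σ ∪ J2 σ i)
          (Yc (J σ) (ofY1 M p l dec (J σ) (w.map (fun q => bit q.1.1.2)) b)
            (ofY2 M p l dec (J2 σ i) (w.map (fun q => bit q.1.2)) b))
          (ofZN M p l dec (cls N (cl σ) (gr σ) i j) (w.map (fun q => bit q.2)) b)
          (cls N (cl σ) (gr σ) i j)) := by
    intro σ i j hv
    rw [hKK]
    exact hRec E m M I k1 l _ dec enc emb p _ _ _ _ (hf σ) (qf σ) (J σ) (J2 σ i)
      (cls N (cl σ) (gr σ) i j) hm hl henc hdec hP0 (hsrc σ i j hv) (IncN_card3 (hJ σ hv).1)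
      (IncN_card3 ((hJ σ hv).2.2.1 i)) ((hJ σ hv).2.2.2.1 i j)
  have g2 : RgC E m 3 KK (fun q : (A × Fin m) × Fin m => bit q.1.2) (fun w b => ∃ σ : Sg,
      valid σ ∧ ∀ i : Fin N, ∃ y : List (((A × Fin m) × Fin m) × Fin m), y.map Prod.fst = w ∧
        ∀ j : Fin N, ∃ z : List ((((A × Fin m) × Fin m) × Fin m) × Fin m),
          z.map Prod.fst = y ∧
          GoodN M I k1 (ini I emb (z.map (fun q => q.1.1.1.1))) b (hf σ) (qf σ)
            (J σ ∪ J2 σ i.1)
            (Yc (J σ) (ofY1 M p l dec (J σ) (z.map (fun q => bit q.1.1.2)) b)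
              (ofY2 M p l dec (J2 σ i.1) (z.map (fun q => bit q.1.2)) b))
            (ofZN M p l dec (cls N (cl σ) (gr σ) i.1 j.1) (z.map (fun q => bit q.2)) b)
            (cls N (cl σ) (gr σ) i.1 j.1)) := by
    refine RgC.some hR fun σ => RgC.andc hR fun hv => RgC.all hR fun i => ?_
    refine RgC.ex (mk := fun q : (A × Fin m) × Fin m => bit q.1.2) ?_
    refine RgC.all hR fun j => ?_
    exact RgC.ex (mk := fun q : ((A × Fin m) × Fin m) × Fin m => bit q.1.1.2) (g1 σ i.1 j.1 hv)
  have g3 := RgC.ex (mk := fun q : A × Fin m => bit q.2) g2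
  obtain ⟨V, hV1, hV2⟩ := g3
  obtain ⟨ι, hι, W, hW1, hW2⟩ := hMk KK (fun q : A × Fin m => bit q.2) hKK1
  have hU : Cls E m 5 A {x | ∃ v : List (A × Fin m), v.map Prod.fst = x ∧
      v ∈ V ∩ {w | ∀ i, w ∈ W i}} :=
    Cls.ex _ (cls_inter hV1 (cls_iInter hR W (fun i => Cls.tape _ (hW1 i))))
  have hF := Cls.union _ _ hU (cls_short (E := E) (k := m) hR 5 L (KK * KK + n0))
  have e : {x | ∃ v : List (A × Fin m), v.map Prod.fst = x ∧ v ∈ V ∩ {w | ∀ i, w ∈ W i}} ∪
      {x | x ∈ L ∧ x.length < KK * KK + n0} = L := by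
    ext x
    constructor
    · rintro (⟨v1, hv1, hvV, hvW⟩ | ⟨h1, _⟩)
      · obtain ⟨b, hb⟩ := (hW2 v1).mpr hvW
        obtain ⟨y1, hy1, σ, hσ, hy2⟩ := (hV2 v1 b hb).mp hvV
        have hY1 : ∀ i : ℕ, i < N → ∃ Y2 : ℕ → (k : K) → Fin 3 → List (Option (Γ k) × Bool),
            ∀ j, j < N → ∃ d : DatN M, GoodN M I k1 (ini I emb x) b (hf σ) (qf σ)
              (J σ ∪ J2 σ i)
              (Yc (J σ) (ofY1 M p l dec (J σ) (y1.map (fun q => bit q.2)) b) Y2) d
              (cls N (cl σ) (gr σ) i j) := by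
          intro i hi
          obtain ⟨y, hy3, hy4⟩ := hy2 ⟨i, hi⟩
          refine ⟨ofY2 M p l dec (J2 σ i) (y.map (fun q => bit q.2)) b, ?_⟩
          intro j hj
          obtain ⟨z, hz1, hz2⟩ := hy4 ⟨j, hj⟩
          have e1 : z.map (fun q => q.1.1.1.1) = x := by
            rw [← hv1, ← hy1, ← hy3, ← hz1, List.map_map, List.map_map, List.map_map]
            rfl
          have e2 : z.map (fun q => bit q.1.1.2) = y1.map (fun q => bit q.2) := by
            rw [← hy3, ← hz1, List.map_map, List.map_map]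
            rfl
          have e3 : z.map (fun q => bit q.1.2) = y.map (fun q => bit q.2) := by
            rw [← hz1, List.map_map]
            rfl
          rw [e1, e2, e3] at hz2
          exact ⟨_, hz2⟩
        obtain ⟨D, hD⟩ := hGluS M I k1 (ini I emb x) b N N N (hf σ) (qf σ) (J σ) (J2 σ) (cl σ)
          (gr σ) (ofY1 M p l dec (J σ) (y1.map (fun q => bit q.2)) b) (hJ σ hσ).2.1
          (hJ σ hσ).2.2.2.2 hY1
        obtain ⟨R, hR1, hR2⟩ := hSnd M I k1 (ini I emb x) b N (hf σ) (qf σ) D hb.1 hN1 hro hk1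
          hσ.1 hD
        refine hB x R hR1 ?_
        rw [hR2]
        exact hσ.2
      · exact h1
    · intro hx
      rcases Nat.lt_or_ge x.length (KK * KK + n0) with h1 | h1
      · exact Or.inr ⟨hx, h1⟩
      · left
        obtain ⟨b, mks, hm1, hm2⟩ := marks KK x.length hKK1 (by omega)
        obtain ⟨v1, hv1, hv2⟩ := track hm x mks hm1
        have hb := hm2.1
        have hmk : Mk KK b (v1.map (fun q => bit q.2)) := by
          rw [hv2]
          exact hm2
        have hlen : x.length ≤ KK * b + b := by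
          rw [← hm1]
          exact hm2.2.2.1
        have hlen2 : 3 * p.P0 * b * l ≤ x.length := by
          have h2 := hm2.2.1
          rw [hm1, hKK] at h2
          have h3 : 3 * p.P0 * b * l = l * (3 * p.P0) * b := by ring
          omega
        obtain ⟨R, hR1, hR2, hR3⟩ := hn0 x hx (by omega) b hb hlen (N * b)
          (htime x.length b hb hlen)
        obtain ⟨h, q, D, hS, hab, hqN, hD⟩ := hCpl M I k1 (ini I emb x) b N R hb hN1 hro hk1
          hR1 hR2
        let σ : Sg := (fun t => q t.1, fun k t => ⟨(h k t.1 + N).toNat, by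
            have h2 := abs_le.mp (hab k t.1 (le_of_lt t.2))
            have h3 := t.2
            omega⟩)
        have hhf : ∀ k t, t < N → h k t = hf σ k t := by
          intro k t ht
          have h2 := abs_le.mp (hab k t (le_of_lt ht))
          simp only [hf, σ, dif_pos ht]
          omega
        have hqf : ∀ t, t ≤ N → q t = qf σ t := by
          intro t ht
          simp only [qf, σ, dif_pos (Nat.lt_succ_of_le ht)]
        have hval : valid σ := by
          refine ⟨⟨?_, ?_, ?_, ?_⟩, ?_⟩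
          · intro k
            rw [← hhf k 0 hN1]
            exact hS.h0 k
          · intro k w hw
            rw [← hhf k w (by omega), ← hhf k (w + 1) hw]
            exact hS.hs k w hw
          · intro k w hk hk'
            by_cases hw : w < N
            · rw [← hhf k w hw]
              exact hS.ha k w hk hk'
            · simp only [hf, dif_neg hw]
          · rw [← hqf 0 (Nat.zero_le N)]
            exact hS.q0
          · rw [← hqf N le_rfl, hqN]
            exact hR3
        -- the data on all segments, all words of length `b`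
        let D1 : DatN M := ⟨D.sc, D.rc,
          fun w => if w < N then D.ec w else fun _ _ => List.replicate b (none, false)⟩
        have hD1 : AllN M I k1 (ini I emb x) b N (hf σ) (qf σ) D1 := by
          have h2 := hGluC M I k1 (ini I emb x) b N h q D hD ∅ (Finset.range N)
            (fun w hw => Finset.mem_range.mp hw)
          have h3 := hCgr M I k1 (ini I emb x) b N h (hf σ) q (qf σ) ∅ (Finset.range N) D.ec
            (fun _ _ _ => []) D D1 (fun w hw => Finset.mem_range.mp hw) hhf hqf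
            (fun u hu => absurd hu (Finset.notMem_empty u)) (by
              intro w hw
              refine ⟨fun _ _ => rfl, rfl, fun k e => ?_⟩
              have hw' := Finset.mem_range.mp hw
              simp only [D1, if_pos hw']) (by
              intro w hw k e u e' hu
              right
              rw [Finset.mem_range] at hw ⊢
              exact lt_trans (hEd I k1 h k e u w e' hu).2 hw) h2
          intro w hw
          exact h3.loc w (Finset.mem_range.mpr hw)
        have hl1 : ∀ u k e, (D1.ec u k e).length = b := by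
          intro u k e
          by_cases hu : u < N
          · exact (hD1 u hu).lec k e
          · simp only [D1, if_neg hu, List.length_replicate]
        obtain ⟨uy, hy1, hy2⟩ := (hExY M p l dec enc hl henc hdec (J σ)
          (IncN_card3 (hJ σ hval).1) b x.length hlen2 D1.ec (fun u _ k e => hl1 u k e)).1
        have hv1l : v1.length = x.length := by
          rw [← hv1, List.length_map]
        obtain ⟨y1, hy3, hy4⟩ := track hm v1 uy (by rw [hy1, hv1l])
        have hyl : y1.length = x.length := by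
          rw [← hv1l, ← hy3, List.length_map]
        refine ⟨v1, hv1, (hV2 v1 b hmk).mpr ⟨y1, hy3, σ, hval, ?_⟩, (hW2 v1).mp ⟨b, hmk⟩⟩
        intro i
        obtain ⟨uy2, hy5, hy6⟩ := (hExY M p l dec enc hl henc hdec (J2 σ i.1)
          (IncN_card3 ((hJ σ hval).2.2.1 i.1)) b x.length hlen2 D1.ec
          (fun u _ k e => hl1 u k e)).2
        obtain ⟨y2, hy7, hy8⟩ := track hm y1 uy2 (by rw [hy5, hyl])
        have hyl2 : y2.length = x.length := by
          rw [← hyl, ← hy7, List.length_map]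
        refine ⟨y2, hy7, ?_⟩
        intro j
        obtain ⟨uz, hz1, hz2⟩ := hExZ M p l dec enc hl henc hdec
          (cls N (cl σ) (gr σ) i.1 j.1) ((hJ σ hval).2.2.2.1 i.1 j.1) b x.length hlen2 D1 (by
            intro w hw
            have hloc := hD1 w (hcls σ i.1 j.1 w hw).1
            exact ⟨hloc.lsc, hloc.lrc, hloc.lec⟩)
        obtain ⟨z, hz3, hz4⟩ := track hm y2 uz (by rw [hz1, hyl2])
        refine ⟨z, hz3, ?_⟩
        have e1 : z.map (fun q => q.1.1.1.1) = x := by
          rw [← hv1, ← hy3, ← hy7, ← hz3, List.map_map, List.map_map, List.map_map]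
          rfl
        have e2 : z.map (fun q => bit q.1.1.2) = uy := by
          rw [← hy4, ← hy7, ← hz3, List.map_map, List.map_map]
          rfl
        have e3 : z.map (fun q => bit q.1.2) = uy2 := by
          rw [← hy8, ← hz3, List.map_map]
          rfl
        rw [e1, e2, e3, hz4]
        have h2 := hGluC M I k1 (ini I emb x) b N (hf σ) (qf σ) D1 hD1 (J σ ∪ J2 σ i.1)
          (cls N (cl σ) (gr σ) i.1 j.1) (fun w hw => (hcls σ i.1 j.1 w hw).1)
        refine hCgr M I k1 (ini I emb x) b N (hf σ) (hf σ) (qf σ) (qf σ) (J σ ∪ J2 σ i.1)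
          (cls N (cl σ) (gr σ) i.1 j.1) D1.ec _ D1 _ (fun w hw => (hcls σ i.1 j.1 w hw).1)
          (fun _ _ _ => rfl) (fun _ _ => rfl) ?_ hz2 ?_ h2
        · intro u hu k e
          unfold Yc
          by_cases huJ : u ∈ J σ
          · rw [if_pos huJ]
            exact hy2 u huJ k e
          · rw [if_neg huJ]
            rcases Finset.mem_union.mp hu with h3 | h3
            · exact absurd h3 huJ
            · exact hy6 u h3 k e
        · intro w hw k e u e' hu
          exact (hsrc σ i.1 j.1 hval w hw k e u e' hu).2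
  rw [e] at hF
  exact hF

theorem tIncN : S_Tm → S_SndN → S_CplN → S_GluS → S_GluC → S_Cgr → S_Cmb → S_Ed → S_ExY →
    S_ExZ → S_RecN → S_RegL → S_MkL → S_IncN := by
  intro hTm hSnd hCpl hGluS hGluC hCgr hCmb hEd hExY hExZ hRec hR hMk ρ B E m A L hm hL
  obtain ⟨hAf, K, hK, Γ, hΓ, I, k1, emb, M, c, s, hk1, hro, hs, hacc, hsnd⟩ := hL
  refine IncN_core hSnd hCpl hGluS hGluC hCgr hCmb hEd hExY hExZ hRec hR hMk E hm L I k1 emb
    (idle M) c hk1 ?_ ?_ ?_
  · intro q v q' a h k hk
    rcases h with h | ⟨_, h⟩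
    · exact hro q v q' a h k hk
    · rw [h]
  · intro KK
    obtain ⟨n0, hn0⟩ := hs (2 * (KK + 1))
    refine ⟨n0, ?_⟩
    intro x hx hx0 b hb hlen T hT
    obtain ⟨n, hn, ha⟩ := hacc x hx
    have h1 := hn0 x.length hx0
    have h2 : (KK + 1) * (2 * s x.length) ≤ (KK + 1) * b := by
      calc (KK + 1) * (2 * s x.length) = 2 * (KK + 1) * s x.length := by ring
        _ ≤ x.length := h1
        _ ≤ KK * b + b := hlen
        _ = (KK + 1) * b := by ring
    have h3 : 2 * s x.length ≤ b := Nat.le_of_mul_le_mul_left h2 (Nat.succ_pos KK)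
    have h4 : (s x.length : ℤ) < (b : ℤ) := by
      have : s x.length < b := by omega
      exact_mod_cast this
    have ha2 : M.Acc (fun cf => ∀ k, k ∉ I → k ≠ k1 → |cf.2.2 k| < (b : ℤ)) n
        (M.start, ini I emb x, fun _ => 0) :=
      IncN_accMono (fun cf hcf k hk hk' => lt_of_le_of_lt (hcf k hk hk') h4) ha
    exact (hTm M M.start (ini I emb x) (fun _ => 0)).1
      (fun pp => ∀ k, k ∉ I → k ≠ k1 → |pp k| < (b : ℤ)) n T (le_trans hn hT) ha2
  · intro x R hR1 hR2
    obtain ⟨n, hn⟩ := (hTm M M.start (ini I emb x) (fun _ => 0)).2 R hR1 hR2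
    exact hsnd n x hn

end MPdee884H4
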