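import Pool.Agent.Lib.MP_dee884_lc.H4.Spec

/-!
# MP_dee884_lc, H4: cells which are not visited keep their symbols
-/

set_option autoImplicit false

namespace MPdee884H4

open MPdee884H1 MPdee884H2 MPdee884H3 Pool.Agent.Lin

theorem tKp : S_Kp := by
  intro K Γ M P c R k lo hi h hP i hi'
  induction h with
  | nil c hc => rfl
  | cons c q' a R hc htr hR ih =>
    show (exe (upd c q' a) R).2.1 k i = c.2.1 k i
    rw [ih]
    show Function.update (c.2.1 k) (c.2.2 k) (a k).1 i = c.2.1 k i
    obtain ⟨h1, h2⟩ := hP c hc
    have hne : i ≠ c.2.2 k := by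
      intro he
      rw [← he] at h1 h2
      rcases hi' with h3 | h3
      · exact absurd h1 (not_le.mpr h3)
      · exact absurd h2 (not_lt.mpr h3)
    rw [Function.update_of_ne hne]

end MPdee884H4
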