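import Pool.Agent.Lib.MP_dee884_lc.H4.Spec

/-!
# MP_dee884_lc, H4: movement of the heads
-/

namespace MPdee884H4

open MPdee884H1 MPdee884H2 MPdee884H3 Pool.Agent.Lin

private lemma Mv_dir (d : Dir) : |d.toInt| ≤ 1 := by
  cases d <;> simp [Dir.toInt]

private lemma Mv_aux {K : Type} {Γ : K → Type} (M : NM K Γ) (P : NC M → Prop) (p : K → ℤ)
    {c : NC M} {R : List (RN M)} (h : TrN M P c R) :
    ∀ n : ℤ, (∀ k, |c.2.2 k - p k| + R.length ≤ n) →
      TrN M (fun c' => P c' ∧ ∀ k, |c'.2.2 k - p k| ≤ n) c R := by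
  induction h with
  | nil c hc =>
    intro n hn
    refine TrN.nil c ⟨hc, fun k => ?_⟩
    have := hn k
    simpa using this
  | cons c q' a R hc htr _ ih =>
    intro n hn
    refine TrN.cons c q' a R ⟨hc, fun k => ?_⟩ htr (ih n fun k => ?_)
    · have h1 := hn k
      simp only [List.length_cons] at h1
      push_cast at h1
      omega
    · have h1 := hn k
      have h2 := Mv_dir (a k).2
      have h3 : (upd c q' a).2.2 k = c.2.2 k + (a k).2.toInt := rfl
      simp only [List.length_cons] at h1
      push_cast at h1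
      rw [h3]
      have h4 : |c.2.2 k + (a k).2.toInt - p k| ≤ |c.2.2 k - p k| + |(a k).2.toInt| := by
        have h5 : c.2.2 k + (a k).2.toInt - p k = (c.2.2 k - p k) + (a k).2.toInt := by ring
        rw [h5]
        exact abs_add_le _ _
      omega

theorem tMv : S_Mv := by
  intro K Γ M P c R n h hn
  refine Mv_aux M P c.2.2 h (n : ℤ) fun k => ?_
  rw [sub_self, abs_zero, zero_add]
  exact_mod_cast hn

end MPdee884H4
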