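import Pool.Agent.Lib.MP_dee884_lc.H4.Spec2
import Pool.Agent.Lib.MP_dee884_lc.H3.Cl

/-!
# MP_dee884_lc, H4: advice
-/

namespace MPdee884H4

open MPdee884H1 MPdee884H2 MPdee884H3 Pool.Agent.Lin

theorem pad_len (u : List Bool) (n : ℕ) : (pad u n).length = n := by
  simp [pad]

theorem withAdvice_fst (k : ℕ) (x a : List Bool) : (withAdvice k x a).map Prod.fst = x := by
  unfold withAdvice
  rw [List.map_fst_zip]
  simp [pad_len]

theorem withAdvice_len (k : ℕ) (x a : List Bool) : (withAdvice k x a).length = x.length := by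
  unfold withAdvice
  simp [pad_len]

/-- from the uniform to the non-uniform statement -/
theorem nonU (hA : S_Adv) {ρ : Type} {B : ρ → Type} {E : (i : ρ) → Set (List (B i × Bool))}
    {k j : ℕ} {U : Set (List Bool)}
    (hU : ∀ L : Set (List Bool), Cls E (k + 2) (j + 1) Bool L →
      ∃ w : List Bool, ∀ r : List Bool, w ++ r ∈ U ↔ w ++ r ∉ L)
    {L' : Set (List (Bool × Fin (k + 2)))} (hL' : Cls E (k + 2) j (Bool × Fin (k + 2)) L') :
    ∃ w : List Bool, ∀ x a : List Bool, w <+: x → a.length = x.length / 2 →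
      a.reverse <:+ x → (x ∈ U ↔ withAdvice k x a ∉ L') := by
  have h1 : Cls E (k + 2) j (Bool × Fin (k + 2)) (AdvL k) := Cls.tape _ (hA k)
  have h2 := Cls.ex _ (cls_inter h1 hL')
  obtain ⟨w, hw⟩ := hU _ h2
  refine ⟨w, ?_⟩
  rintro x a ⟨r, rfl⟩ hal ⟨p, hp⟩
  rw [hw r]
  refine not_congr ?_
  have ha : (w ++ r).reverse.take ((w ++ r).length / 2) = a := by
    rw [← hal, ← hp, List.reverse_append, List.reverse_reverse]
    simp
  constructor
  · rintro ⟨v, hv1, hv2, hv3⟩
    have h3 : v = withAdvice k (v.map Prod.fst) ((v.map Prod.fst).reverse.take (v.length / 2)) :=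
      hv2
    have h4 : v.length = (w ++ r).length := by
      rw [← hv1, List.length_map]
    rw [hv1, h4, ha] at h3
    rw [← h3]
    exact hv3
  · intro h
    refine ⟨withAdvice k (w ++ r) a, withAdvice_fst _ _ _, ?_, h⟩
    show withAdvice k (w ++ r) a = withAdvice k ((withAdvice k (w ++ r) a).map Prod.fst)
      (((withAdvice k (w ++ r) a).map Prod.fst).reverse.take ((withAdvice k (w ++ r) a).length / 2))
    rw [withAdvice_fst, withAdvice_len, ha]

end MPdee884H4
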