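import Pool.Agent.Lib.MP_dee884_lc.H4.Spec4
import Pool.Agent.Lib.MP_dee884_lc.H4.NonU
import Pool.Agent.Lib.MP_dee884_lc.H3.Final

/-!
# MP_dee884_lc, H4: advice of length `n - n / D`
-/

namespace MPdee884H4

open MPdee884H1 MPdee884H2 MPdee884H3 Pool.Agent.Lin

/-- from the uniform to the non-uniform statement -/
theorem nonU2 (hA : S_AdvD) {ρ : Type} {B : ρ → Type} {E : (i : ρ) → Set (List (B i × Bool))}
    {k j : ℕ} {U : Set (List Bool)}
    (hU : ∀ L : Set (List Bool), Cls E (k + 2) (j + 6) Bool L →
      ∃ w : List Bool, ∀ r : List Bool, w ++ r ∈ U ↔ w ++ r ∉ L)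
    {L' : Set (List (Bool × Fin (k + 2)))}
    (hL' : Cls E (k + 2) (j + 5) (Bool × Fin (k + 2)) L') (D : ℕ) (hD : 1 ≤ D) :
    ∃ w : List Bool, ∀ x a : List Bool, w <+: x → a.length = x.length - x.length / D →
      a <:+ x → (x ∈ U ↔ withAdvice k x a ∉ L') := by
  have h0 : Cls E (k + 2) 5 (Bool × Fin (k + 2))
      {v | ∃ t : List ((Bool × Fin (k + 2)) × Fin (k + 2)), t.map Prod.fst = v ∧ t ∈ AdvD k D} :=
    Cls.ex _ (lintime_cls E (by omega) (hA k D hD))
  have h1 := cls_le h0 (by omega : 5 ≤ j + 5)
  have h2 := Cls.ex _ (cls_inter h1 hL')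
  obtain ⟨w, hw⟩ := hU _ h2
  refine ⟨w, ?_⟩
  rintro x a ⟨r, rfl⟩ hal ⟨p, hp⟩
  rw [hw r]
  refine not_congr ?_
  obtain ⟨x, hx⟩ : ∃ x, x = w ++ r := ⟨_, rfl⟩
  rw [← hx] at hal hp ⊢
  clear hx
  have hpl : p.length = x.length / D := by
    have h3 := congrArg List.length hp
    rw [List.length_append] at h3
    have h4 : x.length / D ≤ x.length := Nat.div_le_self _ _
    omega
  constructor
  · rintro ⟨v, hv1, ⟨t, ht1, u, z, hu1, hu2, hu3, hu4, hu5⟩, hv3⟩
    have hvl : v.length = x.length := by
      rw [← hv1, List.length_map]
    have htl : t.length = x.length := by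
      rw [← hvl, ← ht1, List.length_map]
    have h6 : t.map (fun p => p.1.1) = x := by
      rw [← hv1, ← ht1, List.map_map]
      rfl
    have h7 : u.map (fun p => p.1.1) ++ z.map (fun p => p.1.1) = p ++ a := by
      rw [← List.map_append, ← hu1, h6, hp]
    have h8 : z.map (fun p => p.1.1) = a := by
      refine (List.append_inj h7 ?_).2
      rw [List.length_map, hu4, htl, hpl]
    have h9 : v.map Prod.snd = (pad a x.length).map (lt01 k) := by
      rw [h8, htl] at hu5
      rw [← hu5, ← ht1, List.map_map]
      rfl
    have h10 : v = withAdvice k x a := by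
      unfold withAdvice
      rw [← h9, ← hv1]
      exact List.zip_of_prod rfl rfl
    rw [← h10]
    exact hv3
  · intro h
    have hl : (withAdvice k x a).length = x.length := withAdvice_len _ _ _
    refine ⟨withAdvice k x a, withAdvice_fst _ _ _, ?_, h⟩
    let ms : List (Fin (k + 2)) := List.replicate (x.length / D) 0 ++
      List.replicate (x.length - x.length / D) 1
    have hms : ms.length = x.length := by
      have h4 : x.length / D ≤ x.length := Nat.div_le_self _ _
      simp only [ms, List.length_append, List.length_replicate]
      omega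
    have h4 : x.length / D ≤ x.length := Nat.div_le_self _ _
    refine ⟨(withAdvice k x a).zip ms, ?_, ((withAdvice k x a).take (x.length / D)).zip
      (List.replicate (x.length / D) 0), ((withAdvice k x a).drop (x.length / D)).zip
      (List.replicate (x.length - x.length / D) 1), ?_, ?_, ?_, ?_, ?_⟩
    · rw [List.map_fst_zip]
      omega
    · rw [← List.zip_append (by simp [hl, h4]), List.take_append_drop]
    · intro q hq
      exact List.eq_of_mem_replicate (List.of_mem_zip hq).2
    · intro q hq
      exact List.eq_of_mem_replicate (List.of_mem_zip hq).2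
    · rw [List.length_zip, List.length_take, List.length_replicate, List.length_zip, hl, hms]
      simp [h4]
    · have e1 : (((withAdvice k x a).drop (x.length / D)).zip
          (List.replicate (x.length - x.length / D) (1 : Fin (k + 2)))).map
            (fun p => p.1.1) = a := by
        have e2 : (((withAdvice k x a).drop (x.length / D)).zip
            (List.replicate (x.length - x.length / D) (1 : Fin (k + 2)))).map
              (fun p => p.1.1) = ((((withAdvice k x a).drop (x.length / D)).zip
            (List.replicate (x.length - x.length / D) (1 : Fin (k + 2)))).map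
              Prod.fst).map Prod.fst := by
          rw [List.map_map]
          rfl
        have e4 : x.drop (x.length / D) = a := by
          rw [← hpl]
          conv_lhs => rw [← hp]
          simp
        rw [e2, List.map_fst_zip (by simp [hl]), List.map_drop, withAdvice_fst, e4]
      rw [e1]
      have e3 : ((withAdvice k x a).zip ms).map (fun p => p.1.2) =
          (((withAdvice k x a).zip ms).map Prod.fst).map Prod.snd := by
        rw [List.map_map]
        rfl
      rw [e3, List.map_fst_zip (by omega), List.length_zip, hl, hms, Nat.min_self]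
      unfold withAdvice
      rw [List.map_snd_zip]
      simp [pad_len]

end MPdee884H4
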