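import Pool.Agent.Lib.MP_dee884_lc.H4.Spec
import Pool.Agent.Lib.MP_dee884_lc.H3.Rec

/-!
# MP_dee884_lc, H4: the conditions on the data of the segments are recognised
-/

namespace MPdee884H4

open MPdee884H1 MPdee884H2 MPdee884H3 Pool.Agent.Lin

section

variable {ρ : Type} {B : ρ → Type} {E : (i : ρ) → Set (List (B i × Bool))} {m : ℕ}
  {X : Type} {K : Type} {Γ : K → Type} {M : NM K Γ} {KK l : ℕ} {mk : X → Bool}
  {dec : List Bool → LN M}

private theorem RecN_dir : Finite Dir := by
  refine Finite.of_surjective (fun i : Fin 3 => if i = 0 then Dir.left else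
    if i = 1 then Dir.stay else Dir.right) ?_
  intro d
  cases d
  · exact ⟨0, by simp⟩
  · exact ⟨1, by simp⟩
  · exact ⟨2, by simp⟩

private theorem RecN_fin (M : NM K Γ) [Finite K] [∀ k, Finite (Γ k)] : Finite (LN M) := by
  have := M.fin
  have := RecN_dir
  have h1 : Finite (M.S × ((k : K) → Option (Γ k))) := inferInstance
  have h2 : Finite (M.S × ((k : K) → Option (Γ k) × Dir)) := inferInstance
  exact inferInstance

private theorem RecN_eq (hEq : S_EqS) [Finite K] [∀ k, Finite (Γ k)] {j : ℕ} (hl : 1 ≤ l)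
    (f1 f2 : X → Bool) (k : K) (s1 s2 : ℕ) (h : s1 < s2) (hs : (s2 + 1) * l ≤ KK) :
    RgC E m j KK mk (fun w b => (slot l dec (w.map f2) b s2).map (asCN k) =
      (slot l dec (w.map f1) b s1).map (asCN k)) := by
  have := RecN_fin M
  have h1 := hEq KK l mk f1 f2 dec (fun a a' => asCN k a' = asCN k a) s1 s2 hl h hs
  refine (RgC.of h1).congr ?_
  intro w b _
  unfold slot
  rw [List.map_map, List.map_map, range_map_eq]
  rfl

private theorem RecN_sim (hSim : S_SimS) [Finite K] [∀ k, Finite (Γ k)] {j : ℕ} (hl : 1 ≤ l)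
    (f : X → Bool) (k : K) (s : Fin 7 → ℕ) (hs : StrictMono s) (hs2 : (s 6 + 1) * l ≤ KK) :
    RgC E m j KK mk (fun w b => SimW
      ((slot l dec (w.map f) b (s 0)).map (asCN k) ++
        (slot l dec (w.map f) b (s 1)).map (asCN k) ++
        (slot l dec (w.map f) b (s 2)).map (asCN k))
      (((slot l dec (w.map f) b (s 3)).map asRN).map (opN k))
      ((slot l dec (w.map f) b (s 4)).map (asCN k) ++
        (slot l dec (w.map f) b (s 5)).map (asCN k) ++
        (slot l dec (w.map f) b (s 6)).map (asCN k))) := by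
  have h := hSim (X := X) (G := Γ k) KK l mk f dec (asCN k) (fun a => opN k (asRN a)) s hl hs hs2
  refine (RgC.of h).congr ?_
  intro w b _
  rw [List.map_append, List.map_append, List.map_append, List.map_append, List.map_map]
  rfl

private theorem RecN_chn (hReg : S_RegS) {j : ℕ} (hl : 1 ≤ l) (f : X → Bool) (a a' : M.S)
    (s : ℕ) (hs : (s + 1) * l ≤ KK) :
    RgC E m j KK mk (fun w b => ((slot l dec (w.map f) b s).map asRN).foldl (chN M) (some a) =
      some a') := by
  have := M.fin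
  have h := hReg KK l mk f dec (fun (q : Option M.S) r => chN M q (asRN r)) (some a) {some a'}
    s hl hs
  refine (RgC.of h).congr ?_
  intro w b _
  rw [Set.mem_singleton_iff, List.foldl_map]

end

private theorem RecN_mul {P0 s l : ℕ} (h : s < 3 * P0) : (s + 1) * l ≤ l * (3 * P0) := by
  rw [Nat.mul_comm]
  exact Nat.mul_le_mul_left l h

theorem tRecN : S_RgI → S_EqS → S_RegS → S_SimS → S_RegL → S_RecN := by
  intro hI hEq hReg hSim hR ρ B E m X A K Γ _ _ M I k1 l mk dec enc emb p fx f1 f2 f3 h q J J2 V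
    hm hl henc hdec hP0 hSrc hJc hJ2c hVc
  -- bounds
  have bE : ∀ w ∈ V, ∀ (k : K) (e : Fin 3), p.P0 + p.zE V w k e < 3 * p.P0 := by
    intro w hw k e
    have h1 := p.zB_lt hVc hw
    have h2 := p.hidx k
    have h3 := e.2
    unfold Prm.zE
    omega
  have bS : ∀ w ∈ V, ∀ (k : K) (e : Fin 3), p.P0 + p.zS V w k e < 3 * p.P0 := by
    intro w hw k e
    have h1 := p.zB_lt hVc hw
    have h2 := p.hidx k
    have h3 := e.2
    unfold Prm.zS
    omega
  have bR : ∀ w ∈ V, p.P0 + p.zR V w < 3 * p.P0 := by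
    intro w hw
    have h1 := p.zB_lt hVc hw
    unfold Prm.zR
    omega
  have gS : ∀ w (k : K) (e : Fin 3), 2 * p.P0 ≤ p.P0 + p.zS V w k e := by
    intro w k e
    have h1 := p.zB_ge V w
    unfold Prm.zS
    omega
  have gE : ∀ w (k : K) (e : Fin 3), 2 * p.P0 ≤ p.P0 + p.zE V w k e := by
    intro w k e
    have h1 := p.zB_ge V w
    unfold Prm.zE
    omega
  -- comparison with the words `y`
  have hYc : ∀ u : ℕ, u ∈ J ∪ J2 → ∀ (k : K) (e' : Fin 3) (s : ℕ), 2 * p.P0 ≤ s →
      s < 3 * p.P0 → RgC E m 1 (l * (3 * p.P0)) mk (fun x b =>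
        (slot l dec (x.map f3) b s).map (asCN k) =
          Yc J (ofY1 M p l dec J (x.map f1) b) (ofY2 M p l dec J2 (x.map f2) b) u k e') := by
    intro u hu k e' s hs1 hs2
    by_cases huJ : u ∈ J
    · refine (RecN_eq (M := M) (dec := dec) hEq hl f1 f3 k (p.yS J u k e') s ?_ (RecN_mul hs2)).congr ?_
      · have := p.yS_lt hJc huJ k e'
        omega
      · intro x b _
        unfold Yc
        rw [if_pos huJ]
        rfl
    · have hu2 : u ∈ J2 := (Finset.mem_union.mp hu).resolve_left huJ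
      refine (RecN_eq (M := M) (dec := dec) hEq hl f2 f3 k (p.P0 + p.yS J2 u k e') s ?_ (RecN_mul hs2)).congr ?_
      · have := p.yS_lt hJ2c hu2 k e'
        omega
      · intro x b _
        unfold Yc
        rw [if_neg huJ]
        rfl
  -- the local conditions of one segment
  have hLoc : ∀ w ∈ V, RgC E m 1 (l * (3 * p.P0)) mk (fun x b =>
      LocN M I k1 (ini I emb (x.map fx)) b h q (J ∪ J2)
        (Yc J (ofY1 M p l dec J (x.map f1) b) (ofY2 M p l dec J2 (x.map f2) b))
        (ofZN M p l dec V (x.map f3) b) w) := by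
    intro w hw
    have c1 : RgC E m 1 (l * (3 * p.P0)) mk (fun x b => ∀ k, SimW
        ((ofZN M p l dec V (x.map f3) b).sc w k 0 ++ (ofZN M p l dec V (x.map f3) b).sc w k 1 ++
          (ofZN M p l dec V (x.map f3) b).sc w k 2)
        (((ofZN M p l dec V (x.map f3) b).rc w).map (opN k))
        ((ofZN M p l dec V (x.map f3) b).ec w k 0 ++ (ofZN M p l dec V (x.map f3) b).ec w k 1 ++
          (ofZN M p l dec V (x.map f3) b).ec w k 2)) := by
      refine RgC.all hR fun k => ?_
      refine RecN_sim (M := M) (Γ := Γ) hSim hl f3 k ![p.P0 + p.zS V w k 0, p.P0 + p.zS V w k 1,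
        p.P0 + p.zS V w k 2, p.P0 + p.zR V w, p.P0 + p.zE V w k 0, p.P0 + p.zE V w k 1,
        p.P0 + p.zE V w k 2] ?_ (RecN_mul (bE w hw k 2))
      rw [Fin.strictMono_iff_lt_succ]
      intro i
      have h2 := p.hidx k
      fin_cases i <;> simp [Prm.zS, Prm.zR, Prm.zE] <;> omega
    have c2 : RgC E m 1 (l * (3 * p.P0)) mk (fun x b => ∀ k, (k = k1 ∨ k ∈ I) →
        ∀ a ∈ (ofZN M p l dec V (x.map f3) b).sc w k 0, a.2 = false) := by
      refine RgC.all hR fun k => RgC.imp hR fun _ => ?_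
      refine (rgAll (dec := dec) hReg hl f3 (fun a => (asCN k a).2 = false)
        (p.P0 + p.zS V w k 0) (RecN_mul (bS w hw k 0))).congr ?_
      intro x b _
      exact List.forall_mem_map
    have c3 : RgC E m 1 (l * (3 * p.P0)) mk (fun x b => ∀ k, (k = k1 ∨ k ∈ I) →
        ∀ a ∈ (ofZN M p l dec V (x.map f3) b).sc w k 2, a.2 = false) := by
      refine RgC.all hR fun k => RgC.imp hR fun _ => ?_
      refine (rgAll (dec := dec) hReg hl f3 (fun a => (asCN k a).2 = false)
        (p.P0 + p.zS V w k 2) (RecN_mul (bS w hw k 2))).congr ?_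
      intro x b _
      exact List.forall_mem_map
    have c4 : RgC E m 1 (l * (3 * p.P0)) mk (fun x b => w = 0 → ∀ k,
        (((ofZN M p l dec V (x.map f3) b).sc w k 1)[0]?).map Prod.snd = some true) := by
      refine RgC.imp hR fun _ => RgC.all hR fun k => ?_
      refine (rgFirst (dec := dec) hReg hl f3 (fun a => (asCN k a).2) (p.P0 + p.zS V w k 1)
        (RecN_mul (bS w hw k 1))).congr ?_
      intro x b _
      show ((((slot l dec (x.map f3) b (p.P0 + p.zS V w k 1)).map (asCN k))[0]?).map Prod.snd =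
        some true) ↔ _
      rw [List.getElem?_map, Option.map_map]
      rfl
    have c5 : RgC E m 1 (l * (3 * p.P0)) mk (fun x b =>
        ((ofZN M p l dec V (x.map f3) b).rc w).foldl (chN M) (some (q w)) =
          some (q (w + 1))) :=
      RecN_chn hReg hl f3 (q w) (q (w + 1)) (p.P0 + p.zR V w) (RecN_mul (bR w hw))
    have c6 : RgC E m 1 (l * (3 * p.P0)) mk (fun x b => ∀ (k : K) (e : Fin 3) (u : Fin w)
        (e' : Fin 3), Src I k1 h k e u.1 w e' → u.1 ∈ J ∪ J2 →
        (ofZN M p l dec V (x.map f3) b).sc w k e =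
          Yc J (ofY1 M p l dec J (x.map f1) b) (ofY2 M p l dec J2 (x.map f2) b) u.1 k e') := by
      refine RgC.all hR fun k => RgC.all hR fun e => RgC.all hR fun u => RgC.all hR fun e' =>
        RgC.imp hR fun _ => RgC.imp hR fun huJ => ?_
      exact hYc u.1 huJ k e' (p.P0 + p.zS V w k e) (gS w k e) (bS w hw k e)
    have c7 : RgC E m 1 (l * (3 * p.P0)) mk (fun x b => ∀ (k : K) (e : Fin 3) (u : Fin w)
        (e' : Fin 3), Src I k1 h k e u.1 w e' → u.1 ∉ J ∪ J2 →
        (ofZN M p l dec V (x.map f3) b).sc w k e =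
          (ofZN M p l dec V (x.map f3) b).ec u.1 k e') := by
      refine RgC.all hR fun k => RgC.all hR fun e => RgC.all hR fun u => RgC.all hR fun e' =>
        RgC.imp hR fun hs => RgC.imp hR fun huJ => ?_
      have huV : u.1 ∈ V := ((hSrc w hw k e u.1 e' hs).2).resolve_left huJ
      refine RecN_eq hEq hl f3 f3 k (p.P0 + p.zE V u.1 k e') (p.P0 + p.zS V w k e) ?_
        (RecN_mul (bS w hw k e))
      have h1 := p.zB_mono huV u.2
      have h2 := p.hidx k
      have h3 := e'.2
      unfold Prm.zE Prm.zS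
      omega
    have c8 : RgC E m 1 (l * (3 * p.P0)) mk (fun x b => ∀ (k : K) (e : Fin 3),
        Ini I k1 h k e w → ((ofZN M p l dec V (x.map f3) b).sc w k e).map Prod.fst =
        (List.range b).map (fun o : ℕ => ini I emb (x.map fx) k (sh (h k w) e * b + o))) := by
      refine RgC.all hR fun k => RgC.all hR fun e => RgC.imp hR fun _ => ?_
      exact hI E m M I l (l * (3 * p.P0)) mk dec enc emb fx f3 k (sh (h k w) e)
        (p.P0 + p.zS V w k e) hm hl henc hdec (by have := gS w k e; omega)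
        (RecN_mul (bS w hw k e))
    refine (c1.and (c2.and (c3.and (c4.and (c5.and (c6.and (c7.and c8))))))).congr ?_
    intro x b _
    constructor
    · intro L
      exact ⟨L.sim, L.fl0, L.fl2, L.fl1, L.chn, fun k e u => L.prY k e u.1,
        fun k e u => L.prE k e u.1, L.prI⟩
    · rintro ⟨d1, d2, d3, d4, d5, d6, d7, d8⟩
      refine ⟨?_, ?_, ?_, d1, d2, d3, d4, d5, ?_, ?_, d8⟩
      · intro k e
        simp [ofZN, slot_length]
      · simp [ofZN, slot_length]
      · intro k e
        simp [ofZN, slot_length]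
      · intro k e u e' hu
        exact d6 k e ⟨u, (hSrc w hw k e u e' hu).1⟩ e' hu
      · intro k e u e' hu
        exact d7 k e ⟨u, (hSrc w hw k e u e' hu).1⟩ e' hu
  -- all segments
  have g1 : RgC E m 1 (l * (3 * p.P0)) mk (fun x b => ∀ w : {w // w ∈ V},
      LocN M I k1 (ini I emb (x.map fx)) b h q (J ∪ J2)
        (Yc J (ofY1 M p l dec J (x.map f1) b) (ofY2 M p l dec J2 (x.map f2) b))
        (ofZN M p l dec V (x.map f3) b) w.1) :=
    RgC.all hR fun w => hLoc w.1 w.2
  have g2 : RgC E m 1 (l * (3 * p.P0)) mk (fun x b => ∀ w : {w // w ∈ V}, w.1 ∈ J ∪ J2 →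
      ∀ (k : K) (e : Fin 3), (ofZN M p l dec V (x.map f3) b).ec w.1 k e =
        Yc J (ofY1 M p l dec J (x.map f1) b) (ofY2 M p l dec J2 (x.map f2) b) w.1 k e) := by
    refine RgC.all hR fun w => RgC.imp hR fun hwJ => RgC.all hR fun k => RgC.all hR fun e => ?_
    exact hYc w.1 hwJ k e (p.P0 + p.zE V w.1 k e) (gE w.1 k e) (bE w.1 w.2 k e)
  refine (g1.and g2).congr ?_
  intro x b _
  constructor
  · intro G
    exact ⟨fun w => G.loc w.1 w.2, fun w => G.top w.1 w.2⟩
  · rintro ⟨h1, h2⟩
    exact ⟨fun w hw => h1 ⟨w, hw⟩, fun w hw => h2 ⟨w, hw⟩⟩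

end MPdee884H4
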