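import Pool.Agent.Lib.MP_dee884_lc.H4.Spec
import Pool.Agent.Lib.MP_dee884_lc.H3.Rec

/-!
# MP_dee884_lc, H4: the initial symbols are recognised
-/

namespace MPdee884H4

open MPdee884H1 MPdee884H2 MPdee884H3 Pool.Agent.Lin

section

variable {ρ : Type} {B : ρ → Type} {E : (i : ρ) → Set (List (B i × Bool))} {m j : ℕ}
  {X : Type} {K : Type} {Γ : K → Type} {M : NM K Γ} {KK l : ℕ} {mk : X → Bool}
  {dec : List Bool → LN M}

theorem RgI_blank (hReg : S_RegS) (hl : 1 ≤ l) (f : X → Bool) (k : K) (s : ℕ)
    (hs : (s + 1) * l ≤ KK) :
    RgC E m j KK mk (fun w b => ((slot l dec (w.map f) b s).map (asCN k)).map Prod.fst =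
      (List.range b).map (fun _ => none)) := by
  refine (rgAll (dec := dec) hReg hl f (fun a => (asCN k a).1 = none) s hs).congr ?_
  intro w b _
  unfold slot
  rw [List.map_map, List.map_map, range_map_eq]
  constructor
  · intro h a ha
    obtain ⟨i, hi, rfl⟩ := List.mem_map.mp ha
    exact h i (List.mem_range.mp hi)
  · intro h i hi
    exact h _ (List.mem_map.mpr ⟨i, List.mem_range.mpr hi, rfl⟩)

end

theorem RgI_ini {K A X : Type} {Γ : K → Type} (I : Set K) (emb : (k : K) → A → Γ k)
    (fx : X → A) (k : K) (hk : k ∈ I) (w : List X) :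
    ini I emb (w.map fx) k = tapeOf (w.map fun x => emb k (fx x)) := by
  unfold ini
  rw [if_pos hk, List.map_map]
  rfl

theorem RgI_dir : Finite Dir :=
  Finite.of_injective (fun d : Dir => match d with
    | Dir.left => (0 : Fin 3)
    | Dir.stay => 1
    | Dir.right => 2) (by intro a b h; cases a <;> cases b <;> simp_all)

theorem tRgI : S_XS1 → S_XS2 → S_EqS → S_Code → S_RegS → S_RgI := by
  intro hX1 hX2 hEq hC hReg ρ B E m X A K Γ _ _ M I l KK mk dec enc emb fx f k β s hm hl henc
    hdec hs hs2
  have := M.fin
  have := RgI_dir
  by_cases hk : k ∈ I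
  · rcases lt_or_ge β 0 with hβ | hβ
    · refine (RgI_blank (dec := dec) hReg hl f k s hs2).congr ?_
      intro w b hw
      have e : (List.range b).map (fun o : ℕ => ini I emb (w.map fx) k (β * b + o)) =
          (List.range b).map (fun _ => none) := by
        rw [range_map_eq]
        intro i hi
        rw [RgI_ini I emb fx k hk w]
        unfold tapeOf
        have h1 : β * (b : ℤ) ≤ (-1) * (b : ℤ) :=
          mul_le_mul_of_nonneg_right (by omega) (Int.natCast_nonneg b)
        rw [if_neg (by omega)]
      rw [e]
    · obtain ⟨β', rfl⟩ := Int.eq_ofNat_of_zero_le hβ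
      have key : ∀ (w : List X) (b i : ℕ), ini I emb (w.map fx) k ((β' : ℤ) * b + i) =
          (w.map fun x => emb k (fx x))[β' * b + i]? := by
        intro w b i
        rw [RgI_ini I emb fx k hk w]
        unfold tapeOf
        have e1 : ((β' : ℤ) * b + i) = ((β' * b + i : ℕ) : ℤ) := by push_cast; rfl
        rw [e1, if_pos (Int.natCast_nonneg _), Int.toNat_natCast]
      rcases Nat.lt_or_ge KK β' with h1 | h1
      · refine (RgI_blank (dec := dec) hReg hl f k s hs2).congr ?_
        intro w b hw
        have e : (List.range b).map (fun o : ℕ => ini I emb (w.map fx) k ((β' : ℤ) * b + o)) =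
            (List.range b).map (fun _ => none) := by
          rw [range_map_eq]
          intro i hi
          rw [key]
          refine List.getElem?_eq_none ?_
          have h2 := hw.2.2.1
          rw [List.length_map] at h2
          rw [List.length_map]
          have h3 := mul_step KK β' b h1
          omega
        rw [e]
      · refine (rgX (dec := dec) hX1 hX2 hEq hC hm hl enc henc hdec
          (fun x => emb k (fx x)) f (fun o a => (asCN k a).1 = o) β' s hs hs2 h1).congr ?_
        intro w b _
        unfold slot
        rw [List.map_map, List.map_map, range_map_eq]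
        refine forall_congr' fun i => forall_congr' fun _ => ?_
        rw [key]
        rfl
  · refine (RgI_blank (dec := dec) hReg hl f k s hs2).congr ?_
    intro w b _
    have e : (List.range b).map (fun o : ℕ => ini I emb (w.map fx) k (β * b + o)) =
        (List.range b).map (fun _ => none) := by
      rw [range_map_eq]
      intro i _
      unfold ini
      rw [if_neg hk]
    rw [e]

end MPdee884H4
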