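import Pool.Agent.Lib.MP_dee884_lc.H4.Spec

/-!
# MP_dee884_lc, H4, module Ro: read-only tapes do not change
-/

namespace MPdee884H4

open MPdee884H1 MPdee884H2 MPdee884H3 Pool.Agent.Lin

/-- Read-only tapes do not change. -/
theorem tRo : S_Ro := by
  intro K Γ M I hI P c R h
  induction h with
  | nil c hc => intro k _; rfl
  | cons c q' a R hc htr _ ih =>
    intro k hk
    have h1 := ih k hk
    have h2 : (upd c q' a).2.1 k = Function.update (c.2.1 k) (c.2.2 k) (a k).1 := rfl
    have h3 : (a k).1 = c.2.1 k (c.2.2 k) := hI _ _ _ _ htr k hk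
    rw [h2, h3, Function.update_eq_self] at h1
    exact h1

end MPdee884H4
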