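import Pool.Agent.Lib.MP_dee884_lc.H4.Spec

/-!
# MP_dee884_lc, H4: soundness of the data of all segments
-/

namespace MPdee884H4

open MPdee884H1 MPdee884H2 MPdee884H3 Pool.Agent.Lin

private theorem SndN_sh0 (g : ℤ) : sh g 0 = g - 1 := by simp [sh]

private theorem SndN_sh1 (g : ℤ) : sh g 1 = g := by simp [sh]

private theorem SndN_sh2 (g : ℤ) : sh g 2 = g + 1 := by
  have : ((2 : Fin 3) : ℕ) = 2 := rfl
  simp only [sh, this]
  push_cast
  ring

private theorem SndN_exsh (g β : ℤ) (h : |g - β| ≤ 1) : ∃ e : Fin 3, sh g e = β := by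
  rw [abs_le] at h
  have h1 : β = g - 1 ∨ β = g ∨ β = g + 1 := by omega
  rcases h1 with rfl | rfl | rfl
  · exact ⟨0, SndN_sh0 g⟩
  · exact ⟨1, SndN_sh1 _⟩
  · exact ⟨2, SndN_sh2 g⟩

private theorem SndN_pror (g : ℕ → ℤ) (β : ℤ) (w : ℕ) : (∃ u, IsPr g β u w) ∨ NoPr g β w := by
  induction w with
  | zero => exact Or.inr (fun t ht => absurd ht (Nat.not_lt_zero _))
  | succ w ih =>
    by_cases h : |g w - β| ≤ 1
    · exact Or.inl ⟨w, Nat.lt_succ_self w, h, fun t h1 h2 => by omega⟩
    · have h' : 2 ≤ |g w - β| := by omega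
      rcases ih with ⟨u, h1, h2, h3⟩ | h1
      · refine Or.inl ⟨u, by omega, h2, fun t h4 h5 => ?_⟩
        rcases Nat.lt_succ_iff_lt_or_eq.1 h5 with h6 | h6
        · exact h3 t h4 h6
        · rw [h6]
          exact h'
      · refine Or.inr (fun t h5 => ?_)
        rcases Nat.lt_succ_iff_lt_or_eq.1 h5 with h6 | h6
        · exact h1 t h6
        · rw [h6]
          exact h'

private theorem SndN_simRlt {G : Type} {R : List (Op G)} {g g' : List (Option G)} {p p' : ℕ}
    (h : SimR R g p g' p') : p < g.length := by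
  cases h with
  | nil _ _ h => exact h
  | cons a b d R g g' p p1 p' h1 _ _ =>
    rw [List.getElem?_eq_some_iff] at h1
    exact h1.1

private theorem SndN_flagget {G : Type} (g : List (Option G)) (p i : ℕ) :
    ((flag g p)[i]?).map Prod.snd = (g[i]?).map (fun _ => decide (i = p)) := by
  unfold flag
  rw [List.getElem?_mapIdx]
  cases g[i]? with
  | none => rfl
  | some a => rfl

private theorem SndN_pairext {A B : Type} : ∀ (l1 l2 : List (A × B)),
    l1.map Prod.fst = l2.map Prod.fst → l1.map Prod.snd = l2.map Prod.snd → l1 = l2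
  | [], [], _, _ => rfl
  | [], b :: l2, h, _ => by simp at h
  | a :: l1, [], h, _ => by simp at h
  | a :: l1, b :: l2, h1, h2 => by
    simp only [List.map_cons, List.cons.injEq] at h1 h2
    rw [SndN_pairext l1 l2 h1.2 h2.2, Prod.ext h1.1 h2.1]

/-- the flags of a window -/
private theorem SndN_flags {G : Type} {b : ℕ} (s : Fin 3 → List (Option G × Bool))
    {R : List (Op G)} {e : List (Option G × Bool)} (l : ∀ i, (s i).length = b)
    (h : SimW (s 0 ++ s 1 ++ s 2) R e) :
    ∃ p < 3 * b, ∀ (i : Fin 3) (o : ℕ), o < b →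
      ((s i)[o]?).map Prod.snd = some (decide (i.1 * b + o = p)) := by
  obtain ⟨g, g', p, p', h1, _, h3⟩ := h
  have hp := SndN_simRlt h3
  have hlen : g.length = 3 * b := by
    have := congrArg List.length h1
    simp only [flag, List.length_append, List.length_mapIdx, l] at this
    omega
  have hsome : ∀ i < 3 * b, ((s 0 ++ s 1 ++ s 2)[i]?).map Prod.snd = some (decide (i = p)) := by
    intro i hi
    rw [h1, SndN_flagget]
    obtain ⟨a, ha⟩ : ∃ a, g[i]? = some a := ⟨g[i], List.getElem?_eq_getElem (by omega)⟩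
    rw [ha]
    rfl
  refine ⟨p, by omega, ?_⟩
  intro i o ho
  have h4 : i.1 = 0 ∨ i.1 = 1 ∨ i.1 = 2 := by omega
  rcases h4 with h4 | h4 | h4
  · have : i = 0 := Fin.ext h4
    subst this
    have e : ((0 : Fin 3) : ℕ) * b + o = o := by simp
    rw [e, ← hsome o (by omega),
      List.getElem?_append_left (by rw [List.length_append, l, l]; omega),
      List.getElem?_append_left (by rw [l]; exact ho)]
  · have : i = 1 := Fin.ext h4
    subst this
    have e : ((1 : Fin 3) : ℕ) * b + o = b + o := by simp
    rw [e, ← hsome (b + o) (by omega),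
      List.getElem?_append_left (by rw [List.length_append, l, l]; omega),
      List.getElem?_append_right (by rw [l]; omega), l, Nat.add_sub_cancel_left]
  · have : i = 2 := Fin.ext h4
    subst this
    have e : ((2 : Fin 3) : ℕ) * b + o = b + b + o := by
      have : ((2 : Fin 3) : ℕ) = 2 := rfl
      rw [this]
      omega
    rw [e, ← hsome (b + b + o) (by omega),
      List.getElem?_append_right (by rw [List.length_append, l, l]; omega),
      List.length_append, l, l, Nat.add_sub_cancel_left]

private theorem SndN_mid {G : Type} {b p : ℕ} (s : Fin 3 → List (Option G × Bool))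
    (l : ∀ i, (s i).length = b)
    (hf : ∀ (i : Fin 3) (o : ℕ), o < b →
      ((s i)[o]?).map Prod.snd = some (decide (i.1 * b + o = p)))
    (hp : p < 3 * b) (f0 : ∀ a ∈ s 0, a.2 = false) (f2 : ∀ a ∈ s 2, a.2 = false) :
    ∃ o < b, ((1 : Fin 3) : ℕ) * b + o = p := by
  have h1 : b ≤ p := by
    by_contra hcon
    have h4 := hf 0 p (by omega)
    rw [List.getElem?_eq_getElem (by rw [l]; omega)] at h4
    have h5 := f0 _ (List.getElem_mem (l := s 0) (n := p) (by rw [l]; omega))
    have h6 : decide (((0 : Fin 3) : ℕ) * b + p = p) = true := by simp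
    rw [h6, Option.map_some, Option.some.injEq, h5] at h4
    exact absurd h4 (by decide)
  have h2 : p < 2 * b := by
    by_contra hcon
    have h4 := hf 2 (p - 2 * b) (by omega)
    rw [List.getElem?_eq_getElem (by rw [l]; omega)] at h4
    have h5 := f2 _ (List.getElem_mem (l := s 2) (n := p - 2 * b) (by rw [l]; omega))
    have h6 : decide (((2 : Fin 3) : ℕ) * b + (p - 2 * b) = p) = true := by
      have : ((2 : Fin 3) : ℕ) = 2 := rfl
      rw [this, decide_eq_true_eq]
      omega
    rw [h6, Option.map_some, Option.some.injEq, h5] at h4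
    exact absurd h4 (by decide)
  refine ⟨p - b, by omega, ?_⟩
  have : ((1 : Fin 3) : ℕ) = 1 := rfl
  rw [this]
  omega

private theorem SndN_pri {A B : Type} (s : List (A × B)) (b : ℕ) (f : ℕ → A)
    (h : s.map Prod.fst = (List.range b).map f) (o : ℕ) (ho : o < b) :
    (s[o]?).map Prod.fst = some (f o) := by
  rw [← List.getElem?_map, h, List.getElem?_map, List.getElem?_range ho]
  rfl

private theorem SndN_app3 {A : Type} {b : ℕ} {a0 a1 a2 c0 c1 c2 : List A} (h0 : a0.length = b)
    (h1 : a1.length = b) (h0' : c0.length = b) (h1' : c1.length = b)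
    (h : a0 ++ a1 ++ a2 = c0 ++ c1 ++ c2) : a0 = c0 ∧ a1 = c1 ∧ a2 = c2 := by
  obtain ⟨e1, e2⟩ := List.append_inj h (by simp only [List.length_append, h0, h1, h0', h1'])
  obtain ⟨e3, e4⟩ := List.append_inj e1 (by rw [h0, h0'])
  exact ⟨e3, e4, e2⟩

section

variable {K : Type} {Γ : K → Type} {M : NM K Γ}

private theorem SndN_blen (c : NC M) (k : K) (b : ℕ) (β : ℤ) : (bN c k b β).length = b := by
  simp [bN]

private theorem SndN_bget (c : NC M) (k : K) (b : ℕ) (β : ℤ) {i : ℕ} (hi : i < b) :
    (bN c k b β)[i]? = some (ceN c k (β * b + i)) := by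
  simp only [bN, List.getElem?_map]
  rw [List.getElem?_eq_getElem (by rw [List.length_range]; exact hi)]
  simp

private theorem SndN_head (c : NC M) (k : K) (b p : ℕ) (H : ℤ) (e : Fin 3)
    (s : List (Option (Γ k) × Bool))
    (hf : ∀ o, o < b → (s[o]?).map Prod.snd = some (decide (e.1 * b + o = p)))
    (h : s = bN c k b (sh H e)) (o : ℕ) (ho : o < b) (hp : e.1 * b + o = p) :
    c.2.2 k = (H - 1) * b + p := by
  have e1 := hf o ho
  rw [h, SndN_bget _ _ _ _ ho] at e1
  simp only [Option.map_some, ceN, Option.some.injEq, decide_eq_decide] at e1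
  have e2 := e1.2 hp
  rw [e2, ← hp]
  unfold sh
  push_cast
  ring

private theorem SndN_eq (c : NC M) (k : K) (b p : ℕ) (H : ℤ) (e : Fin 3)
    (s : List (Option (Γ k) × Bool)) (l : s.length = b)
    (hf : ∀ o, o < b → (s[o]?).map Prod.snd = some (decide (e.1 * b + o = p)))
    (hp : c.2.2 k = (H - 1) * b + p)
    (hs : ∀ o : ℕ, o < b → (s[o]?).map Prod.fst = some (c.2.1 k (sh H e * b + o))) :
    s = bN c k b (sh H e) := by
  refine SndN_pairext _ _ ?_ ?_
  · refine List.ext_getElem? (fun o => ?_)
    by_cases ho : o < b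
    · rw [List.getElem?_map, List.getElem?_map, hs o ho, SndN_bget _ _ _ _ ho]
      rfl
    · rw [List.getElem?_eq_none (by rw [List.length_map, l]; omega),
        List.getElem?_eq_none (by rw [List.length_map, SndN_blen]; omega)]
  · refine List.ext_getElem? (fun o => ?_)
    by_cases ho : o < b
    · rw [List.getElem?_map, List.getElem?_map, hf o ho, SndN_bget _ _ _ _ ho]
      simp only [Option.map_some, ceN, Option.some.injEq]
      rw [decide_eq_decide, hp]
      unfold sh
      constructor
      · intro h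
        have h' : ((e.1 : ℤ)) * b + o = p := by exact_mod_cast h
        rw [← h']
        ring
      · intro h
        have h' : ((e.1 : ℤ)) * b + o = p := by linear_combination -h
        exact_mod_cast h'
    · rw [List.getElem?_eq_none (by rw [List.length_map, l]; omega),
        List.getElem?_eq_none (by rw [List.length_map, SndN_blen]; omega)]

end

theorem tSndN : S_Bas → S_Kp → S_Ro → S_WinS → S_SndN := by
  classical
  intro hBas hKp hRo hWin K Γ M I k1 τ b N h q D hb hN hro hk1 hS hA
  obtain ⟨b1, b2, b3, -, -⟩ := hBas M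
  have hbz : (0 : ℤ) < b := by exact_mod_cast hb
  obtain ⟨cfg, c0, cs⟩ : ∃ cfg : ℕ → NC M, cfg 0 = (M.start, τ, fun _ => 0) ∧
      ∀ w, cfg (w + 1) = exe (cfg w) (D.rc w) :=
    ⟨fun w => Nat.rec (M.start, τ, fun _ => 0) (fun w c => exe c (D.rc w)) w, rfl, fun _ => rfl⟩
  -- one segment
  have hC : ∀ w, w < N → ((cfg w).1 = q w ∧
      ∀ k e, D.sc w k e = bN (cfg w) k b (sh (h k w) e)) →
      TrN M (InW M b (fun k => h k w)) (cfg w) (D.rc w) ∧ (cfg (w + 1)).1 = q (w + 1) ∧
        ∀ k e, D.ec w k e = bN (cfg (w + 1)) k b (sh (h k w) e) := by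
    intro w hw hP
    obtain ⟨p1, p2⟩ := hP
    have hl := hA w hw
    have e1 : ∀ k, wN (cfg w) k b (h k w) = D.sc w k 0 ++ D.sc w k 1 ++ D.sc w k 2 := by
      intro k
      rw [p2 k 0, p2 k 1, p2 k 2, SndN_sh0, SndN_sh1, SndN_sh2]
      rfl
    obtain ⟨w1, w2, w3⟩ := hWin M b (cfg w) (fun k => h k w) (D.rc w) (q (w + 1))
      (fun k => D.ec w k 0 ++ D.ec w k 1 ++ D.ec w k 2) hb (by rw [p1]; exact hl.chn)
      (fun k => by
        show SimW (wN (cfg w) k b (h k w)) _ _
        rw [e1 k]
        exact hl.sim k)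
    rw [← cs] at w2
    refine ⟨w1, w2, fun k e => ?_⟩
    have w4 : D.ec w k 0 ++ D.ec w k 1 ++ D.ec w k 2 = wN (exe (cfg w) (D.rc w)) k b (h k w) :=
      w3 k
    rw [← cs] at w4
    obtain ⟨e0, e1, e2⟩ := SndN_app3 (hl.lec k 0) (hl.lec k 1) (SndN_blen _ _ _ _)
      (SndN_blen _ _ _ _) w4
    have h3 : e.1 = 0 ∨ e.1 = 1 ∨ e.1 = 2 := by omega
    rcases h3 with h3 | h3 | h3
    · have : e = 0 := Fin.ext h3
      subst this
      rw [SndN_sh0]
      exact e0
    · have : e = 1 := Fin.ext h3
      subst this
      rw [SndN_sh1]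
      exact e1
    · have : e = 2 := Fin.ext h3
      subst this
      rw [SndN_sh2]
      exact e2
  have main : ∀ w, w < N → ((cfg w).1 = q w ∧
      ∀ k e, D.sc w k e = bN (cfg w) k b (sh (h k w) e)) := by
    intro w
    induction w using Nat.strong_induction_on with
    | _ w ih =>
    intro hw
    have hc : ∀ u, u < w → TrN M (InW M b (fun k => h k u)) (cfg u) (D.rc u) ∧
        (cfg (u + 1)).1 = q (u + 1) ∧
        ∀ k e, D.ec u k e = bN (cfg (u + 1)) k b (sh (h k u) e) :=
      fun u hu => hC u (hu.trans hw) (ih u hu (hu.trans hw))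
    have hl := hA w hw
    -- cells which are not touched
    have keep : ∀ (k : K) (β : ℤ) (u n : ℕ), u + n ≤ w →
        (∀ t, u ≤ t → t < u + n → 2 ≤ |h k t - β|) →
        ∀ o : ℕ, o < b → (cfg (u + n)).2.1 k (β * b + o) = (cfg u).2.1 k (β * b + o) := by
      intro k β u n
      induction n with
      | zero => intro _ _ o _; rfl
      | succ n ihn =>
        intro hn ht o ho
        rw [← ihn (by omega) (fun t h1 h2 => ht t h1 (by omega)) o ho]
        have h1 := ht (u + n) (by omega) (by omega)
        have ho' : (o : ℤ) < b := by exact_mod_cast ho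
        have ho0 : (0 : ℤ) ≤ o := Int.natCast_nonneg o
        rw [← Nat.add_assoc, cs]
        refine hKp M (InW M b (fun k => h k (u + n))) (cfg (u + n)) (D.rc (u + n)) k
          ((h k (u + n) - 1) * b) ((h k (u + n) + 2) * b) (hc (u + n) (by omega)).1
          (fun c' hc' => hc' k) _ ?_
        rcases le_abs.1 h1 with h2 | h2
        · left
          have h3 : (β + 1) * (b : ℤ) ≤ (h k (u + n) - 1) * b :=
            mul_le_mul_of_nonneg_right (by omega) hbz.le
          rw [add_mul, one_mul] at h3
          linarith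
        · right
          have h3 : (h k (u + n) + 2) * (b : ℤ) ≤ β * b :=
            mul_le_mul_of_nonneg_right (by omega) hbz.le
          linarith
    -- read-only tapes
    have ro : ∀ k ∈ I, ∀ u, u ≤ w → (cfg u).2.1 k = τ k := by
      intro k hk u
      induction u with
      | zero => intro _; rw [c0]
      | succ u ihu =>
        intro hu
        rw [cs, hRo M I hro (InW M b (fun k => h k u)) (cfg u) (D.rc u) (hc u (by omega)).1 k hk]
        exact ihu (by omega)
    have hst : (cfg w).1 = q w := by
      rcases Nat.eq_zero_or_pos w with h1 | h1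
      · subst h1
        rw [c0]
        exact hS.q0.symm
      · have h2 := (hc (w - 1) (by omega)).2.1
        rwa [Nat.sub_add_cancel h1] at h2
    refine ⟨hst, fun k e => ?_⟩
    obtain ⟨p, hp, hf⟩ := SndN_flags (D.sc w k) (hl.lsc k) (hl.sim k)
    rcases Nat.eq_zero_or_pos w with h1 | h1
    · subst h1
      have hpb : p = b := by
        have e1 := hl.fl1 rfl k
        rw [hf 1 0 (by omega)] at e1
        simp only [Option.some.injEq, decide_eq_true_eq] at e1
        have e2 : ((1 : Fin 3) : ℕ) * b + 0 = b := by simp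
        exact e1.symm.trans e2
      refine SndN_eq (cfg 0) k b p (h k 0) e (D.sc 0 k e) (hl.lsc k e) (hf e) ?_ ?_
      · rw [c0, hS.h0 k, hpb]
        show (0 : ℤ) = _
        ring
      · intro o ho
        have hi : Ini I k1 h k e 0 := by
          unfold Ini
          split_ifs
          · intro t ht
            omega
          · trivial
        rw [SndN_pri _ b _ (hl.prI k e hi) o ho, c0]
    · have hpred : |h k (w - 1) - sh (h k w) 1| ≤ 1 := by
        have h2 := hS.hs k (w - 1) (by omega)
        rw [Nat.sub_add_cancel h1] at h2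
        rw [SndN_sh1, abs_sub_comm]
        exact h2
      have hcp := hc (w - 1) (by omega)
      rw [Nat.sub_add_cancel h1] at hcp
      have hfin : (k = k1 ∨ k ∈ I) → D.sc w k 1 = bN (cfg w) k b (sh (h k w) 1) →
          (∀ o : ℕ, o < b → ((D.sc w k e)[o]?).map Prod.fst =
            some ((cfg w).2.1 k (sh (h k w) e * b + o))) →
          D.sc w k e = bN (cfg w) k b (sh (h k w) e) := by
        intro hk hmid hsy
        obtain ⟨o, ho, hop⟩ := SndN_mid (D.sc w k) (hl.lsc k) hf hp (hl.fl0 k hk) (hl.fl2 k hk)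
        have hhead := SndN_head (cfg w) k b p (h k w) 1 (D.sc w k 1) (hf 1) hmid o ho hop
        exact SndN_eq (cfg w) k b p (h k w) e (D.sc w k e) (hl.lsc k e) (hf e) hhead hsy
      by_cases hkk : k = k1
      · have hmid : D.sc w k 1 = bN (cfg w) k b (sh (h k w) 1) := by
          obtain ⟨e', he'⟩ := SndN_exsh (h k (w - 1)) (sh (h k w) 1) hpred
          have e1 := hl.prE k 1 (w - 1) e' (by
            unfold Src
            rw [if_pos hkk]
            exact ⟨⟨by omega, hpred, fun t h2 h3 => by omega⟩, he'⟩) (Finset.notMem_empty _)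
          rw [e1, hcp.2.2 k e', he']
        refine hfin (Or.inl hkk) hmid (fun o ho => ?_)
        rcases SndN_pror (h k) (sh (h k w) e) w with ⟨u, hu⟩ | hno
        · obtain ⟨e', he'⟩ := SndN_exsh (h k u) (sh (h k w) e) hu.2.1
          have hu1 := hu.1
          have e1 := hl.prE k e u e' (by
            unfold Src
            rw [if_pos hkk]
            exact ⟨hu, he'⟩) (Finset.notMem_empty _)
          have e2 := keep k (sh (h k w) e) (u + 1) (w - (u + 1)) (by omega)
            (fun t h2 h3 => hu.2.2 t (by omega) (by omega)) o ho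
          rw [show u + 1 + (w - (u + 1)) = w by omega] at e2
          rw [e1, (hc u hu1).2.2 k e', he', SndN_bget _ _ _ _ ho, e2]
          rfl
        · have hi : Ini I k1 h k e w := by
            unfold Ini
            rw [if_pos hkk]
            exact hno
          have e2 := keep k (sh (h k w) e) 0 w (by omega)
            (fun t _ h3 => hno t (by omega)) o ho
          rw [Nat.zero_add, c0] at e2
          rw [SndN_pri _ b _ (hl.prI k e hi) o ho, e2]
      · by_cases hkI : k ∈ I
        · have hmid : D.sc w k 1 = bN (cfg w) k b (sh (h k w) 1) := by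
            obtain ⟨e', he'⟩ := SndN_exsh (h k (w - 1)) (sh (h k w) 1) hpred
            have e1 := hl.prE k 1 (w - 1) e' (by
              unfold Src
              rw [if_neg hkk, if_pos hkI]
              exact ⟨by omega, rfl, he'⟩) (Finset.notMem_empty _)
            rw [e1, hcp.2.2 k e', he']
          refine hfin (Or.inr hkI) hmid (fun o ho => ?_)
          have hi : Ini I k1 h k e w := by
            unfold Ini
            rw [if_neg hkk, if_pos hkI]
            trivial
          rw [SndN_pri _ b _ (hl.prI k e hi) o ho, ro k hkI w le_rfl]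
        · have e1 := hl.prE k e (w - 1) e (by
            unfold Src
            rw [if_neg hkk, if_neg hkI]
            exact ⟨by omega, rfl⟩) (Finset.notMem_empty _)
          rw [e1, hcp.2.2 k e, hS.ha k w hkI hkk, hS.ha k (w - 1) hkI hkk]
  have fin : ∀ w, w ≤ N → ∃ R : List (RN M), TrN M (fun _ => True) (cfg 0) R ∧
      exe (cfg 0) R = cfg w := by
    intro w
    induction w with
    | zero => intro _; exact ⟨[], TrN.nil _ trivial, rfl⟩
    | succ w ihw =>
      intro hw
      obtain ⟨R, h1, h2⟩ := ihw (by omega)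
      refine ⟨R ++ D.rc w, ?_, ?_⟩
      · rw [b2]
        refine ⟨h1, ?_⟩
        rw [h2]
        exact b3 _ _ _ _ (fun _ _ => trivial) (hC w (by omega) (main w (by omega))).1
      · rw [b1, h2, cs]
  obtain ⟨R, h1, h2⟩ := fin N le_rfl
  rw [c0] at h1 h2
  refine ⟨R, h1, ?_⟩
  rw [h2]
  have h3 := (hC (N - 1) (by omega) (main (N - 1) (by omega))).2.1
  rwa [Nat.sub_add_cancel hN] at h3

end MPdee884H4
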