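import Pool.Agent.Lib.MP_dee884_lc.H4.Spec

/-!
# MP_dee884_lc, H4, module Tm (helper40): time and idle steps
-/

namespace MPdee884H4

open MPdee884H1 MPdee884H2 MPdee884H3 Pool.Agent.Lin

section

variable {K : Type} {Γ : K → Type}

private theorem Tm_upd (M : NM K Γ) (c : NC M) :
    upd (M := M) c c.1 (fun k => (scN c k, Dir.stay)) = c := by
  obtain ⟨q, τ, p⟩ := c
  unfold upd scN
  refine Prod.ext rfl (Prod.ext ?_ ?_)
  · funext k
    exact Function.update_eq_self _ _
  · funext k
    show p k + Dir.stay.toInt = p k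
    simp [Dir.toInt]

private theorem Tm_idle (M : NM K Γ) (P : NC (idle M) → Prop) (c : NC (idle M)) (hc : P c)
    (T : ℕ) : ∃ R : List (RN (idle M)), R.length = T ∧ TrN (idle M) P c R ∧
      exe (M := idle M) c R = c := by
  induction T with
  | zero => exact ⟨[], rfl, TrN.nil c hc, rfl⟩
  | succ T ih =>
    obtain ⟨R, h1, h2, h3⟩ := ih
    have h4 : upd (M := idle M) c c.1 (fun k => (scN c k, Dir.stay)) = c := Tm_upd (idle M) c
    refine ⟨((c.1, scN c), (c.1, fun k => (scN c k, Dir.stay))) :: R, ?_, ?_, ?_⟩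
    · rw [List.length_cons, h1]
    · refine TrN.cons c c.1 _ R hc (Or.inr ⟨rfl, rfl⟩) ?_
      rw [h4]
      exact h2
    · show exe (M := idle M) (upd (M := idle M) c c.1 (fun k => (scN c k, Dir.stay))) R = c
      rw [h4]
      exact h3

private theorem Tm_acc (M : NM K Γ) (P : NC M → Prop) (n : ℕ) (c : NC M) (h : M.Acc P n c) :
    ∀ T, n ≤ T → ∃ R : List (RN (idle M)), R.length = T ∧ TrN (idle M) P c R ∧
      M.acc (exe (M := idle M) c R).1 := by
  induction h with
  | done c hP ha =>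
    intro T _
    obtain ⟨R, h1, h2, h3⟩ := Tm_idle M P c hP T
    refine ⟨R, h1, h2, ?_⟩
    rw [h3]
    exact ha
  | step n c q' a hP htr _ ih =>
    intro T hT
    obtain ⟨T', rfl⟩ : ∃ T', T = T' + 1 := ⟨T - 1, by omega⟩
    obtain ⟨R, h1, h2, h3⟩ := ih T' (by omega)
    refine ⟨((c.1, scN c), (q', a)) :: R, ?_, ?_, h3⟩
    · rw [List.length_cons, h1]
    · exact TrN.cons (M := idle M) c q' a R hP (Or.inl htr) h2

private theorem Tm_back (M : NM K Γ) (c : NC (idle M)) (R : List (RN (idle M)))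
    (h : TrN (idle M) (fun _ => True) c R) (ha : M.acc (exe (M := idle M) c R).1) :
    ∃ n, M.Acc (fun _ => True) n c := by
  induction h with
  | nil c _ => exact ⟨0, NM.Acc.done (M := M) (P := fun _ => True) c trivial ha⟩
  | cons c q' a R _ htr _ ih =>
    obtain ⟨n, hn⟩ := ih ha
    rcases htr with htr | ⟨h1, h2⟩
    · exact ⟨n + 1, NM.Acc.step (M := M) (P := fun _ => True) n c q' a trivial htr hn⟩
    · refine ⟨n, ?_⟩
      subst h1
      subst h2
      have h4 : upd (M := idle M) c c.1 (fun k => (scN c k, Dir.stay)) = c :=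
        Tm_upd (idle M) c
      rw [h4] at hn
      exact hn

end

theorem tTm : S_Tm := by
  intro K Γ M q τ p
  refine ⟨?_, ?_⟩
  · intro Q n T hT h
    exact Tm_acc M _ n (q, τ, p) h T hT
  · intro R hR ha
    exact Tm_back M (q, τ, p) R hR ha

end MPdee884H4
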