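import Pool.Agent.Lib.MP_dee884_lc.H4.Spec

/-!
# MP_dee884_lc, H4: one segment, completeness
-/

set_option autoImplicit false

namespace MPdee884H4

open MPdee884H1 MPdee884H2 MPdee884H3 Pool.Agent.Lin

section

variable {K : Type} {Γ : K → Type}

/-- the symbols of the window which begins in the cell `a`, of length `n` -/
private def WinC_sy {M : NM K Γ} (c : NC M) (k : K) (a : ℤ) (n : ℕ) : List (Option (Γ k)) :=
  (List.range n).map (fun o : ℕ => c.2.1 k (a + o))

/-- the window which begins in the cell `a`, of length `n` -/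
private def WinC_wn {M : NM K Γ} (c : NC M) (k : K) (a : ℤ) (n : ℕ) :
    List (Option (Γ k) × Bool) :=
  (List.range n).map (fun o : ℕ => ceN c k (a + o))

private theorem WinC_flag {G : Type} (g : List (Option G)) (p i : ℕ) :
    (flag g p)[i]? = (g[i]?).map (fun a => (a, decide (i = p))) := by
  rw [flag, List.getElem?_mapIdx]

private theorem WinC_sy_get {M : NM K Γ} (c : NC M) (k : K) (a : ℤ) (n i : ℕ) :
    (WinC_sy c k a n)[i]? = if i < n then some (c.2.1 k (a + i)) else none := by
  rw [WinC_sy, List.getElem?_map]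
  by_cases h : i < n
  · rw [if_pos h, List.getElem?_range h]
    rfl
  · rw [if_neg h, List.getElem?_eq_none (by rw [List.length_range]; omega)]
    rfl

private theorem WinC_wn_get {M : NM K Γ} (c : NC M) (k : K) (a : ℤ) (n i : ℕ) :
    (WinC_wn c k a n)[i]? = if i < n then some (ceN c k (a + i)) else none := by
  rw [WinC_wn, List.getElem?_map]
  by_cases h : i < n
  · rw [if_pos h, List.getElem?_range h]
    rfl
  · rw [if_neg h, List.getElem?_eq_none (by rw [List.length_range]; omega)]
    rfl

private theorem WinC_sy_length {M : NM K Γ} (c : NC M) (k : K) (a : ℤ) (n : ℕ) :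
    (WinC_sy c k a n).length = n := by
  rw [WinC_sy, List.length_map, List.length_range]

private theorem WinC_wn_flag {M : NM K Γ} (c : NC M) (k : K) (a : ℤ) (n : ℕ)
    (h : a ≤ c.2.2 k) :
    WinC_wn c k a n = flag (WinC_sy c k a n) (c.2.2 k - a).toNat := by
  refine List.ext_getElem? fun i => ?_
  rw [WinC_wn_get, WinC_flag, WinC_sy_get]
  by_cases hi : i < n
  · rw [if_pos hi, if_pos hi, Option.map_some, ceN]
    have : decide (c.2.2 k = a + i) = decide (i = (c.2.2 k - a).toNat) := by
      apply decide_eq_decide.2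
      omega
    rw [this]
  · rw [if_neg hi, if_neg hi]
    rfl

private theorem WinC_eq {M : NM K Γ} (c : NC M) (k : K) (b : ℕ) (β : ℤ) :
    wN c k b β = WinC_wn c k ((β - 1) * b) (b + b + b) := by
  rw [wN, WinC_wn, List.range_add, List.range_add, List.map_append, List.map_append,
    List.map_map, List.map_map, bN, bN, bN]
  congr 2
  · refine List.map_congr_left fun o _ => ?_
    simp only [Function.comp]
    congr 1
    push_cast
    ring
  · funext o
    simp only [Function.comp]
    congr 1
    push_cast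
    ring

private theorem WinC_step {M : NM K Γ} (c : NC M) (q' : M.S)
    (act : (k : K) → Option (Γ k) × Dir) (k : K) (a : ℤ) (n : ℕ) (h : a ≤ c.2.2 k) :
    WinC_sy (upd c q' act) k a n =
      (WinC_sy c k a n).set (c.2.2 k - a).toNat (act k).1 := by
  refine List.ext_getElem? fun i => ?_
  rw [WinC_sy_get, List.getElem?_set, WinC_sy_get, WinC_sy_length]
  change (if i < n then some (Function.update (c.2.1 k) (c.2.2 k) (act k).1 (a + i)) else none) =
    _
  rw [Function.update_apply]
  by_cases hi : i < n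
  · by_cases h2 : (c.2.2 k - a).toNat = i
    · rw [if_pos hi, if_pos h2, if_pos (by omega), if_pos (by omega)]
    · rw [if_pos hi, if_neg h2, if_neg (by omega), if_pos hi]
  · by_cases h2 : (c.2.2 k - a).toNat = i
    · rw [if_neg hi, if_pos h2, if_neg (by omega)]
    · rw [if_neg hi, if_neg h2, if_neg hi]

private theorem WinC_P {M : NM K Γ} {P : NC M → Prop} {c : NC M} {R : List (RN M)}
    (h : TrN M P c R) : P c := by
  cases h with
  | nil _ h => exact h
  | cons _ _ _ _ h _ _ => exact h

private theorem WinC_sim {M : NM K Γ} {P : NC M → Prop} (k : K) (a : ℤ) (n : ℕ)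
    (hP : ∀ c', P c' → a ≤ c'.2.2 k ∧ c'.2.2 k < a + n) {c : NC M} {R : List (RN M)}
    (h : TrN M P c R) :
    SimR (R.map (opN k)) (WinC_sy c k a n) (c.2.2 k - a).toNat (WinC_sy (exe c R) k a n)
      ((exe c R).2.2 k - a).toNat := by
  induction h with
  | nil c hc =>
    obtain ⟨h1, h2⟩ := hP c hc
    refine SimR.nil _ _ ?_
    rw [WinC_sy_length]
    omega
  | cons c q' act R hc htr hR ih =>
    obtain ⟨h1, h2⟩ := hP c hc
    obtain ⟨h3, h4⟩ := hP _ (WinC_P hR)
    have hm : (upd c q' act).2.2 k = c.2.2 k + (act k).2.toInt := rfl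
    have h5 : a + (((c.2.2 k - a).toNat : ℕ) : ℤ) = c.2.2 k := by omega
    rw [WinC_step c q' act k a n h1] at ih
    change SimR ((c.2.1 k (c.2.2 k), (act k).1, (act k).2) :: R.map (opN k)) _ _
      (WinC_sy (exe (upd c q' act) R) k a n) ((exe (upd c q' act) R).2.2 k - a).toNat
    refine SimR.cons _ _ _ _ _ _ _ ((upd c q' act).2.2 k - a).toNat _ ?_ ?_ ih
    · rw [WinC_sy_get, if_pos (by omega), h5]
    · omega

private theorem WinC_chn {M : NM K Γ} {P : NC M → Prop} {c : NC M} {R : List (RN M)}
    (h : TrN M P c R) : R.foldl (chN M) (some c.1) = some (exe c R).1 := by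
  induction h with
  | nil c hc => rfl
  | cons c q' act R hc htr hR ih =>
    rw [List.foldl_cons]
    have h1 : chN M (some c.1) ((c.1, scN c), (q', act)) = some (upd c q' act).1 := by
      rw [chN, if_pos ⟨rfl, htr⟩]
      rfl
    rw [h1, ih]
    rfl

end

/-- **WinC**: one segment, completeness. -/
theorem tWinC : S_WinC := by
  intro K Γ M b c h R hb hR
  refine ⟨WinC_chn hR, fun k => ?_⟩
  have hP : ∀ c' : NC M, InW M b h c' →
      (h k - 1) * (b : ℤ) ≤ c'.2.2 k ∧ c'.2.2 k < (h k - 1) * (b : ℤ) + (b + b + b : ℕ) := by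
    intro c' hc'
    obtain ⟨h1, h2⟩ := hc' k
    refine ⟨h1, ?_⟩
    have h3 : (h k + 2) * (b : ℤ) = (h k - 1) * (b : ℤ) + (b + b + b : ℕ) := by
      push_cast
      ring
    rw [← h3]
    exact h2
  have hsim := WinC_sim k ((h k - 1) * (b : ℤ)) (b + b + b) hP hR
  have hend : InW M b h (exe c R) := by
    clear hsim hP
    induction hR with
    | nil c hc => exact hc
    | cons c q' act R hc htr hR ih => exact ih
  rw [WinC_eq, WinC_eq, WinC_wn_flag c k _ _ (hP c (WinC_P hR)).1,
    WinC_wn_flag (exe c R) k _ _ (hP _ hend).1]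
  exact ⟨_, _, _, _, rfl, rfl, hsim⟩

end MPdee884H4
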