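import Pool.Agent.Lib.MP_dee884_lc.H4.Spec

/-!
# MP_dee884_lc, H4: one segment, soundness (adapted from H3/Win.lean)
-/

set_option autoImplicit false

namespace MPdee884H4

open MPdee884H1 MPdee884H2 MPdee884H3 Pool.Agent.Lin

namespace WinS_aux

variable {K : Type} {Γ : K → Type}

/-! ### flags -/

theorem flag_get {G : Type} (g : List (Option G)) (p i : ℕ) :
    (flag g p)[i]? = (g[i]?).map (fun a => (a, decide (i = p))) := by
  rw [flag, List.getElem?_mapIdx]

theorem flag_inj {G : Type} {g g2 : List (Option G)} {p p2 : ℕ} (h : flag g p = flag g2 p2)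
    (hp : p < g.length) : g = g2 ∧ p = p2 := by
  have h1 : ∀ i : ℕ, (g[i]?).map (fun a => (a, decide (i = p))) =
      (g2[i]?).map (fun a => (a, decide (i = p2))) := by
    intro i
    rw [← flag_get, ← flag_get, h]
  have hg : g = g2 := by
    refine List.ext_getElem? fun i => ?_
    have h2 := congrArg (Option.map Prod.fst) (h1 i)
    rw [Option.map_map, Option.map_map] at h2
    have h3 : ∀ q : ℕ, (Prod.fst ∘ fun a : Option G => (a, decide (i = q))) = id := by
      intro q
      rfl
    rw [h3, h3, Option.map_id, id, id] at h2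
    exact h2
  refine ⟨hg, ?_⟩
  have h2 := h1 p
  rw [← hg, List.getElem?_eq_getElem hp] at h2
  simp only [Option.map_some, Option.some.injEq, Prod.mk.injEq, true_and] at h2
  by_contra hne
  simp [hne] at h2

/-! ### operations -/

theorem simR_lt {G : Type} {R : List (Op G)} {g g' : List (Option G)} {p p' : ℕ}
    (h : SimR R g p g' p') : p < g.length := by
  cases h with
  | nil _ _ h => exact h
  | cons a b d R g g' p p1 p' h1 h2 h3 =>
    by_contra hcon
    rw [List.getElem?_eq_none (by omega)] at h1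
    cases h1

theorem simR_nil {G : Type} {g g' : List (Option G)} {p p' : ℕ} :
    SimR [] g p g' p' ↔ g' = g ∧ p' = p ∧ p < g.length := by
  constructor
  · intro h
    cases h with
    | nil _ _ h => exact ⟨rfl, rfl, h⟩
  · rintro ⟨rfl, rfl, h⟩
    exact SimR.nil _ _ h

theorem simR_cons {G : Type} {x y : Option G} {d : Dir} {R : List (Op G)}
    {g g' : List (Option G)} {p p' : ℕ} :
    SimR ((x, y, d) :: R) g p g' p' ↔ g[p]? = some x ∧
      ∃ p1 : ℕ, (p1 : ℤ) = p + d.toInt ∧ SimR R (g.set p y) p1 g' p' := by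
  constructor
  · intro h
    cases h with
    | cons a b d R g g' p p1 p' h1 h2 h3 => exact ⟨h1, p1, h2, h3⟩
  · rintro ⟨h1, p1, h2, h3⟩
    exact SimR.cons _ _ _ _ _ _ _ _ _ h1 h2 h3

/-! ### windows -/

/-- the window which begins in the cell `a`, of length `n` -/
def wn {M : NM K Γ} (c : NC M) (k : K) (a : ℤ) (n : ℕ) : List (Option (Γ k) × Bool) :=
  (List.range n).map (fun o : ℕ => ceN c k (a + o))

/-- the symbols of the window -/
def sy {M : NM K Γ} (c : NC M) (k : K) (a : ℤ) (n : ℕ) : List (Option (Γ k)) :=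
  (List.range n).map (fun o : ℕ => c.2.1 k (a + o))

theorem sy_get {M : NM K Γ} (c : NC M) (k : K) (a : ℤ) (n i : ℕ) :
    (sy c k a n)[i]? = if i < n then some (c.2.1 k (a + i)) else none := by
  rw [sy, List.getElem?_map]
  by_cases h : i < n
  · rw [if_pos h, List.getElem?_range h]
    rfl
  · rw [if_neg h, List.getElem?_eq_none (by rw [List.length_range]; omega)]
    rfl

theorem wn_get {M : NM K Γ} (c : NC M) (k : K) (a : ℤ) (n i : ℕ) :
    (wn c k a n)[i]? = if i < n then some (ceN c k (a + i)) else none := by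
  rw [wn, List.getElem?_map]
  by_cases h : i < n
  · rw [if_pos h, List.getElem?_range h]
    rfl
  · rw [if_neg h, List.getElem?_eq_none (by rw [List.length_range]; omega)]
    rfl

theorem sy_length {M : NM K Γ} (c : NC M) (k : K) (a : ℤ) (n : ℕ) : (sy c k a n).length = n := by
  rw [sy, List.length_map, List.length_range]

theorem wn_flag {M : NM K Γ} (c : NC M) (k : K) (a : ℤ) (n : ℕ) (h : a ≤ c.2.2 k) :
    wn c k a n = flag (sy c k a n) (c.2.2 k - a).toNat := by
  refine List.ext_getElem? fun i => ?_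
  rw [wn_get, flag_get, sy_get]
  by_cases hi : i < n
  · rw [if_pos hi, if_pos hi, Option.map_some, ceN]
    have : decide (c.2.2 k = a + i) = decide (i = (c.2.2 k - a).toNat) := by
      apply decide_eq_decide.2
      omega
    rw [this]
  · rw [if_neg hi, if_neg hi]
    rfl

theorem wN_eq {M : NM K Γ} (c : NC M) (k : K) (b : ℕ) (β : ℤ) :
    wN c k b β = wn c k ((β - 1) * b) (b + b + b) := by
  rw [wN, wn, List.range_add, List.range_add, List.map_append, List.map_append, List.map_map,
    List.map_map, bN, bN, bN]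
  congr 2
  · refine List.map_congr_left fun o _ => ?_
    simp only [Function.comp]
    congr 1
    push_cast
    ring
  · funext o
    simp only [Function.comp]
    congr 1
    push_cast
    ring

/-- the head is in the window -/
theorem simW_head {M : NM K Γ} (c : NC M) (k : K) (a : ℤ) (n : ℕ)
    (R : List (Op (Γ k))) (e : List (Option (Γ k) × Bool)) (h : SimW (wn c k a n) R e) :
    (a ≤ c.2.2 k ∧ c.2.2 k < a + n) ∧ ∃ (g' : List (Option (Γ k))) (p' : ℕ), e = flag g' p' ∧
      SimR R (sy c k a n) (c.2.2 k - a).toNat g' p' := by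
  obtain ⟨g, g', p, p', h1, h2, h3⟩ := h
  have hp := simR_lt h3
  have h4 : (wn c k a n)[p]? = (flag g p)[p]? := by rw [h1]
  rw [wn_get, flag_get, List.getElem?_eq_getElem hp, Option.map_some] at h4
  by_cases hn : p < n
  · rw [if_pos hn] at h4
    have h5 := congrArg Prod.snd (Option.some.inj h4)
    simp only [ceN, decide_true, decide_eq_true_eq] at h5
    have h6 : a ≤ c.2.2 k ∧ c.2.2 k < a + n := by omega
    refine ⟨h6, g', p', h2, ?_⟩
    rw [wn_flag c k a n h6.1] at h1
    obtain ⟨h7, h8⟩ := flag_inj h1.symm hp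
    rw [h7, h8] at h3
    exact h3
  · rw [if_neg hn] at h4
    cases h4

theorem sy_step {M : NM K Γ} (c : NC M) (q' : M.S) (u : (k : K) → Option (Γ k) × Dir) (k : K)
    (a : ℤ) (n : ℕ) (h : a ≤ c.2.2 k) :
    sy (upd c q' u) k a n = (sy c k a n).set (c.2.2 k - a).toNat (u k).1 := by
  refine List.ext_getElem? fun i => ?_
  rw [sy_get, List.getElem?_set, sy_get, sy_length]
  change (if i < n then some (Function.update (c.2.1 k) (c.2.2 k) (u k).1 (a + i)) else none) = _
  rw [Function.update_apply]
  by_cases hi : i < n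
  · by_cases h2 : (c.2.2 k - a).toNat = i
    · rw [if_pos hi, if_pos h2, if_pos (by omega), if_pos (by omega)]
    · rw [if_pos hi, if_neg h2, if_neg (by omega), if_pos hi]
  · by_cases h2 : (c.2.2 k - a).toNat = i
    · rw [if_neg hi, if_pos h2, if_neg (by omega)]
    · rw [if_neg hi, if_neg h2, if_neg hi]

/-- one operation on a window -/
theorem simW_cons {M : NM K Γ} (c : NC M) (k : K) (a : ℤ) (n : ℕ) (r : RN M)
    (R : List (Op (Γ k))) (e : List (Option (Γ k) × Bool))
    (h : SimW (wn c k a n) (opN k r :: R) e) :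
    r.1.2 k = scN c k ∧ SimW (wn (upd c r.2.1 r.2.2) k a n) R e := by
  obtain ⟨h0, g', p', h2, h3⟩ := simW_head c k a n _ e h
  rw [opN, simR_cons] at h3
  obtain ⟨h4, p1, h5, h6⟩ := h3
  rw [sy_get, if_pos (by omega)] at h4
  have h7 : a + (((c.2.2 k - a).toNat : ℕ) : ℤ) = c.2.2 k := by omega
  rw [h7] at h4
  refine ⟨(Option.some.inj h4).symm, _, g', p1, p', ?_, h2, h6⟩
  have h8 : (upd c r.2.1 r.2.2).2.2 k = c.2.2 k + (r.2.2 k).2.toInt := rfl
  have h9 : a ≤ (upd c r.2.1 r.2.2).2.2 k := by
    rw [h8]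
    omega
  rw [wn_flag _ k a n h9, sy_step c _ _ k a n h0.1]
  congr 1
  rw [h8]
  omega

theorem foldl_none {M : NM K Γ} (R : List (RN M)) : R.foldl (chN M) none = none := by
  induction R with
  | nil => rfl
  | cons r R ih =>
    have h1 : chN M none r = none := by
      rw [chN, if_neg (by simp)]
    rw [List.foldl_cons, h1, ih]

theorem main {M : NM K Γ} (P : NC M → Prop) (a : K → ℤ) (n : ℕ) (q' : M.S)
    (e : (k : K) → List (Option (Γ k) × Bool))
    (hP : ∀ c : NC M, (∀ k, a k ≤ c.2.2 k ∧ c.2.2 k < a k + n) → P c) (R : List (RN M)) :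
    ∀ (c : NC M), R.foldl (chN M) (some c.1) = some q' →
      (∀ k, SimW (wn c k (a k) n) (R.map (opN k)) (e k)) →
    TrN M P c R ∧ (exe c R).1 = q' ∧ ∀ k, e k = wn (exe c R) k (a k) n := by
  induction R with
  | nil =>
    intro c h1 h2
    have hc : P c := hP c fun k => (simW_head c k (a k) n _ _ (h2 k)).1
    refine ⟨TrN.nil c hc, Option.some.inj h1, fun k => ?_⟩
    obtain ⟨h3, g', p', h4, h5⟩ := simW_head c k (a k) n _ _ (h2 k)
    rw [List.map_nil, simR_nil] at h5
    rw [h4, h5.1, h5.2.1]
    exact (wn_flag c k (a k) n h3.1).symm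
  | cons r R ih =>
    intro c h1 h2
    have hc : P c := hP c fun k => (simW_head c k (a k) n _ _ (h2 k)).1
    have h3 : ∀ k, r.1.2 k = scN c k ∧
        SimW (wn (upd c r.2.1 r.2.2) k (a k) n) (R.map (opN k)) (e k) := by
      intro k
      have h4 := h2 k
      rw [List.map_cons] at h4
      exact simW_cons c k (a k) n r _ _ h4
    rw [List.foldl_cons] at h1
    by_cases h5 : some c.1 = some r.1.1 ∧ M.tr r.1.1 r.1.2 r.2.1 r.2.2
    · have h6 : chN M (some c.1) r = some r.2.1 := by
        rw [chN, if_pos h5]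
      rw [h6] at h1
      obtain ⟨h7, h8, h9⟩ := ih (upd c r.2.1 r.2.2) h1 fun k => (h3 k).2
      have h10 : r.1 = (c.1, scN c) :=
        Prod.ext (Option.some.inj h5.1).symm (funext fun k => (h3 k).1)
      have h11 : r = ((c.1, scN c), (r.2.1, r.2.2)) := Prod.ext h10 rfl
      refine ⟨?_, h8, h9⟩
      rw [h11]
      refine TrN.cons c r.2.1 r.2.2 R hc ?_ h7
      have h12 := h5.2
      rw [h10] at h12
      exact h12
    · have h6 : chN M (some c.1) r = none := by
        rw [chN, if_neg h5]
      rw [h6, foldl_none] at h1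
      cases h1

end WinS_aux

open WinS_aux

theorem tWinS : S_WinS := by
  intro K Γ M b c h R q' e hb h1 h2
  have h3 := main (M := M) (InW M b h) (fun k => (h k - 1) * b) (b + b + b) q' e (by
    intro c' h4 k
    obtain ⟨h5, h6⟩ := h4 k
    refine ⟨h5, lt_of_lt_of_le h6 (le_of_eq ?_)⟩
    push_cast
    ring) R c h1 (fun k => by
      have h4 := h2 k
      rw [wN_eq] at h4
      exact h4)
  simp only [wN_eq]
  exact h3

end MPdee884H4
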