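import Pool.Agent.Lib.MP_dee884_lc.H3.Final
import Pool.Agent.Lib.MP_dee884_lc.H4.Bas
import Pool.Agent.Lib.MP_dee884_lc.H4.Mv
import Pool.Agent.Lib.MP_dee884_lc.H4.Kp
import Pool.Agent.Lib.MP_dee884_lc.H4.Ro
import Pool.Agent.Lib.MP_dee884_lc.H4.Tm
import Pool.Agent.Lib.MP_dee884_lc.H4.WinS
import Pool.Agent.Lib.MP_dee884_lc.H4.WinC
import Pool.Agent.Lib.MP_dee884_lc.H4.SndN
import Pool.Agent.Lib.MP_dee884_lc.H4.CplN
import Pool.Agent.Lib.MP_dee884_lc.H4.Ed
import Pool.Agent.Lib.MP_dee884_lc.H4.GluS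
import Pool.Agent.Lib.MP_dee884_lc.H4.GluC
import Pool.Agent.Lib.MP_dee884_lc.H4.Cgr
import Pool.Agent.Lib.MP_dee884_lc.H4.Cmb
import Pool.Agent.Lib.MP_dee884_lc.H4.ExY
import Pool.Agent.Lib.MP_dee884_lc.H4.ExZ
import Pool.Agent.Lib.MP_dee884_lc.H4.RgI
import Pool.Agent.Lib.MP_dee884_lc.H4.RecN
import Pool.Agent.Lib.MP_dee884_lc.H4.IncN
import Pool.Agent.Lib.MP_dee884_lc.H4.AdvD
import Pool.Agent.Lib.MP_dee884_lc.H4.NonU2

/-!
# MP_dee884_lc, H4: the theorem
-/

namespace MPdee884H4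

open MPdee884H1 MPdee884H2 MPdee884H3 Pool.Agent.Lin

/-- each language which is accepted in linear time with o(n) cells on all work tapes but one is in
the level 5 over one work tape -/
theorem almost_cls {ρ : Type} {B : ρ → Type} (E : (i : ρ) → Set (List (B i × Bool))) {k : ℕ}
    (hk : 2 ≤ k) {A : Type} {L : Set (List A)} (hL : AlmostOne L) : Cls E k 5 A L := by
  have hEq : S_EqS := tEqS tTR tPair tScan
  have hReg : S_RegS := tRegS tTR tRegL tScan
  have hL' : AlmostOneTape L := by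
    obtain ⟨s, hs, hA, K, hK, Γ, hΓ, I, k1, emb, M, c, h1, h2, h3, h4⟩ := hL
    exact ⟨hA, K, hK, Γ, hΓ, I, k1, emb, M, c, s, h1, h2, hs, h3, h4⟩
  exact tIncN tTm (tSndN tBas tKp tRo tWinS) (tCplN tBas tMv tKp tRo tWinC) (tGluS tEd) tGluC tCgr
    tCmb0 tEd (tExY tCode) (tExZ tCode)
    (tRecN (tRgI (tXS1 tTR tPair tScan) (tXS2 tTR tPair tScan) hEq tCode hReg) hEq hReg
      (tSimS tTR tSimL tScan) tRegL) tRegL (tMkL tTR tPair tRegL) E k L hk hL'

theorem clsB_cls {ρ : Type} {B : ρ → Type} {E : (i : ρ) → Set (List (B i × Bool))} {k : ℕ}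
    (hk : 2 ≤ k) {j : ℕ} {A : Type} {L : Set (List A)} (h : ClsB E k j A L) :
    Cls E k (j + 5) A L := by
  induction h with
  | cf L h => exact Cls.cf L h
  | tape L h => exact cls_le (almost_cls E hk h) (by omega)
  | lin L h => exact cls_le (lintime_cls E hk h) (by omega)
  | slice i f u => exact Cls.slice i f u
  | compl L _ ih => exact Cls.compl _ ih
  | union L M _ _ ih1 ih2 => exact Cls.union _ _ ih1 ih2
  | @ex j A M _ ih =>
    have h := Cls.ex M ih
    have e : j + 5 + 1 = j + 1 + 5 := by omega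
    rwa [e] at h

/-- RUD is not captured with bounded quantifiers over linear time with o(n) cells on all work tapes
but one, not even with advice of length `(1 - 1/D) n` -/
theorem rud_clsB {ρ : Type} [Finite ρ] {B : ρ → Type} [∀ i, Finite (B i)]
    (E : (i : ρ) → Set (List (B i × Bool))) (hE : ∀ i, Rud (B i × Bool) (E i)) (k j : ℕ) :
    ∃ U : Set (List Bool), Rud Bool U ∧
      (∀ L : Set (List Bool), ClsB E (k + 2) j Bool L →
        ∃ w : List Bool, ∀ r : List Bool, w ++ r ∈ U ↔ w ++ r ∉ L) ∧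
      ∀ L : Set (List (Bool × Fin (k + 2))), ClsB E (k + 2) j (Bool × Fin (k + 2)) L →
        ∀ D : ℕ, 1 ≤ D → ∃ w : List Bool, ∀ x a : List Bool, w <+: x →
          a.length = x.length - x.length / D → a <:+ x → (x ∈ U ↔ withAdvice k x a ∉ L) := by
  obtain ⟨U, hU, h⟩ := MPdee884H2.main tWcf tLvl tLab tSh (tParCF tWcf) tSound (tComp tCnt)
    (tFold tRudInv) E hE (k + 2) (j + 6)
  have hk : 2 ≤ k + 2 := by omega
  refine ⟨U, hU, fun L hL => h L (cls_le (clsB_cls hk hL) (by omega)), fun L hL D hD => ?_⟩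
  exact nonU2 tAdvD (E := E) (j := j) (fun L' hL' => h L' hL') (clsB_cls hk hL) D hD

end MPdee884H4
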