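import Pool.Agent.Lib.MP_dee884_lc.H4.Spec

/-!
# MP_dee884_lc, H4: module GluS

Gluing the data of the classes.
-/

namespace MPdee884H4

open MPdee884H1 MPdee884H2 MPdee884H3 Pool.Agent.Lin

theorem tGluS : S_Ed → S_GluS := by
  intro hEd K Γ M I k1 τ b N nC nG h q J J2 cl gr Y1 hcg hedge hgood
  -- choose the second words and the data
  have h1 : ∀ i : ℕ, ∃ Y2 : ℕ → (k : K) → Fin 3 → List (Option (Γ k) × Bool),
      ∀ j : ℕ, ∃ d : DatN M, i < nC → j < nG →
        GoodN M I k1 τ b h q (J ∪ J2 i) (Yc J Y1 Y2) d (cls N cl gr i j) := by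
    intro i
    by_cases hi : i < nC
    · obtain ⟨Y2, hY2⟩ := hgood i hi
      refine ⟨Y2, fun j => ?_⟩
      by_cases hj : j < nG
      · obtain ⟨d, hd⟩ := hY2 j hj
        exact ⟨d, fun _ _ => hd⟩
      · exact ⟨⟨fun _ _ _ => [], fun _ => [], fun _ _ _ => []⟩, fun _ hj' => absurd hj' hj⟩
    · exact ⟨fun _ _ _ => [], fun j =>
        ⟨⟨fun _ _ _ => [], fun _ => [], fun _ _ _ => []⟩, fun hi' => absurd hi' hi⟩⟩
  choose Y2 h2 using h1
  choose d hd using h2
  have hG : ∀ w, w < N → GoodN M I k1 τ b h q (J ∪ J2 (cl w)) (Yc J Y1 (Y2 (cl w)))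
      (d (cl w) (gr w)) (cls N cl gr (cl w) (gr w)) := fun w hw =>
    hd (cl w) (gr w) (hcg w hw).1 (hcg w hw).2
  have hmem : ∀ w, w < N → w ∈ cls N cl gr (cl w) (gr w) := by
    intro w hw
    simp [cls, hw]
  refine ⟨⟨fun w => (d (cl w) (gr w)).sc w, fun w => (d (cl w) (gr w)).rc w,
    fun w => (d (cl w) (gr w)).ec w⟩, ?_⟩
  intro w hw
  have L := (hG w hw).loc w (hmem w hw)
  exact
    { lsc := L.lsc
      lrc := L.lrc
      lec := L.lec
      sim := L.sim
      fl0 := L.fl0
      fl2 := L.fl2
      fl1 := L.fl1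
      chn := L.chn
      prY := fun k e u e' _ hu => absurd hu (Finset.notMem_empty u)
      prI := L.prI
      prE := by
        intro k e u e' hsrc _
        obtain ⟨hed, hlt⟩ := hEd I k1 h k e u w e' hsrc
        have huN : u < N := hlt.trans hw
        have Tu := (hG u huN).top u (hmem u huN)
        change (d (cl w) (gr w)).sc w k e = (d (cl u) (gr u)).ec u k e'
        by_cases huJ : u ∈ J
        · rw [L.prY k e u e' hsrc (Finset.mem_union_left _ huJ),
            Tu (Finset.mem_union_left _ huJ) k e']
          simp only [Yc, if_pos huJ]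
        · rcases hedge u w hw hed with h3 | ⟨h3, h4⟩
          · exact absurd h3 huJ
          · by_cases hu2 : u ∈ J2 (cl w)
            · have hu3 : u ∈ J2 (cl u) := by rw [h3]; exact hu2
              rw [L.prY k e u e' hsrc (Finset.mem_union_right _ hu2),
                Tu (Finset.mem_union_right _ hu3) k e']
              simp only [Yc, if_neg huJ, h3]
            · have h5 : gr u = gr w := by
                rcases h4 with h4 | h4
                · exact h4
                · exact absurd h4 hu2
              have h6 : u ∉ J ∪ J2 (cl w) := by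
                intro h7
                rcases Finset.mem_union.mp h7 with h8 | h8
                · exact huJ h8
                · exact hu2 h8
              rw [L.prE k e u e' hsrc h6, h3, h5] }

end MPdee884H4
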