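import Pool.Agent.Lib.MP_dee884_lc.H4.Spec3
import Pool.Agent.Lib.MP_dee884_lc.QC
import Pool.Agent.Lib.MP_dee884_lc.Init

/-!
# MP_dee884_lc, H4: nondeterministic linear time is in Q
-/

namespace MPdee884H4

open MPdee884H1 MPdee884H2 MPdee884H3 Pool.Agent.Lin

private theorem NQ_finDir : Finite Dir := by
  refine Finite.of_injective (fun d : Dir => (⟨(d.toInt + 1).toNat, ?_⟩ : Fin 3)) ?_
  · cases d <;> simp [Dir.toInt]
  · intro d d' h
    cases d <;> cases d' <;> simp [Dir.toInt] at h ⊢

/-- the alphabets: steps on the tape `none` -/
private def NQ_G {K : Type} (γ : Type) (Γ : K → Type) : Option K → Type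
  | none => γ
  | some k => Γ k

section

variable {K : Type} {Γ : K → Type}

/-- a step of `M` -/
private abbrev NQ_st (M : NM K Γ) : Type := M.S × ((k : K) → Option (Γ k) × Dir)

open Classical in
/-- the value of a list of steps -/
private noncomputable def NQ_run (M : NM K Γ) : NC M → List (NQ_st M) → Bool
  | c, [] => decide (M.acc c.1)
  | c, s :: v => if M.tr c.1 (scN c) s.1 s.2 then NQ_run M (upd c s.1 s.2) v else false

private theorem NQ_sound (M : NM K Γ) (v : List (NQ_st M)) : ∀ c : NC M, NQ_run M c v = true →
    M.Acc (fun _ => True) v.length c := by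
  induction v with
  | nil =>
    intro c h
    simp only [NQ_run, decide_eq_true_eq] at h
    exact NM.Acc.done c trivial h
  | cons s v ih =>
    intro c h
    simp only [NQ_run] at h
    split_ifs at h with h1
    exact NM.Acc.step v.length c s.1 s.2 trivial h1 (ih _ h)

private theorem NQ_complete (M : NM K Γ) {n : ℕ} {c : NC M} (h : M.Acc (fun _ => True) n c) :
    ∃ v : List (NQ_st M), v.length = n ∧ NQ_run M c v = true := by
  induction h with
  | done c _ hc =>
    refine ⟨[], rfl, ?_⟩
    simp only [NQ_run, decide_eq_true_eq]
    exact hc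
  | step n c q' a _ htr _ ih =>
    obtain ⟨v, hv, hr⟩ := ih
    refine ⟨(q', a) :: v, by rw [List.length_cons, hv], ?_⟩
    simp only [NQ_run]
    have htr' : M.tr c.1 (scN c) q' a := htr
    rw [if_pos htr']
    exact hr

open Classical in
/-- the deterministic machine which checks the steps -/
private noncomputable def NQ_M (M : NM K Γ) : TM (Option K) (NQ_G (NQ_st M) Γ) where
  S := M.S ⊕ Bool
  fin := by
    have := M.fin
    infer_instance
  start := Sum.inl M.start
  out := fun q => match q with
    | Sum.inl _ => none
    | Sum.inr b => some b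
  step := fun q v => match q with
    | Sum.inl q => match (v none : Option (NQ_st M)) with
      | some s =>
        if M.tr q (fun k => v (some k)) s.1 s.2 then
          (Sum.inl s.1, fun o => match o with
            | none => (v none, Dir.right)
            | some k => s.2 k)
        else (Sum.inr false, fun o => (v o, Dir.stay))
      | none => (Sum.inr (decide (M.acc q)), fun o => (v o, Dir.stay))
    | Sum.inr b => (Sum.inr b, fun o => (v o, Dir.stay))

private theorem NQ_stay {Γ' : Type} (t : Tp Γ') : wm t (t 0) Dir.stay = t := by
  funext i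
  unfold wm
  simp only [Dir.toInt, add_zero]
  split_ifs with h
  · rw [h]
  · rfl

private theorem NQ_sim (M : NM K Γ) (v : List (NQ_st M)) : ∀ (c : NC M)
    (t : (o : Option K) → Tp (NQ_G (NQ_st M) Γ o)), (∀ i : ℕ, (t none : Tp (NQ_st M)) i = v[i]?) →
    (∀ (k : K) (i : ℤ), (t (some k) : Tp (Γ k)) i = c.2.1 k (i + c.2.2 k)) →
    ∃ n ≤ v.length + 1, ∃ (q' : (NQ_M M).S) (t' : (o : Option K) → Tp (NQ_G (NQ_st M) Γ o)),
      Steps (NQ_M M) n ((Sum.inl c.1 : M.S ⊕ Bool), t) (q', t') ∧
        (NQ_M M).out q' = some (NQ_run M c v) := by
  induction v with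
  | nil =>
    intro c t h0 hk
    have h1 : (t none : Tp (NQ_st M)) 0 = none := h0 0
    refine ⟨1, by simp, (Sum.inr (NQ_run M c []) : M.S ⊕ Bool), t, ?_, rfl⟩
    refine Steps.succ 0 _ _ rfl ?_
    have h2 : (NQ_M M).next ((Sum.inl c.1 : M.S ⊕ Bool), t) =
        ((Sum.inr (NQ_run M c []) : M.S ⊕ Bool), t) := by
      have h3 : (NQ_M M).step (Sum.inl c.1 : M.S ⊕ Bool) (fun o => t o 0) =
          ((Sum.inr (NQ_run M c []) : M.S ⊕ Bool), fun o => (t o 0, Dir.stay)) := by
        simp only [NQ_M, NQ_run]
        split
        · rename_i s hs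
          exact absurd (h1.symm.trans hs) (by simp)
        · rfl
      unfold TM.next
      simp only
      rw [h3]
      refine Prod.ext rfl ?_
      funext o
      exact NQ_stay _
    rw [h2]
    exact Steps.zero _
  | cons s v ih =>
    intro c t h0 hk
    have h1 : (t none : Tp (NQ_st M)) 0 = some s := h0 0
    have hsc : (fun k => (t (some k) : Tp (Γ k)) 0) = scN c := by
      funext k
      rw [hk k 0, zero_add]
      rfl
    by_cases htr : M.tr c.1 (scN c) s.1 s.2
    · let t1 : (o : Option K) → Tp (NQ_G (NQ_st M) Γ o) := fun o => match o with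
        | none => wm (t none) (t none 0) Dir.right
        | some k => wm (t (some k)) (s.2 k).1 (s.2 k).2
      have h2 : (NQ_M M).next ((Sum.inl c.1 : M.S ⊕ Bool), t) =
          ((Sum.inl s.1 : M.S ⊕ Bool), t1) := by
        have h3 : (NQ_M M).step (Sum.inl c.1 : M.S ⊕ Bool) (fun o => t o 0) =
            ((Sum.inl s.1 : M.S ⊕ Bool), fun o => match o with
              | none => (t none 0, Dir.right)
              | some k => s.2 k) := by
          simp only [NQ_M]
          split
          · rename_i s' hs
            have hss : s' = s := Option.some.inj (hs.symm.trans h1)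
            subst hss
            have : M.tr c.1 (fun k => (t (some k) : Tp (Γ k)) 0) s'.1 s'.2 := by
              rw [hsc]
              exact htr
            rw [if_pos this]
          · rename_i hs
            exact absurd (h1.symm.trans hs) (by simp)
        unfold TM.next
        simp only
        rw [h3]
        refine Prod.ext rfl ?_
        funext o
        rcases o with _ | k <;> rfl
      obtain ⟨n, hn, q', t', hst, hout⟩ := ih (upd c s.1 s.2) t1 (by
        intro i
        have h4 : (t1 none : Tp (NQ_st M)) i = (t none : Tp (NQ_st M)) (i + 1) := by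
          change wm (t none) (t none 0) Dir.right (i : ℤ) = _
          unfold wm
          simp only [Dir.toInt]
          rw [if_neg (by omega)]
        rw [h4]
        have h5 := h0 (i + 1)
        push_cast at h5
        rw [h5, List.getElem?_cons_succ]) (by
        intro k i
        change wm (t (some k)) (s.2 k).1 (s.2 k).2 i = Function.update (c.2.1 k) (c.2.2 k) (s.2 k).1
          (i + (c.2.2 k + (s.2 k).2.toInt))
        unfold wm
        split_ifs with h6
        · have h7 : i + (c.2.2 k + (s.2 k).2.toInt) = c.2.2 k := by omega
          rw [h7, Function.update_self]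
        · rw [Function.update_of_ne (by omega)]
          refine (hk k _).trans ?_
          rw [show i + (s.2 k).2.toInt + c.2.2 k = i + (c.2.2 k + (s.2 k).2.toInt) by ring])
      refine ⟨n + 1, by rw [List.length_cons]; omega, q', t', ?_, ?_⟩
      · refine Steps.succ n _ _ rfl ?_
        rw [h2]
        exact hst
      · rw [hout]
        simp only [NQ_run]
        rw [if_pos htr]
    · refine ⟨1, by simp, (Sum.inr false : M.S ⊕ Bool), t, ?_, ?_⟩
      · refine Steps.succ 0 _ _ rfl ?_
        have h2 : (NQ_M M).next ((Sum.inl c.1 : M.S ⊕ Bool), t) =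
            ((Sum.inr false : M.S ⊕ Bool), t) := by
          have h3 : (NQ_M M).step (Sum.inl c.1 : M.S ⊕ Bool) (fun o => t o 0) =
              ((Sum.inr false : M.S ⊕ Bool), fun o => (t o 0, Dir.stay)) := by
            simp only [NQ_M]
            split
            · rename_i s' hs
              have hss : s' = s := Option.some.inj (hs.symm.trans h1)
              subst hss
              have : ¬ M.tr c.1 (fun k => (t (some k) : Tp (Γ k)) 0) s'.1 s'.2 := by
                rw [hsc]
                exact htr
              rw [if_neg this]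
            · rename_i hs
              exact absurd (h1.symm.trans hs) (by simp)
          unfold TM.next
          simp only
          rw [h3]
          refine Prod.ext rfl ?_
          funext o
          exact NQ_stay _
        rw [h2]
        exact Steps.zero _
      · simp only [NQ_run]
        rw [if_neg htr]
        rfl

private theorem NQ_len {A γ : Type} (z : List (A ⊕ γ)) : (z.flatMap sR).length ≤ z.length := by
  have := flatMap_len (sR : A ⊕ γ → List γ) 1 (by rintro (a | c) <;> simp [sR]) z
  omega

open Classical in
/-- the homomorphisms for the initial tapes -/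
private noncomputable def NQ_F {A : Type} (M : NM K Γ) (I : Set K) (emb : (k : K) → A → Γ k) :
    (o : Option K) → MP (A ⊕ NQ_st M) (NQ_G (NQ_st M) Γ o)
  | none => MP.hom sR
  | some k => if k ∈ I then MP.hom (fun z => (sL z).map (emb k)) else []

end

theorem tNQ : S_NQ := by
  intro A L hL
  obtain ⟨hA, K, hK, Γ, hΓ, I, emb, M, c, hro, hc, hs⟩ := hL
  have := M.fin
  have := NQ_finDir
  have hfinG : ∀ o, Finite (NQ_G (NQ_st M) Γ o) := by
    rintro (_ | k)
    · exact (inferInstance : Finite (NQ_st M))
    · exact (hΓ k)
  let R : Set (List (A ⊕ NQ_st M)) :=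
    {z | NQ_run M (M.start, ini I emb (z.flatMap sL), fun _ => 0) (z.flatMap sR) = true}
  have hmem : ∀ (x : List A) (v : List (NQ_st M)), x.map Sum.inl ++ v.map Sum.inr ∈ R ↔
      NQ_run M (M.start, ini I emb x, fun _ => 0) v = true := by
    intro x v
    change NQ_run M (M.start, ini I emb ((x.map Sum.inl ++ v.map Sum.inr).flatMap sL), fun _ => 0)
      ((x.map Sum.inl ++ v.map Sum.inr).flatMap sR) = true ↔ _
    rw [fm_sL, fm_sR]
  have hR : LINTIME R := by
    refine init_lintime (Γ := NQ_G (NQ_st M) Γ) (NQ_F M I emb) R ⟨NQ_M M, 1, fun z => ?_⟩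
    obtain ⟨n, hn, q', t', hst, hout⟩ := NQ_sim M (z.flatMap sR)
      (M.start, ini I emb (z.flatMap sL), fun _ => 0)
      (fun o => tapeOf ((NQ_F M I emb o).val z)) (by
        intro i
        change tapeOf ((MP.hom sR).val z) (i : ℤ) = _
        rw [MP.hom_val]
        unfold tapeOf
        rw [if_pos (by omega), Int.toNat_natCast]) (by
        intro k i
        simp only [add_zero]
        unfold ini
        by_cases hk : k ∈ I
        · rw [if_pos hk]
          have h1 : NQ_F M I emb (some k) = MP.hom (fun z => (sL z).map (emb k)) := by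
            simp only [NQ_F]
            rw [if_pos hk]
            rfl
          rw [h1]
          have h2 : (MP.hom (fun z : A ⊕ NQ_st M => (sL z).map (emb k))).val z =
              (z.flatMap sL).map (emb k) := by
            rw [MP.hom_val, List.map_flatMap]
          exact congrFun (congrArg tapeOf h2) i
        · rw [if_neg hk]
          have h1 : NQ_F M I emb (some k) = [] := by
            simp only [NQ_F]
            rw [if_neg hk]
          rw [h1]
          change tapeOf ([] : List (Γ k)) i = none
          unfold tapeOf
          simp)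
    refine ⟨n, ?_, t', _, ⟨q', hst, hout⟩, Iff.rfl⟩
    have := NQ_len z
    omega
  refine Cert.inQ ⟨NQ_st M, inferInstance, R, c, hR, fun x hx => ?_, fun x v hv => ?_⟩
  · obtain ⟨n, hn, hacc⟩ := hc x hx
    obtain ⟨v, hv, hrun⟩ := NQ_complete M hacc
    exact ⟨v, by rw [hv]; exact hn, (hmem x v).2 hrun⟩
  · exact hs v.length x (NQ_sound M v _ ((hmem x v).1 hv))

end MPdee884H4
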