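import Pool.Agent.Lib.MP_dee884_lc.H4.Spec3
import Pool.Agent.Lib.MP_dee884_lc.QC

/-!
# MP_dee884_lc, H4: Q is accepted in nondeterministic linear time
-/

namespace MPdee884H4

open MPdee884H1 MPdee884H2 MPdee884H3 Pool.Agent.Lin

namespace QN_aux

theorem invN {K : Type} {Γ : K → Type} (M : NM K Γ) (P : NC M → Prop) (n : ℕ) (c : NC M)
    (h : M.Acc P n c) : (n = 0 ∧ M.acc c.1) ∨
    ∃ (n' : ℕ) (q' : M.S) (a : (k : K) → Option (Γ k) × Dir), n = n' + 1 ∧
      M.tr c.1 (fun k => c.2.1 k (c.2.2 k)) q' a ∧ M.Acc P n' (upd c q' a) := by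
  match n, c, h with
  | _, _, NM.Acc.done _ _ hq => exact Or.inl ⟨rfl, hq⟩
  | _, _, NM.Acc.step n _ q' a _ htr h => exact Or.inr ⟨n, q', a, rfl, htr, h⟩

section

variable {A γ K0 : Type} {Γ0 : K0 → Type}

/-- the alphabets -/
def Gm (A : Type) {K0 : Type} (Γ0 : K0 → Type) : Option K0 → Type
  | none => A
  | some k => A ⊕ Γ0 k

/-- the letter maps -/
def embN : (k : Option K0) → A → Gm A Γ0 k
  | none => fun a => a
  | some _ => Sum.inl

theorem ini_pos {K : Type} {Γ : K → Type} (I : Set K) (emb : (k : K) → A → Γ k) (x : List A)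
    (k : K) (h : k ∈ I) : ini I emb x k = tapeOf (x.map (emb k)) := by
  unfold ini
  exact if_pos h

theorem ini_neg {K : Type} {Γ : K → Type} (I : Set K) (emb : (k : K) → A → Γ k) (x : List A)
    (k : K) (h : k ∉ I) : ini I emb x k = fun _ => none := by
  unfold ini
  exact if_neg h

/-- the tapes -/
noncomputable def tps (k0 : K0) (x : List A) (w : List (Γ0 k0)) :
    (k : Option K0) → ℤ → Option (Gm A Γ0 k)
  | none => tapeOf x
  | some k => fun j => (inp k0 w k j).map Sum.inr

open Classical in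
/-- the positions -/
noncomputable def pss (k0 : K0) (i p : ℤ) : Option K0 → ℤ
  | none => i
  | some k => if k = k0 then p else 0

open Classical in
/-- the actions of the first phases -/
noncomputable def acN (k0 : K0) (v : (k : Option K0) → Option (Gm A Γ0 k)) (d0 : Dir)
    (s : Option (A ⊕ Γ0 k0)) (d : Dir) : (k : Option K0) → Option (Gm A Γ0 k) × Dir
  | none => (v none, d0)
  | some k => Function.update
      (fun k => ((v (some k), Dir.stay) : Option (Gm A Γ0 (some k)) × Dir)) k0 (s, d) k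

/-- the letters of the tapes of the given machine -/
def prj {X Y : Type} : Option (X ⊕ Y) → Option Y
  | none => none
  | some (Sum.inl _) => none
  | some (Sum.inr g) => some g

theorem prj_map {X Y : Type} (o : Option Y) : prj (o.map (Sum.inr : Y → X ⊕ Y)) = o := by
  cases o <;> rfl

/-- the scanned symbols -/
def pv (v : (k : Option K0) → Option (Gm A Γ0 k)) : (k : K0) → Option (Γ0 k) :=
  fun k => prj (X := A) (Y := Γ0 k) (v (some k))

/-- the actions of the last phase -/
def acM (M0 : TM K0 Γ0) (q : M0.S) (v : (k : Option K0) → Option (Gm A Γ0 k)) :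
    (k : Option K0) → Option (Gm A Γ0 k) × Dir
  | none => (v none, Dir.stay)
  | some k => ((((M0.step q (pv v)).2 k).1.map Sum.inr : Option (A ⊕ Γ0 k)),
      ((M0.step q (pv v)).2 k).2)

/-- the transitions -/
def trN (k0 : K0) (e0 : A ⊕ γ → Γ0 k0) (M0 : TM K0 Γ0) :
    (Fin 3 ⊕ M0.S) → ((k : Option K0) → Option (Gm A Γ0 k)) → (Fin 3 ⊕ M0.S) →
      ((k : Option K0) → Option (Gm A Γ0 k) × Dir) → Prop
  | Sum.inl q, v, q', a =>
    (q = 0 ∧ ∃ x0 : A, v none = some x0 ∧ q' = Sum.inl 0 ∧
      a = acN k0 v Dir.right (some (Sum.inr (e0 (Sum.inl x0)))) Dir.right) ∨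
    (q = 0 ∧ v none = none ∧ q' = Sum.inl 1 ∧ a = acN k0 v Dir.stay (v (some k0)) Dir.stay) ∨
    (q = 1 ∧ ∃ g : γ, q' = Sum.inl 1 ∧
      a = acN k0 v Dir.stay (some (Sum.inr (e0 (Sum.inr g)))) Dir.right) ∨
    (q = 1 ∧ q' = Sum.inl 2 ∧ a = acN k0 v Dir.stay (v (some k0)) Dir.left) ∨
    (q = 2 ∧ v (some k0) ≠ none ∧ q' = Sum.inl 2 ∧
      a = acN k0 v Dir.stay (v (some k0)) Dir.left) ∨
    (q = 2 ∧ v (some k0) = none ∧ q' = Sum.inr M0.start ∧
      a = acN k0 v Dir.stay (v (some k0)) Dir.right)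
  | Sum.inr q, v, q', a => M0.out q = none ∧ q' = Sum.inr (M0.step q (pv v)).1 ∧ a = acM M0 q v

/-- the machine -/
def mN (k0 : K0) (e0 : A ⊕ γ → Γ0 k0) (M0 : TM K0 Γ0) : NM (Option K0) (Gm A Γ0) where
  S := Fin 3 ⊕ M0.S
  fin := by
    have := M0.fin
    infer_instance
  start := Sum.inl 0
  acc := fun q => match q with
    | Sum.inl _ => False
    | Sum.inr q => M0.out q = some true
  tr := trN k0 e0 M0

variable (k0 : K0) (e0 : A ⊕ γ → Γ0 k0) (M0 : TM K0 Γ0)

/-- configurations -/
noncomputable def cf (q : Fin 3 ⊕ M0.S) (x : List A) (w : List (Γ0 k0)) (i p : ℤ) :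
    NC (mN k0 e0 M0) := (q, tps k0 x w, pss k0 i p)

/-- acceptance -/
def Ac (n : ℕ) (c : NC (mN k0 e0 M0)) : Prop := (mN k0 e0 M0).Acc (fun _ => True) n c

/-- scanned symbols -/
noncomputable def sc (x : List A) (w : List (Γ0 k0)) (i p : ℤ) :
    (k : Option K0) → Option (Gm A Γ0 k) := fun k => tps k0 x w k (pss k0 i p k)

theorem sc_none (x : List A) (w : List (Γ0 k0)) (i p : ℤ) :
    sc k0 x w i p none = tapeOf x i := rfl

open Classical in
theorem inp_self (w : List (Γ0 k0)) : inp k0 w k0 = tapeOf w := by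
  unfold inp
  rw [Function.update_self]

open Classical in
theorem inp_ne (w w' : List (Γ0 k0)) (k : K0) (h : k ≠ k0) : inp k0 w k = inp k0 w' k := by
  unfold inp
  rw [Function.update_of_ne h, Function.update_of_ne h]

open Classical in
theorem sc_some (x : List A) (w : List (Γ0 k0)) (i p : ℤ) :
    sc k0 x w i p (some k0) = (tapeOf w p).map Sum.inr := by
  change (inp k0 w k0 (if k0 = k0 then p else 0)).map Sum.inr = _
  rw [if_pos rfl, inp_self]

open Classical in
theorem upd_gen (q q' : Fin 3 ⊕ M0.S) (x : List A) (w w' : List (Γ0 k0)) (i p i' p' : ℤ)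
    (d0 d : Dir) (s : Option (A ⊕ Γ0 k0))
    (hs : Function.update (fun j => (tapeOf w j).map (Sum.inr : Γ0 k0 → A ⊕ Γ0 k0)) p s =
      fun j => (tapeOf w' j).map Sum.inr) (hi : i' = i + d0.toInt) (hp : p' = p + d.toInt) :
    upd (cf k0 e0 M0 q x w i p) q' (acN k0 (sc k0 x w i p) d0 s d) = cf k0 e0 M0 q' x w' i' p' := by
  subst hi hp
  refine Prod.ext rfl (Prod.ext ?_ ?_)
  · funext k
    cases k with
    | none => exact Function.update_eq_self _ _
    | some k =>
      by_cases h : k = k0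
      · subst h
        change Function.update (fun j => (inp k w k j).map Sum.inr) (if k = k then p else 0)
          (Function.update (fun k' => ((sc k x w i p (some k'), Dir.stay) :
            Option (Gm A Γ0 (some k')) × Dir)) k (s, d) k).1 = fun j => (inp k w' k j).map Sum.inr
        rw [Function.update_self, if_pos rfl, inp_self, inp_self]
        exact hs
      · change Function.update (fun j => (inp k0 w k j).map Sum.inr) (if k = k0 then p else 0)
          (Function.update (fun k' => ((sc k0 x w i p (some k'), Dir.stay) :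
            Option (Gm A Γ0 (some k')) × Dir)) k0 (s, d) k).1 = fun j => (inp k0 w' k j).map Sum.inr
        rw [Function.update_of_ne h, inp_ne k0 w w' k h]
        have e : sc k0 x w i p (some k) = (fun j => ((inp k0 w' k j).map Sum.inr :
            Option (A ⊕ Γ0 k))) (if k = k0 then p else 0) := by
          change (inp k0 w k (if k = k0 then p else 0)).map Sum.inr =
            ((inp k0 w' k (if k = k0 then p else 0)).map Sum.inr : Option (A ⊕ Γ0 k))
          rw [inp_ne k0 w w' k h]
        exact Eq.trans (congrArg (Function.update (fun j => ((inp k0 w' k j).map Sum.inr :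
          Option (A ⊕ Γ0 k))) (if k = k0 then p else 0)) e) (Function.update_eq_self _ _)
  · funext k
    cases k with
    | none => rfl
    | some k =>
      by_cases h : k = k0
      · subst h
        change (if k = k then p else 0) + (Function.update (fun k' =>
          ((sc k x w i p (some k'), Dir.stay) :
            Option (Gm A Γ0 (some k')) × Dir)) k (s, d) k).2.toInt = if k = k then p + d.toInt else 0
        rw [Function.update_self, if_pos rfl, if_pos rfl]
      · change (if k = k0 then p else 0) + (Function.update (fun k' =>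
          ((sc k0 x w i p (some k'), Dir.stay) :
            Option (Gm A Γ0 (some k')) × Dir)) k0 (s, d) k).2.toInt = if k = k0 then p + d.toInt else 0
        rw [Function.update_of_ne h, if_neg h, if_neg h]
        rfl

/-- nothing is printed -/
theorem upd_id (q q' : Fin 3 ⊕ M0.S) (x : List A) (w : List (Γ0 k0)) (i p i' p' : ℤ)
    (d0 d : Dir) (hi : i' = i + d0.toInt) (hp : p' = p + d.toInt) :
    upd (cf k0 e0 M0 q x w i p) q' (acN k0 (sc k0 x w i p) d0 (sc k0 x w i p (some k0)) d) =
      cf k0 e0 M0 q' x w i' p' := by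
  apply upd_gen k0 e0 M0 q q' x w w i p i' p' d0 d _ _ hi hp
  rw [sc_some]
  exact Function.update_eq_self _ _

theorem tapeOf_snoc {X : Type} (w : List X) (g : X) (j : ℤ) :
    tapeOf (w ++ [g]) j = if j = w.length then some g else tapeOf w j := by
  unfold tapeOf
  by_cases h0 : 0 ≤ j
  · rw [if_pos h0, if_pos h0]
    by_cases h1 : j = w.length
    · rw [if_pos h1, h1, Int.toNat_natCast, List.getElem?_append_right le_rfl]
      simp
    · rw [if_neg h1]
      rcases Nat.lt_or_ge j.toNat w.length with h2 | h2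
      · rw [List.getElem?_append_left h2]
      · rw [List.getElem?_eq_none (by rw [List.length_append, List.length_singleton]; omega),
          List.getElem?_eq_none (by omega)]
  · rw [if_neg h0, if_neg h0, if_neg (by omega)]

/-- the letter `g` is printed after the word `w` -/
theorem upd_pr (q q' : Fin 3 ⊕ M0.S) (x : List A) (w : List (Γ0 k0)) (g : Γ0 k0)
    (i i' : ℤ) (d0 : Dir) (hi : i' = i + d0.toInt) :
    upd (cf k0 e0 M0 q x w i w.length) q'
      (acN k0 (sc k0 x w i w.length) d0 (some (Sum.inr g)) Dir.right) =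
      cf k0 e0 M0 q' x (w ++ [g]) i' (w ++ [g]).length := by
  apply upd_gen k0 e0 M0 q q' x w (w ++ [g]) i w.length i' _ d0 Dir.right _ _ hi
  · rw [List.length_append, List.length_singleton]
    push_cast
    rfl
  · funext j
    rw [tapeOf_snoc, Function.update_apply]
    by_cases h : j = w.length
    · rw [if_pos h, if_pos h]
      rfl
    · rw [if_neg h, if_neg h]

theorem tapeOf_end {X : Type} (w : List X) : tapeOf w (w.length : ℤ) = none := by
  unfold tapeOf
  rw [if_pos (by omega), Int.toNat_natCast]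
  exact List.getElem?_eq_none le_rfl

theorem tapeOf_neg {X : Type} (w : List X) : tapeOf w (-1) = none := by
  unfold tapeOf
  rw [if_neg (by omega)]

theorem tapeOf_mid {X : Type} (y z : List X) (a : X) :
    tapeOf (y ++ a :: z) (y.length : ℤ) = some a := by
  unfold tapeOf
  rw [if_pos (by omega), Int.toNat_natCast, List.getElem?_append_right le_rfl]
  simp

theorem tapeOf_lt {X : Type} (w : List X) (j : ℕ) (h : j < w.length) :
    tapeOf w (j : ℤ) ≠ none := by
  unfold tapeOf
  rw [if_pos (by omega), Int.toNat_natCast, List.getElem?_eq_getElem h]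
  simp

theorem sc_lt (x : List A) (w : List (Γ0 k0)) (i : ℤ) (j : ℕ) (h : j < w.length) :
    sc k0 x w i (j : ℤ) (some k0) ≠ none := by
  intro h2
  have h3 : (tapeOf w (j : ℤ)).map (Sum.inr : Γ0 k0 → A ⊕ Γ0 k0) = none :=
    (sc_some k0 x w i j).symm.trans h2
  rw [Option.map_eq_none_iff] at h3
  exact tapeOf_lt w j h h3

theorem sc_neg (x : List A) (w : List (Γ0 k0)) (i : ℤ) :
    sc k0 x w i (-1) (some k0) = none := by
  have h3 : (tapeOf w (-1)).map (Sum.inr : Γ0 k0 → A ⊕ Γ0 k0) = none := by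
    rw [tapeOf_neg]
    rfl
  exact (sc_some k0 x w i (-1)).trans h3

/-! ### steps -/

theorem st (n : ℕ) (q q' : Fin 3 ⊕ M0.S) (x : List A) (w : List (Γ0 k0)) (i p : ℤ)
    (a : (k : Option K0) → Option (Gm A Γ0 k) × Dir) (c' : NC (mN k0 e0 M0))
    (h : trN k0 e0 M0 q (sc k0 x w i p) q' a) (hc : upd (cf k0 e0 M0 q x w i p) q' a = c')
    (h' : Ac k0 e0 M0 n c') : Ac k0 e0 M0 (n + 1) (cf k0 e0 M0 q x w i p) := by
  subst hc
  exact NM.Acc.step n (cf k0 e0 M0 q x w i p) q' a trivial h h'

theorem inv (n : ℕ) (q : Fin 3 ⊕ M0.S) (x : List A) (w : List (Γ0 k0)) (i p : ℤ)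
    (h : Ac k0 e0 M0 n (cf k0 e0 M0 q x w i p)) :
    (n = 0 ∧ (mN k0 e0 M0).acc q) ∨ ∃ (n' : ℕ) (q' : Fin 3 ⊕ M0.S)
      (a : (k : Option K0) → Option (Gm A Γ0 k) × Dir), n = n' + 1 ∧
      trN k0 e0 M0 q (sc k0 x w i p) q' a ∧ Ac k0 e0 M0 n' (upd (cf k0 e0 M0 q x w i p) q' a) :=
  invN (mN k0 e0 M0) _ n (cf k0 e0 M0 q x w i p) h

/-! ### the first phase -/

theorem c1 (n : ℕ) (x : List A) : ∀ (z y : List A), x = y ++ z →
    Ac k0 e0 M0 n (cf k0 e0 M0 (Sum.inl 1) x (x.map fun a => e0 (Sum.inl a)) x.length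
      (x.map fun a => e0 (Sum.inl a)).length) →
    Ac k0 e0 M0 (z.length + 1 + n) (cf k0 e0 M0 (Sum.inl 0) x (y.map fun a => e0 (Sum.inl a))
      y.length (y.map fun a => e0 (Sum.inl a)).length) := by
  intro z
  induction z with
  | nil =>
    intro y hy h
    rw [List.append_nil] at hy
    subst hy
    have hl : ([] : List A).length + 1 + n = n + 1 := by simp; ring
    rw [hl]
    refine st k0 e0 M0 n _ (Sum.inl 1) x _ _ _
      (acN k0 (sc k0 x (x.map fun a => e0 (Sum.inl a)) x.length _) Dir.stay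
        (sc k0 x (x.map fun a => e0 (Sum.inl a)) x.length _ (some k0)) Dir.stay) _ ?_
      (upd_id k0 e0 M0 _ _ x _ _ _ _ _ Dir.stay Dir.stay (add_zero _).symm (add_zero _).symm) h
    right; left
    exact ⟨rfl, by rw [sc_none]; exact tapeOf_end x, rfl, rfl⟩
  | cons a z ih =>
    intro y hy h
    have hy' : x = (y ++ [a]) ++ z := by rw [hy]; simp
    have h1 := ih (y ++ [a]) hy' h
    have hl : (a :: z).length + 1 + n = (z.length + 1 + n) + 1 := by
      rw [List.length_cons]; ring
    rw [hl]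
    have hm : (y ++ [a]).map (fun a => e0 (Sum.inl a)) =
        y.map (fun a => e0 (Sum.inl a)) ++ [e0 (Sum.inl a)] := by simp
    rw [hm] at h1
    refine st k0 e0 M0 _ _ (Sum.inl 0) x _ _ _
      (acN k0 (sc k0 x (y.map fun a => e0 (Sum.inl a)) y.length _) Dir.right
        (some (Sum.inr (e0 (Sum.inl a)))) Dir.right) _ ?_
      (upd_pr k0 e0 M0 _ _ x _ (e0 (Sum.inl a)) y.length ((y ++ [a]).length : ℤ) Dir.right ?_) h1
    · left
      exact ⟨rfl, a, by rw [sc_none, hy]; exact tapeOf_mid y z a, rfl, rfl⟩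
    · rw [List.length_append, List.length_singleton]
      push_cast
      rfl

theorem s1' (x : List A) : ∀ (z y : List A) (n : ℕ), x = y ++ z →
    Ac k0 e0 M0 n (cf k0 e0 M0 (Sum.inl 0) x (y.map fun a => e0 (Sum.inl a))
      y.length (y.map fun a => e0 (Sum.inl a)).length) →
    ∃ n', Ac k0 e0 M0 n' (cf k0 e0 M0 (Sum.inl 1) x (x.map fun a => e0 (Sum.inl a)) x.length
      (x.map fun a => e0 (Sum.inl a)).length) := by
  intro z
  induction z with
  | nil =>
    intro y n hy h
    rw [List.append_nil] at hy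
    subst hy
    rcases inv k0 e0 M0 n _ x _ _ _ h with h1 | ⟨n', q', a, hn, htr, h2⟩
    · exact h1.2.elim
    · rcases htr with h3 | h3 | h3 | h3 | h3 | h3
      · obtain ⟨-, x0, hx0, -, -⟩ := h3
        rw [sc_none, tapeOf_end] at hx0
        exact absurd hx0 (by simp)
      · obtain ⟨-, -, hq, ha⟩ := h3
        subst hq ha
        refine ⟨n', ?_⟩
        rw [upd_id k0 e0 M0 _ _ x _ _ _ _ _ Dir.stay Dir.stay (add_zero _).symm
          (add_zero _).symm] at h2
        exact h2
      · exact absurd h3.1 (by decide)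
      · exact absurd h3.1 (by decide)
      · exact absurd h3.1 (by decide)
      · exact absurd h3.1 (by decide)
  | cons a z ih =>
    intro y n hy h
    have hy' : x = (y ++ [a]) ++ z := by rw [hy]; simp
    have hm : (y ++ [a]).map (fun a => e0 (Sum.inl a)) =
        y.map (fun a => e0 (Sum.inl a)) ++ [e0 (Sum.inl a)] := by simp
    rcases inv k0 e0 M0 n _ x _ _ _ h with h1 | ⟨n', q', b, hn, htr, h2⟩
    · exact h1.2.elim
    · rcases htr with h3 | h3 | h3 | h3 | h3 | h3
      · obtain ⟨-, x0, hx0, hq, hb⟩ := h3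
        rw [sc_none, hy, tapeOf_mid] at hx0
        have hx1 : x0 = a := (Option.some.inj hx0).symm
        subst hx1
        subst hq hb
        refine ih (y ++ [x0]) n' hy' ?_
        rw [hm]
        rw [upd_pr k0 e0 M0 _ _ x _ (e0 (Sum.inl x0)) y.length ((y ++ [x0]).length : ℤ) Dir.right
          (by rw [List.length_append, List.length_singleton]; push_cast; rfl)] at h2
        exact h2
      · obtain ⟨-, hx0, -, -⟩ := h3
        rw [sc_none, hy, tapeOf_mid] at hx0
        exact absurd hx0 (by simp)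
      · exact absurd h3.1 (by decide)
      · exact absurd h3.1 (by decide)
      · exact absurd h3.1 (by decide)
      · exact absurd h3.1 (by decide)

/-! ### the second phase -/

theorem c2 (n : ℕ) (x : List A) (i : ℤ) : ∀ (v : List γ) (w : List (Γ0 k0)),
    Ac k0 e0 M0 n (cf k0 e0 M0 (Sum.inl 2) x (w ++ v.map fun g => e0 (Sum.inr g)) i
      ((w ++ v.map fun g => e0 (Sum.inr g)).length - 1)) →
    Ac k0 e0 M0 (v.length + 1 + n) (cf k0 e0 M0 (Sum.inl 1) x w i w.length) := by
  intro v
  induction v with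
  | nil =>
    intro w h
    rw [List.map_nil, List.append_nil] at h
    have hl : ([] : List γ).length + 1 + n = n + 1 := by simp; ring
    rw [hl]
    refine st k0 e0 M0 n _ (Sum.inl 2) x w i _
      (acN k0 (sc k0 x w i _) Dir.stay (sc k0 x w i _ (some k0)) Dir.left) _ ?_
      (upd_id k0 e0 M0 _ _ x _ _ _ _ _ Dir.stay Dir.left (add_zero _).symm rfl) h
    right; right; right; left
    exact ⟨rfl, rfl, rfl⟩
  | cons g v ih =>
    intro w h
    have hm : w ++ (g :: v).map (fun g => e0 (Sum.inr g)) =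
        (w ++ [e0 (Sum.inr g)]) ++ v.map (fun g => e0 (Sum.inr g)) := by simp
    rw [hm] at h
    have h1 := ih _ h
    have hl : (g :: v).length + 1 + n = (v.length + 1 + n) + 1 := by
      rw [List.length_cons]; ring
    rw [hl]
    refine st k0 e0 M0 _ _ (Sum.inl 1) x w i _
      (acN k0 (sc k0 x w i _) Dir.stay (some (Sum.inr (e0 (Sum.inr g)))) Dir.right) _ ?_
      (upd_pr k0 e0 M0 _ _ x w (e0 (Sum.inr g)) i i Dir.stay (add_zero _).symm) h1
    right; right; left
    exact ⟨rfl, g, rfl, rfl⟩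

theorem s2' (x : List A) (i : ℤ) : ∀ (n : ℕ) (w : List (Γ0 k0)),
    Ac k0 e0 M0 n (cf k0 e0 M0 (Sum.inl 1) x w i w.length) →
    ∃ (v : List γ) (n' : ℕ), Ac k0 e0 M0 n' (cf k0 e0 M0 (Sum.inl 2) x
      (w ++ v.map fun g => e0 (Sum.inr g)) i ((w ++ v.map fun g => e0 (Sum.inr g)).length - 1)) := by
  intro n
  induction n with
  | zero =>
    intro w h
    rcases inv k0 e0 M0 0 _ x _ _ _ h with h1 | ⟨n', q', b, hn, htr, h2⟩
    · exact h1.2.elim
    · omega
  | succ n ih =>
    intro w h
    rcases inv k0 e0 M0 (n + 1) _ x _ _ _ h with h1 | ⟨n', q', b, hn, htr, h2⟩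
    · exact h1.2.elim
    · have hn' : n' = n := by omega
      subst hn'
      rcases htr with h3 | h3 | h3 | h3 | h3 | h3
      · exact absurd h3.1 (by decide)
      · exact absurd h3.1 (by decide)
      · obtain ⟨-, g, hq, hb⟩ := h3
        subst hq hb
        rw [upd_pr k0 e0 M0 _ _ x w (e0 (Sum.inr g)) i i Dir.stay (add_zero _).symm] at h2
        obtain ⟨v, n2, h4⟩ := ih _ h2
        refine ⟨g :: v, n2, ?_⟩
        have hm : w ++ (g :: v).map (fun g => e0 (Sum.inr g)) =
            (w ++ [e0 (Sum.inr g)]) ++ v.map (fun g => e0 (Sum.inr g)) := by simp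
        rw [hm]
        exact h4
      · obtain ⟨-, hq, hb⟩ := h3
        subst hq hb
        refine ⟨[], n', ?_⟩
        rw [List.map_nil, List.append_nil]
        rw [upd_id k0 e0 M0 _ _ x _ _ _ _ ((w.length : ℤ) - 1) Dir.stay Dir.left
          (add_zero _).symm rfl] at h2
        exact h2
      · exact absurd h3.1 (by decide)
      · exact absurd h3.1 (by decide)

/-! ### the third phase -/

theorem c3 (n : ℕ) (x : List A) (i : ℤ) (w : List (Γ0 k0))
    (h : Ac k0 e0 M0 n (cf k0 e0 M0 (Sum.inr M0.start) x w i 0)) : ∀ j : ℕ, j ≤ w.length →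
    Ac k0 e0 M0 (j + 1 + n) (cf k0 e0 M0 (Sum.inl 2) x w i ((j : ℤ) - 1)) := by
  intro j
  induction j with
  | zero =>
    intro hj
    have hl : 0 + 1 + n = n + 1 := by ring
    rw [hl]
    refine st k0 e0 M0 n _ (Sum.inr M0.start) x w i _
      (acN k0 (sc k0 x w i _) Dir.stay (sc k0 x w i _ (some k0)) Dir.right) _ ?_
      (upd_id k0 e0 M0 _ _ x _ _ _ _ _ Dir.stay Dir.right (add_zero _).symm rfl) h
    right; right; right; right; right
    refine ⟨rfl, ?_, rfl, rfl⟩
    have e1 : ((0 : ℕ) : ℤ) - 1 = -1 := by norm_num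
    rw [e1]
    exact sc_neg k0 x w i
  | succ j ih =>
    intro hj
    have h1 := ih (by omega)
    have hl : j + 1 + 1 + n = (j + 1 + n) + 1 := by ring
    rw [hl]
    refine st k0 e0 M0 _ _ (Sum.inl 2) x w i _
      (acN k0 (sc k0 x w i _) Dir.stay (sc k0 x w i _ (some k0)) Dir.left) _ ?_
      (upd_id k0 e0 M0 _ _ x _ _ _ _ ((j : ℤ) - 1) Dir.stay Dir.left (add_zero _).symm ?_) h1
    · right; right; right; right; left
      refine ⟨rfl, ?_, rfl, rfl⟩
      have e1 : ((j + 1 : ℕ) : ℤ) - 1 = (j : ℤ) := by push_cast; ring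
      rw [e1]
      exact sc_lt k0 x w i j (by omega)
    · push_cast
      change (j : ℤ) - 1 = (j : ℤ) + 1 - 1 + -1
      ring

theorem s3' (x : List A) (i : ℤ) (w : List (Γ0 k0)) : ∀ (j n : ℕ), j ≤ w.length →
    Ac k0 e0 M0 n (cf k0 e0 M0 (Sum.inl 2) x w i ((j : ℤ) - 1)) →
    ∃ n', Ac k0 e0 M0 n' (cf k0 e0 M0 (Sum.inr M0.start) x w i 0) := by
  intro j
  induction j with
  | zero =>
    intro n hj h
    have e1 : ((0 : ℕ) : ℤ) - 1 = -1 := by norm_num
    rcases inv k0 e0 M0 n _ x _ _ _ h with h1 | ⟨n', q', b, hn, htr, h2⟩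
    · exact h1.2.elim
    · rcases htr with h3 | h3 | h3 | h3 | h3 | h3
      · exact absurd h3.1 (by decide)
      · exact absurd h3.1 (by decide)
      · exact absurd h3.1 (by decide)
      · exact absurd h3.1 (by decide)
      · exfalso
        apply h3.2.1
        rw [e1]
        exact sc_neg k0 x w i
      · obtain ⟨-, -, hq, hb⟩ := h3
        subst hq hb
        refine ⟨n', ?_⟩
        rw [upd_id k0 e0 M0 _ _ x _ _ _ _ (0 : ℤ) Dir.stay Dir.right (add_zero _).symm rfl] at h2
        exact h2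
  | succ j ih =>
    intro n hj h
    have e1 : ((j + 1 : ℕ) : ℤ) - 1 = (j : ℤ) := by push_cast; ring
    rcases inv k0 e0 M0 n _ x _ _ _ h with h1 | ⟨n', q', b, hn, htr, h2⟩
    · exact h1.2.elim
    · rcases htr with h3 | h3 | h3 | h3 | h3 | h3
      · exact absurd h3.1 (by decide)
      · exact absurd h3.1 (by decide)
      · exact absurd h3.1 (by decide)
      · exact absurd h3.1 (by decide)
      · obtain ⟨-, -, hq, hb⟩ := h3
        subst hq hb
        refine ih n' (by omega) ?_
        rw [upd_id k0 e0 M0 _ _ x _ _ _ _ ((j : ℤ) - 1) Dir.stay Dir.left (add_zero _).symm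
          (by push_cast; change (j : ℤ) - 1 = (j : ℤ) + 1 - 1 + -1; ring)] at h2
        exact h2
      · exfalso
        have h4 := h3.2.1
        rw [e1] at h4
        exact sc_lt k0 x w i j (by omega) h4

/-! ### the last phase -/

theorem upd_wm {X Y : Type} (t : ℤ → Option (X ⊕ Y)) (t0 : Tp Y) (p : ℤ)
    (h : ∀ l, t (l + p) = (t0 l).map Sum.inr) (b : Option Y) (d : Dir) (l : ℤ) :
    Function.update t p (b.map Sum.inr) (l + (p + d.toInt)) = (wm t0 b d l).map Sum.inr := by
  rw [wm, Function.update_apply]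
  by_cases h2 : l + d.toInt = 0
  · rw [if_pos h2, if_pos (by omega)]
  · rw [if_neg h2, if_neg (by omega)]
    have h3 : l + (p + d.toInt) = l + d.toInt + p := by ring
    rw [h3]
    exact h (l + d.toInt)

/-- the configurations of the two machines -/
def Sim (c0 : M0.S × ((k : K0) → Tp (Γ0 k))) (c : NC (mN k0 e0 M0)) : Prop :=
  c.1 = Sum.inr c0.1 ∧ ∀ (k : K0) (l : ℤ), c.2.1 (some k) (l + c.2.2 (some k)) =
    ((c0.2 k l).map Sum.inr : Option (A ⊕ Γ0 k))

theorem sim_next (c0 : M0.S × ((k : K0) → Tp (Γ0 k))) (c : NC (mN k0 e0 M0))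
    (h : Sim k0 e0 M0 c0 c) : pv (fun k => c.2.1 k (c.2.2 k)) = (fun k => c0.2 k 0) ∧
    Sim k0 e0 M0 (M0.next c0) (upd c (Sum.inr (M0.step c0.1 (pv fun k => c.2.1 k (c.2.2 k))).1)
      (acM M0 c0.1 fun k => c.2.1 k (c.2.2 k))) := by
  have h1 : pv (fun k => c.2.1 k (c.2.2 k)) = (fun k => c0.2 k 0) := by
    funext k
    have h2 := h.2 k 0
    rw [zero_add] at h2
    change prj (c.2.1 (some k) (c.2.2 (some k))) = c0.2 k 0
    rw [h2]
    exact prj_map _
  refine ⟨h1, ?_, ?_⟩
  · change Sum.inr (M0.step c0.1 (pv fun k => c.2.1 k (c.2.2 k))).1 =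
      (Sum.inr (M0.step c0.1 fun k => c0.2 k 0).1 : Fin 3 ⊕ M0.S)
    rw [h1]
  · intro k l
    change Function.update (c.2.1 (some k)) (c.2.2 (some k))
        (((M0.step c0.1 (pv fun k => c.2.1 k (c.2.2 k))).2 k).1.map Sum.inr : Option (A ⊕ Γ0 k))
        (l + (c.2.2 (some k) + ((M0.step c0.1 (pv fun k => c.2.1 k (c.2.2 k))).2 k).2.toInt)) =
      ((wm (c0.2 k) ((M0.step c0.1 fun k => c0.2 k 0).2 k).1
        ((M0.step c0.1 fun k => c0.2 k 0).2 k).2 l).map Sum.inr : Option (A ⊕ Γ0 k))
    rw [h1]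
    exact upd_wm (X := A) (Y := Γ0 k) (c.2.1 (some k)) (c0.2 k) (c.2.2 (some k)) (h.2 k) _ _ l

theorem c4 (n : ℕ) (c0 c1 : M0.S × ((k : K0) → Tp (Γ0 k))) (h : Steps M0 n c0 c1) :
    M0.out c1.1 = some true → ∀ c : NC (mN k0 e0 M0), Sim k0 e0 M0 c0 c → Ac k0 e0 M0 n c := by
  induction h with
  | zero c0 =>
    intro ho c hs
    refine NM.Acc.done c trivial ?_
    rw [hs.1]
    exact ho
  | succ n c0 c1 ho _ ih =>
    intro ho1 c hs
    obtain ⟨h1, h2⟩ := sim_next k0 e0 M0 c0 c hs
    refine NM.Acc.step n c (Sum.inr (M0.step c0.1 (pv fun k => c.2.1 k (c.2.2 k))).1)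
      (acM M0 c0.1 fun k => c.2.1 k (c.2.2 k)) trivial ?_ (ih ho1 _ h2)
    rw [hs.1]
    exact ⟨ho, rfl, rfl⟩

theorem s4 (n : ℕ) (c0 c1 : M0.S × ((k : K0) → Tp (Γ0 k))) (b : Bool) (h : Steps M0 n c0 c1) :
    M0.out c1.1 = some b → ∀ (m : ℕ) (c : NC (mN k0 e0 M0)), Sim k0 e0 M0 c0 c →
      Ac k0 e0 M0 m c → b = true := by
  induction h with
  | zero c0 =>
    intro ho m c hs ha
    rcases invN _ _ m c ha with h1 | ⟨n', q', a, hn, htr, h2⟩
    · have h2 := h1.2
      rw [hs.1] at h2
      have h3 : M0.out c0.1 = some true := h2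
      rw [ho] at h3
      exact Option.some.inj h3
    · rw [hs.1] at htr
      have h3 : M0.out c0.1 = none := htr.1
      rw [ho] at h3
      exact absurd h3 (by simp)
  | succ n c0 c1 ho _ ih =>
    intro ho1 m c hs ha
    obtain ⟨h1, h2⟩ := sim_next k0 e0 M0 c0 c hs
    rcases invN _ _ m c ha with h3 | ⟨n', q', a, hn, htr, h4⟩
    · have h5 := h3.2
      rw [hs.1] at h5
      have h6 : M0.out c0.1 = some true := h5
      rw [ho] at h6
      exact absurd h6 (by simp)
    · rw [hs.1] at htr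
      obtain ⟨-, hq, ha'⟩ := htr
      subst hq ha'
      exact ih ho1 n' _ h2 h4

open Classical in
theorem sim_start (x : List A) (w : List (Γ0 k0)) (i : ℤ) :
    Sim k0 e0 M0 (M0.start, inp k0 w) (cf k0 e0 M0 (Sum.inr M0.start) x w i 0) := by
  refine ⟨rfl, ?_⟩
  intro k l
  change (inp k0 w k (l + (if k = k0 then 0 else 0))).map Sum.inr = (inp k0 w k l).map Sum.inr
  rw [ite_self, add_zero]

end

end QN_aux

open QN_aux Classical in
theorem QN_start {A γ K0 : Type} {Γ0 : K0 → Type} (k0 : K0) (e0 : A ⊕ γ → Γ0 k0)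
    (M0 : TM K0 Γ0) (x : List A) :
    cf k0 e0 M0 (Sum.inl 0) x (([] : List A).map fun a => e0 (Sum.inl a))
        (([] : List A).length : ℤ) ((([] : List A).map fun a => e0 (Sum.inl a)).length : ℤ) =
      ((mN k0 e0 M0).start, ini ({none} : Set (Option K0)) (embN (A := A) (Γ0 := Γ0)) x,
        fun _ => 0) := by
  refine Prod.ext rfl (Prod.ext ?_ ?_)
  · funext k
    cases k with
    | none =>
      refine Eq.trans ?_ (ini_pos _ _ x none (Set.mem_singleton none)).symm
      change tapeOf x = tapeOf (x.map fun a => a)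
      rw [List.map_id']
    | some k =>
      refine Eq.trans ?_ (ini_neg _ _ x (some k) (by simp)).symm
      change (fun j => (inp k0 (([] : List A).map fun a => e0 (Sum.inl a)) k j).map Sum.inr) = _
      funext j
      have h1 : inp k0 (([] : List A).map fun a => e0 (Sum.inl a)) k j = none := by
        unfold inp
        have h2 : Function.update (fun _ => []) k0 (([] : List A).map fun a => e0 (Sum.inl a)) k
            = ([] : List (Γ0 k)) := by
          by_cases h : k = k0
          · subst h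
            rw [Function.update_self]
            rfl
          · rw [Function.update_of_ne h]
        rw [h2]
        unfold tapeOf
        split_ifs <;> simp
      rw [h1]
      rfl
  · funext k
    cases k with
    | none => rfl
    | some k =>
      change (if k = k0 then ((([] : List A).map fun a => e0 (Sum.inl a)).length : ℤ) else 0) = 0
      rw [List.map_nil]
      exact ite_self 0

open QN_aux in
theorem tQN : S_QN := by
  intro A hA L hL
  obtain ⟨γ, hγ, R, C, hR, h1, h2⟩ := hL.cert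
  obtain ⟨K0, hK0, Γ0, hΓ0, k0, e0, he0, M0, c0, hM⟩ := hR
  have hrun : ∀ (x : List A) (v : List γ), (x.map fun a => e0 (Sum.inl a)) ++
      (v.map fun g => e0 (Sum.inr g)) = (x.map Sum.inl ++ v.map Sum.inr).map e0 := by
    intro x v
    rw [List.map_append, List.map_map, List.map_map]
    rfl
  refine ⟨hA, Option K0, inferInstance, Gm A Γ0, ?_, {none}, ?_, mN k0 e0 M0,
    (c0 + 5) * (C + 1), ?_, ?_, ?_⟩
  · intro k
    cases k with
    | none => exact hA
    | some k =>
      have := hΓ0 k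
      change Finite (A ⊕ Γ0 k)
      infer_instance
  · exact embN
  · intro q v q' a htr k hk
    have hk' : k = none := hk
    subst hk'
    cases q with
    | inl q =>
      rcases htr with h3 | h3 | h3 | h3 | h3 | h3
      · obtain ⟨-, x0, -, -, ha⟩ := h3
        rw [ha]
        rfl
      · rw [h3.2.2.2]
        rfl
      · obtain ⟨-, g, -, ha⟩ := h3
        rw [ha]
        rfl
      · rw [h3.2.2]
        rfl
      · rw [h3.2.2.2]
        rfl
      · rw [h3.2.2.2]
        rfl
    | inr q =>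
      rw [htr.2.2]
      rfl
  · intro x hx
    obtain ⟨v, hv, hR1⟩ := h1 x hx
    obtain ⟨n0, hn0, τ', b, hr, hb⟩ := hM (x.map Sum.inl ++ v.map Sum.inr)
    obtain ⟨q, hst, hq⟩ := hr
    have hb1 : b = true := hb.2 hR1
    rw [hb1] at hq
    obtain ⟨w, hw⟩ : ∃ w, w = (x.map fun a => e0 (Sum.inl a)) ++ (v.map fun g => e0 (Sum.inr g)) :=
      ⟨_, rfl⟩
    have hw' : (x.map Sum.inl ++ v.map Sum.inr).map e0 = w := by rw [hw, hrun]
    rw [hw'] at hst
    have hwl : w.length = x.length + v.length := by rw [hw]; simp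
    have a4 := c4 k0 e0 M0 n0 _ _ hst hq _ (sim_start k0 e0 M0 x w x.length)
    have a3 := c3 k0 e0 M0 n0 x x.length w a4 w.length le_rfl
    rw [hw] at a3
    have a2 := c2 k0 e0 M0 _ x x.length v (x.map fun a => e0 (Sum.inl a)) a3
    have a1 := c1 k0 e0 M0 _ x x [] rfl a2
    refine ⟨_, ?_, cast (congrArg (fun c => NM.Acc (mN k0 e0 M0) (fun _ => True) _ c) ?_) a1⟩
    · rw [← hw, hwl]
      rw [List.length_append, List.length_map, List.length_map] at hn0
      have e1 : x.length + v.length + 1 ≤ (C + 1) * (x.length + 1) := by nlinarith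
      calc x.length + 1 + (v.length + 1 + (x.length + v.length + 1 + n0))
          ≤ (c0 + 5) * (x.length + v.length + 1) := by nlinarith
        _ ≤ (c0 + 5) * ((C + 1) * (x.length + 1)) := Nat.mul_le_mul_left _ e1
        _ = (c0 + 5) * (C + 1) * (x.length + 1) := by ring
    · exact QN_start k0 e0 M0 x
  · intro n x h
    have h' : Ac k0 e0 M0 n (cf k0 e0 M0 (Sum.inl 0) x (([] : List A).map fun a => e0 (Sum.inl a))
        (([] : List A).length : ℤ) ((([] : List A).map fun a => e0 (Sum.inl a)).length : ℤ)) :=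
      cast (congrArg (fun c => NM.Acc (mN k0 e0 M0) (fun _ => True) n c)
        (QN_start k0 e0 M0 x).symm) h
    obtain ⟨n1, a1⟩ := s1' k0 e0 M0 x x [] n rfl h'
    obtain ⟨v, n2, a2⟩ := s2' k0 e0 M0 x _ n1 _ a1
    obtain ⟨n3, a3⟩ := s3' k0 e0 M0 x _ _ _ n2 le_rfl a2
    obtain ⟨n0, hn0, τ', b, ⟨q, hst, hq⟩, hb⟩ := hM (x.map Sum.inl ++ v.map Sum.inr)
    rw [← hrun] at hst
    have hb1 := s4 k0 e0 M0 n0 _ _ b hst hq n3 _ (sim_start k0 e0 M0 x _ _) a3
    exact h2 x v (hb.1 hb1)

end MPdee884H4
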