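import Pool.Agent.Lib.MP_dee884_lc.H4.Defs

/-!
# MP_dee884_lc, H4: the statements of the modules

Each module `X.lean` in this folder proves `theorem tX : S_X` (or with other `S_Y` as hypotheses).
All proofs are elementary. `M` is a nondeterministic machine, `c` a configuration, `R` a list of
records.
-/

namespace MPdee884H4

open MPdee884H1 MPdee884H2 MPdee884H3 Pool.Agent.Lin

/-! ### computations -/

/-- BASIC FACTS. Proof: inductions on `R`; the records in `TrN` are the ones of the configurations,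
so `exe` follows the computation (`exe c (r :: R) = exe (upd c r.2.1 r.2.2) R` by definition). -/
def S_Bas : Prop := ∀ {K : Type} {Γ : K → Type} (M : NM K Γ),
  (∀ (c : NC M) (R R' : List (RN M)), exe c (R ++ R') = exe (exe c R) R') ∧
  (∀ (P : NC M → Prop) (c : NC M) (R R' : List (RN M)),
    TrN M P c (R ++ R') ↔ TrN M P c R ∧ TrN M P (exe c R) R') ∧
  (∀ (P P' : NC M → Prop) (c : NC M) (R : List (RN M)), (∀ c', P c' → P' c') →
    TrN M P c R → TrN M P' c R) ∧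
  (∀ (P : NC M → Prop) (c : NC M) (R : List (RN M)), TrN M P c R → P c ∧ P (exe c R)) ∧
  (∀ (P P' : NC M → Prop) (c : NC M) (R : List (RN M)), TrN M P c R → TrN M P' c R →
    TrN M (fun c' => P c' ∧ P' c') c R)

/-- MOVEMENT. A head moves at most one cell per step (`Dir.toInt`). Proof: induction on `R`,
generalising `c` and `n` (the bound for the rest is `n - 1`, triangle inequality). -/
def S_Mv : Prop := ∀ {K : Type} {Γ : K → Type} (M : NM K Γ) (P : NC M → Prop) (c : NC M)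
  (R : List (RN M)) (n : ℕ), TrN M P c R → R.length ≤ n →
  TrN M (fun c' => P c' ∧ ∀ k, |c'.2.2 k - c.2.2 k| ≤ (n : ℤ)) c R

/-- CELLS WHICH ARE NOT VISITED keep their symbols. Proof: induction (`Function.update`); the cell
which is printed in a step is the scanned cell of a configuration which satisfies `P`. -/
def S_Kp : Prop := ∀ {K : Type} {Γ : K → Type} (M : NM K Γ) (P : NC M → Prop) (c : NC M)
  (R : List (RN M)) (k : K) (lo hi : ℤ), TrN M P c R →
  (∀ c', P c' → lo ≤ c'.2.2 k ∧ c'.2.2 k < hi) →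
  ∀ i : ℤ, (i < lo ∨ hi ≤ i) → (exe c R).2.1 k i = c.2.1 k i

/-- READ-ONLY TAPES do not change (`Function.update_eq_self`). -/
def S_Ro : Prop := ∀ {K : Type} {Γ : K → Type} (M : NM K Γ) (I : Set K),
  (∀ q v q' a, M.tr q v q' a → ∀ k ∈ I, (a k).1 = v k) →
  ∀ (P : NC M → Prop) (c : NC M) (R : List (RN M)), TrN M P c R → ∀ k ∈ I,
    (exe c R).2.1 k = c.2.1 k

/-- TIME. First part: a computation which accepts in `n ≤ T` steps, followed by `T - n` idle steps
(an idle step does not change the configuration: `Function.update_eq_self`, `p + 0 = p`). Second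
part: leave out the idle steps of the record; induction on `TrN`. -/
def S_Tm : Prop := ∀ {K : Type} {Γ : K → Type} (M : NM K Γ) (q : M.S)
  (τ : (k : K) → ℤ → Option (Γ k)) (p : K → ℤ),
  (∀ (Q : (K → ℤ) → Prop) (n T : ℕ), n ≤ T → M.Acc (fun cf => Q cf.2.2) n (q, τ, p) →
    ∃ R : List (RN (idle M)), R.length = T ∧
      TrN (idle M) (fun cf => Q cf.2.2) (q, τ, p) R ∧ M.acc (exe (M := idle M) (q, τ, p) R).1) ∧
  (∀ R : List (RN (idle M)), TrN (idle M) (fun _ => True) (q, τ, p) R →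
    M.acc (exe (M := idle M) (q, τ, p) R).1 → ∃ n, M.Acc (fun _ => True) n (q, τ, p))

/-- ONE SEGMENT, SOUNDNESS. Compare H3/Win.lean. Proof: induction on `R`, generalising `c` and `e`.
`SimW (wN c k b (h k)) .. ` gives `g`, `p < g.length = 3 b` with `wN c k b (h k) = flag g p`, so
`c.2.2 k = (h k - 1) b + p` and `g` is the list of the symbols in the window. First operation: the
scanned symbol is `r.1.2 k` for all `k`, so `r.1.2 = scN c`; by `chN` the state is `r.1.1` and the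
transition is one of `M` (otherwise the fold is `none`). The window of `upd c r.2.1 r.2.2` is
`flag (g.set p _) p1`. -/
def S_WinS : Prop := ∀ {K : Type} {Γ : K → Type} (M : NM K Γ) (b : ℕ) (c : NC M) (h : K → ℤ)
  (R : List (RN M)) (q' : M.S) (e : (k : K) → List (Option (Γ k) × Bool)), 1 ≤ b →
  R.foldl (chN M) (some c.1) = some q' →
  (∀ k, SimW (wN c k b (h k)) (R.map (opN k)) (e k)) →
  TrN M (InW M b h) c R ∧ (exe c R).1 = q' ∧ ∀ k, e k = wN (exe c R) k b (h k)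

/-- ONE SEGMENT, COMPLETENESS. Compare H3/Win.lean. Proof: induction on `R`; the window is
`flag g p` with `p = c.2.2 k - (h k - 1) b`, `0 ≤ p < 3 b`. -/
def S_WinC : Prop := ∀ {K : Type} {Γ : K → Type} (M : NM K Γ) (b : ℕ) (c : NC M) (h : K → ℤ)
  (R : List (RN M)), 1 ≤ b → TrN M (InW M b h) c R →
  R.foldl (chN M) (some c.1) = some (exe c R).1 ∧
    ∀ k, SimW (wN c k b (h k)) (R.map (opN k)) (wN (exe c R) k b (h k))

/-- SOUNDNESS (use `S_Bas`, `S_Kp`, `S_Ro`, `S_WinS`). Compare H3/Snd.lean. Proof. Put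
`cfg 0 = (start, τ, 0)`, `cfg (w + 1) = exe (cfg w) (D.rc w)`. CLAIM, by strong induction on `w ≤ N`:
(a) `(cfg w).1 = q w`; (b) if `w < N`: for all `k`, `e`:
`D.sc w k e = bN (cfg w) k b (sh (h k w) e)`; (c) for all `u < w`: `TrN M (InW M b (h · u)) (cfg u)
(D.rc u)` and `D.ec u k e = bN (cfg (u + 1)) k b (sh (h k u) e)` for all `k`, `e`. (c) for `u` follows
from (a), (b) for `u` and `S_WinS` (lists of length `b` in `++` are determined). (b) for `w = 0`: the
symbols by `prI` (`Ini` holds: `NoPr .. 0` is empty, `0 = 0`), the flag: by `sim` the window is a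
`flag g p`, it has exactly one flag, by `fl1` it is the first cell of the middle block, i.e. the cell
`0` (`h k 0 = 0`). (b) for `w > 0`: first the middle block (`e = 1`) of the main and the input tapes:
with `u = w - 1` and `e'` such that `sh (h k u) e' = h k w` (`|h k w - h k u| ≤ 1`) `Src` holds, `prE`
(`J = ∅`) and (c); by `fl0`, `fl2` and `sim` the only flag is in the middle block, so the head is in the
block `h k w`. Blocks `e = 0, 2` of an input tape: the symbols by `prI` and `S_Ro` (all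
`(cfg w).2.1 k = τ k`), no flags by `fl0`, `fl2` and on the right side as the head is in the block
`h k w`. Blocks `e = 0, 2` of the main tape: let `u` be the last number `< w` with
`|h u - β| ≤ 1`, `β = sh (h w) e` (if there is one: `IsPr`), `e'` with `sh (h u) e' = β`:
`D.sc w k e = D.ec u k e' = bN (cfg (u + 1)) k b β`; in the segments `t`, `u < t < w`, the block `β`
is outside the window (`|h t - β| ≥ 2`, `S_Kp` with `InW`), so the symbols are the same at `w`, no flags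
by `fl0`, `fl2`, and as the head is in another block; if there is no such `u`: `NoPr`, `prI`, and the
block is never touched. Other tapes: `u = w - 1`, `e' = e`, `h = 0`: `prE` and (c). END: append the
records (`S_Bas`), induction on `w`. -/
def S_SndN : Prop := ∀ {K : Type} {Γ : K → Type} (M : NM K Γ) (I : Set K) (k1 : K)
  (τ : (k : K) → ℤ → Option (Γ k)) (b N : ℕ) (h : K → ℕ → ℤ) (q : ℕ → M.S) (D : DatN M),
  1 ≤ b → 1 ≤ N → (∀ q v q' a, M.tr q v q' a → ∀ k ∈ I, (a k).1 = v k) → k1 ∉ I →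
  Shp M I k1 N h q → AllN M I k1 τ b N h q D →
  ∃ R : List (RN M), TrN M (fun _ => True) (M.start, τ, fun _ => 0) R ∧
    (exe (M := M) (M.start, τ, fun _ => 0) R).1 = q N

/-- COMPLETENESS (use `S_Bas`, `S_Mv`, `S_Kp`, `S_Ro`, `S_WinC`). Compare H3/Cpl.lean. Proof. Put
`RR w = (R.drop (w b)).take b`, `cfg w = exe (start, τ, 0) (R.take (w b))`, so
`cfg (w + 1) = exe (cfg w) (RR w)` for `w < N`. `h k w = (cfg w).2.2 k / b` if `k = k1` or `k ∈ I`,
`0` otherwise; `q w = (cfg w).1`; `D.sc w k e = bN (cfg w) k b (sh (h k w) e)`, `D.rc w = RR w`,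
`D.ec w k e = bN (cfg (w + 1)) k b (sh (h k w) e)`. The heads of the main and the input tapes start
the segment in the middle block and move at most `b` cells (`S_Mv`), the other heads stay in
`(-b, b)`: `TrN M (InW M b (h · w)) (cfg w) (RR w)`, `S_WinC`. `|h k (w + 1) - h k w| ≤ 1` as the
heads move at most `b` cells (floor division). `fl0`, `fl2`: the head is in the middle block. `prE` for
the main tape (`IsPr (h k) β u w`): nothing is printed in `β` in the segments between `u` and `w`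
(`S_Kp`); if `u + 1 < w` there is no flag in `β` at the time `u + 1` (the head is in the block
`h (u + 1)`) and at the time `w` (`|h (w - 1) - β| ≥ 2`, so `β ≠ h w`). `prI`: the same from the time
`0`, `S_Ro` for input tapes (flags are not in the claim). -/
def S_CplN : Prop := ∀ {K : Type} {Γ : K → Type} (M : NM K Γ) (I : Set K) (k1 : K)
  (τ : (k : K) → ℤ → Option (Γ k)) (b N : ℕ) (R : List (RN M)),
  1 ≤ b → 1 ≤ N → (∀ q v q' a, M.tr q v q' a → ∀ k ∈ I, (a k).1 = v k) → k1 ∉ I →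
  R.length = N * b →
  TrN M (fun c => ∀ k, k ∉ I → k ≠ k1 → |c.2.2 k| < (b : ℤ)) (M.start, τ, fun _ => 0) R →
  ∃ (h : K → ℕ → ℤ) (q : ℕ → M.S) (D : DatN M), Shp M I k1 N h q ∧
    (∀ k w, w ≤ N → |h k w| ≤ (w : ℤ)) ∧
    q N = (exe (M := M) (M.start, τ, fun _ => 0) R).1 ∧ AllN M I k1 τ b N h q D

/-! ### classes of segments -/

/-- SOURCES ARE EDGES (`sh (h k1 w) e`); if `k ≠ k1` then `u + 1 = w`. -/
def S_Ed : Prop := ∀ {K : Type} (I : Set K) (k1 : K) (h : K → ℕ → ℤ) (k : K) (e : Fin 3)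
  (u w : ℕ) (e' : Fin 3), Src I k1 h k e u w e' → EdN (h k1) u w ∧ u < w

/-- GLUING (use `S_Ed`). Proof: choose `Y2 i` for each `i < nC` and `d i j` for all `i < nC`, `j < nG`;
`D.sc w = (d (cl w) (gr w)).sc w`, the same for `rc`, `ec`. Let `Src .. k e u w e'`, `w < N`, so
`u < w`; `i = cl w`. If `u ∈ J`: `prY` in the class of `w` gives `sc w k e = Y1 u k e'`, and `top` in
the class of `u` gives `ec u k e' = Y1 u k e'`. Otherwise `cl u = i`. If `u ∈ J2 i`: the same with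
`Y2 i u`. Otherwise `gr u = gr w` (the same class, the same `d`), `prE`. `prY` of `AllN` is empty. -/
def S_GluS : Prop := ∀ {K : Type} {Γ : K → Type} (M : NM K Γ) (I : Set K) (k1 : K)
  (τ : (k : K) → ℤ → Option (Γ k)) (b N nC nG : ℕ) (h : K → ℕ → ℤ) (q : ℕ → M.S)
  (J : Finset ℕ) (J2 : ℕ → Finset ℕ) (cl gr : ℕ → ℕ)
  (Y1 : ℕ → (k : K) → Fin 3 → List (Option (Γ k) × Bool)),
  (∀ w, w < N → cl w < nC ∧ gr w < nG) →
  (∀ u w, w < N → EdN (h k1) u w →
    u ∈ J ∨ (cl u = cl w ∧ (gr u = gr w ∨ u ∈ J2 (cl w)))) →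
  (∀ i, i < nC → ∃ Y2 : ℕ → (k : K) → Fin 3 → List (Option (Γ k) × Bool), ∀ j, j < nG →
    ∃ d : DatN M, GoodN M I k1 τ b h q (J ∪ J2 i) (Yc J Y1 Y2) d (cls N cl gr i j)) →
  ∃ D : DatN M, AllN M I k1 τ b N h q D

/-- THE DATA OF ALL SEGMENTS ARE GOOD for every class. Proof: `prY` and `prE` are `prE` of `AllN`. -/
def S_GluC : Prop := ∀ {K : Type} {Γ : K → Type} (M : NM K Γ) (I : Set K) (k1 : K)
  (τ : (k : K) → ℤ → Option (Γ k)) (b N : ℕ) (h : K → ℕ → ℤ) (q : ℕ → M.S) (D : DatN M),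
  AllN M I k1 τ b N h q D → ∀ J V : Finset ℕ, (∀ w ∈ V, w < N) →
  GoodN M I k1 τ b h q J D.ec D V

/-- CONGRUENCE (compare `good_congr` in H3/Dat.lean). `Src`, `Ini` use only `h k t` for `t ≤ w`. -/
def S_Cgr : Prop := ∀ {K : Type} {Γ : K → Type} (M : NM K Γ) (I : Set K) (k1 : K)
  (τ : (k : K) → ℤ → Option (Γ k)) (b N : ℕ) (h h' : K → ℕ → ℤ) (q q' : ℕ → M.S)
  (J V : Finset ℕ) (Y Y' : ℕ → (k : K) → Fin 3 → List (Option (Γ k) × Bool)) (d d' : DatN M),
  (∀ w ∈ V, w < N) → (∀ k w, w < N → h k w = h' k w) → (∀ w, w ≤ N → q w = q' w) →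
  (∀ u ∈ J, ∀ k e, Y u k e = Y' u k e) →
  (∀ w ∈ V, (∀ k e, d.sc w k e = d'.sc w k e) ∧ d.rc w = d'.rc w ∧
    ∀ k e, d.ec w k e = d'.ec w k e) →
  (∀ w ∈ V, ∀ k e u e', Src I k1 h k e u w e' → u ∈ J ∨ u ∈ V) →
  GoodN M I k1 τ b h q J Y d V → GoodN M I k1 τ b h' q' J Y' d' V

/-! ### cells and groups -/

/-- PIGEONHOLE. Proof: sum over `r = 0, .., A - 1`: each `w` is counted for exactly three `r`. -/
def S_Cm1 : Prop := ∀ (A N : ℕ) (g : ℕ → ℤ), 3 ≤ A →
  ∃ r : ℤ, A * ((Finset.range N).filter (fun w => rsd A r g w ≤ 2)).card ≤ 3 * N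

/-- THE SAME CELL. Proof: `t = g + 1 - r = A f + ρ` with `3 ≤ ρ ≤ A - 1` for both; if the quotients
differ then the numbers differ by at least `4`. -/
def S_Cm2 : Prop := ∀ (A : ℕ) (r : ℤ) (g : ℕ → ℤ) (u w : ℕ), 1 ≤ A → 2 < rsd A r g u →
  2 < rsd A r g w → |g u - g w| ≤ 2 → (g u + 1 - r) / (A : ℤ) = (g w + 1 - r) / (A : ℤ)

/-- EDGES BETWEEN GROUPS OF ONE CELL `C`. Proof: let `u` be in `T`, with the witness `w`;
`u < w`, so `gr u < gr w`. (a) `u + 1 = w`: `u` is the largest element of its group in `C` (a larger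
`v` in the group has `v < w`, as `gr v < gr w`). (b) `IsPr g β u w`: `u` is the largest element `v` of
its group with `|g v - β| ≤ 1` (`u < v < w` is excluded), and `lo - 1 ≤ β ≤ lo + A`. So `T` is
covered by `n1 (1 + (A + 2))` sets with at most one element. -/
def S_Cm3 : Prop := ∀ (C : Finset ℕ) (g : ℕ → ℤ) (gr : ℕ → ℕ) (lo : ℤ) (A n1 : ℕ),
  (∀ w ∈ C, lo ≤ g w ∧ g w < lo + A) → (∀ w ∈ C, gr w < n1) →
  (∀ u ∈ C, ∀ w ∈ C, u < w → gr u ≤ gr w) →
  ∀ T : Finset ℕ, (∀ u ∈ T, u ∈ C ∧ ∃ w ∈ C, gr u ≠ gr w ∧ EdN g u w) →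
    T.card ≤ n1 * (A + 3)

/-- RANKS (`rk` is in H3/Dat.lean). Proof: `w ↦ rk C w` is injective on `C` (`rk_inj`), the values
with `rk C w / G = j` lie in `[G j, G j + G)`. -/
def S_Cm4 : Prop := ∀ (C : Finset ℕ) (G j : ℕ), 1 ≤ G →
  (C.filter (fun w => rk C w / G = j)).card ≤ G

/-- TAILS. Proof: for each `w` there is one `u` with `u + 1 = w` and for each `e` at most one `u`
with `IsPr g (sh (g w) e) u w`. -/
def S_Cm5 : Prop := ∀ (J1 : Finset ℕ) (g : ℕ → ℤ) (N : ℕ), (∀ w ∈ J1, w < N) →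
  ∃ J : Finset ℕ, (∀ u, u ∈ J ↔ u ∈ J1 ∨ ∃ w ∈ J1, EdN g u w) ∧ J.card ≤ 5 * J1.card ∧
    ∀ u ∈ J, u < N

/-- CELLS AND GROUPS (use `S_Cm1` - `S_Cm5`). Proof: `A = 15 D`, `N0 = D (2 D + 1) (A + 3)`, `r` from
`S_Cm1`, `J1 = {w < N : rsd A r g w ≤ 2}`, `J` from `S_Cm5`: `A |J| ≤ 15 N`. For `w ∈ J1` put
`cl w = w`, `gr w = 0`. For `w < N`, `w ∉ J1` let `cl w` be the least number `v < N`, `v ∉ J1`, with
the same quotient `(g v + 1 - r) / A` (so `cl w ≤ w`, and `cl w = cl w'` iff the quotients are equal;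
the values of `cl` on `J1` and outside are different); `C = C i = {w < N : w ∉ J1, cl w = i}`,
`G = N / D`, `gr w = rk C w / G` (`≤ rk C w ≤ w`). In the cell `i` the values of `g` lie in an interval
of length `A`, and `gr w ≤ N / G ≤ 2 D`. `J2 i = {u < N : cl u = i ∧ ∃ w < N, cl w = i, gr u ≠ gr w,
EdN g u w}` (empty if `i ∈ J1`: the class of `i` is `{i}`, and `EdN g u w` implies `u < w`), by `S_Cm3`
`|J2 i| ≤ (2 D + 1) (A + 3)`. Classes: `{i}`, or at most `G` elements by `S_Cm4`. Edges: if `u ∉ J`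
then `w ∉ J1`, `u ∉ J1`, `|g u - g w| ≤ 2` (`IsPr`: both are at distance `≤ 1` from
`β = sh (g w) e`), so the same cell by `S_Cm2`. -/
def S_Cmb : Prop := ∀ D : ℕ, 1 ≤ D → ∃ N0 : ℕ, ∀ N : ℕ, N0 ≤ N → ∀ g : ℕ → ℤ,
  (∀ w, w + 1 < N → |g (w + 1) - g w| ≤ 1) →
  ∃ (J : Finset ℕ) (cl gr : ℕ → ℕ) (J2 : ℕ → Finset ℕ), D * J.card ≤ N ∧
    (∀ w, w < N → cl w < N ∧ gr w < N) ∧ (∀ i, D * (J2 i).card ≤ N) ∧
    (∀ i j, D * (cls N cl gr i j).card ≤ N) ∧
    ∀ u w, w < N → EdN g u w → u ∈ J ∨ (cl u = cl w ∧ (gr u = gr w ∨ u ∈ J2 (cl w)))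

/-! ### recognition -/

/-- DATA WRITTEN ON TRACKS (use `S_Code`; compare `exY` in H3/Inc.lean, with the slots moved by `P0` for
`ofY2`). -/
def S_ExY : Prop := ∀ {K : Type} {Γ : K → Type} (M : NM K Γ) (p : Prm K) (l : ℕ)
  (dec : List Bool → LN M) (enc : LN M → List Bool), 1 ≤ l → (∀ a, (enc a).length = l) →
  (∀ a, dec (enc a) = a) → ∀ (J : Finset ℕ), J.card * (3 * p.κ) ≤ p.P0 → ∀ b n : ℕ,
  3 * p.P0 * b * l ≤ n → ∀ Y : ℕ → (k : K) → Fin 3 → List (Option (Γ k) × Bool),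
  (∀ u ∈ J, ∀ k e, (Y u k e).length = b) →
  (∃ u : List Bool, u.length = n ∧ ∀ t ∈ J, ∀ k e, Y t k e = ofY1 M p l dec J u b t k e) ∧
  (∃ u : List Bool, u.length = n ∧ ∀ t ∈ J, ∀ k e, Y t k e = ofY2 M p l dec J u b t k e)

/-- DATA WRITTEN ON TRACKS (use `S_Code`; compare `exZ` in H3/Inc.lean). -/
def S_ExZ : Prop := ∀ {K : Type} {Γ : K → Type} (M : NM K Γ) (p : Prm K) (l : ℕ)
  (dec : List Bool → LN M) (enc : LN M → List Bool), 1 ≤ l → (∀ a, (enc a).length = l) →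
  (∀ a, dec (enc a) = a) → ∀ (A : Finset ℕ), A.card * (6 * p.κ + 1) ≤ p.P0 → ∀ b n : ℕ,
  3 * p.P0 * b * l ≤ n → ∀ d : DatN M,
  (∀ w ∈ A, (∀ k e, (d.sc w k e).length = b) ∧ (d.rc w).length = b ∧
    ∀ k e, (d.ec w k e).length = b) →
  ∃ u : List Bool, u.length = n ∧ ∀ w ∈ A,
    (∀ k e, d.sc w k e = (ofZN M p l dec A u b).sc w k e) ∧
    d.rc w = (ofZN M p l dec A u b).rc w ∧
    ∀ k e, d.ec w k e = (ofZN M p l dec A u b).ec w k e

/-- INITIAL SYMBOLS (use `S_XS1`, `S_XS2`, `S_EqS`, `S_Code`, `S_RegS`; compare `rgInit` in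
H3/Rec.lean: `ini I emb x k` is `tapeOf (x.map (emb k))` for `k ∈ I`, blank otherwise; `rgX` with
`fun x => emb k (fx x)`). -/
def S_RgI : Prop := ∀ {ρ : Type} {B : ρ → Type} (E : (i : ρ) → Set (List (B i × Bool)))
  (m : ℕ) {X A K : Type} {Γ : K → Type} [Finite K] [∀ k, Finite (Γ k)] (M : NM K Γ)
  (I : Set K) (l KK : ℕ) (mk : X → Bool) (dec : List Bool → LN M) (enc : LN M → List Bool)
  (emb : (k : K) → A → Γ k) (fx : X → A) (f : X → Bool) (k : K) (β : ℤ) (s : ℕ),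
  2 ≤ m → 1 ≤ l → (∀ a, (enc a).length = l) → (∀ a, dec (enc a) = a) → 1 ≤ s →
  (s + 1) * l ≤ KK →
  RgC E m 1 KK mk (fun w b => ((slot l dec (w.map f) b s).map (asCN k)).map Prod.fst =
    (List.range b).map (fun o : ℕ => ini I emb (w.map fx) k (β * b + o)))

/-- ALL CONDITIONS (use `S_RgI`, `S_EqS`, `S_RegS`, `S_SimS`, `S_RegL`; compare `rgGood` in
H3/Rec.lean, the lemmas `rgEq`, `rgSim`, `rgChn`, `rgAll`, `rgFirst` there; `Src`, `Ini` and the
memberships are constants: `RgC.imp`). -/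
def S_RecN : Prop := ∀ {ρ : Type} {B : ρ → Type} (E : (i : ρ) → Set (List (B i × Bool)))
  (m : ℕ) {X A K : Type} {Γ : K → Type} [Finite K] [∀ k, Finite (Γ k)] (M : NM K Γ)
  (I : Set K) (k1 : K) (l : ℕ) (mk : X → Bool) (dec : List Bool → LN M)
  (enc : LN M → List Bool) (emb : (k : K) → A → Γ k) (p : Prm K) (fx : X → A)
  (f1 f2 f3 : X → Bool) (h : K → ℕ → ℤ) (q : ℕ → M.S) (J J2 V : Finset ℕ),
  2 ≤ m → 1 ≤ l → (∀ a, (enc a).length = l) → (∀ a, dec (enc a) = a) → 1 ≤ p.P0 →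
  (∀ w ∈ V, ∀ k e u e', Src I k1 h k e u w e' → u < w ∧ (u ∈ J ∪ J2 ∨ u ∈ V)) →
  J.card * (3 * p.κ) ≤ p.P0 → J2.card * (3 * p.κ) ≤ p.P0 → V.card * (6 * p.κ + 1) ≤ p.P0 →
  RgC E m 1 (l * (3 * p.P0)) mk (fun w b =>
    GoodN M I k1 (ini I emb (w.map fx)) b h q (J ∪ J2)
      (Yc J (ofY1 M p l dec J (w.map f1) b) (ofY2 M p l dec J2 (w.map f2) b))
      (ofZN M p l dec V (w.map f3) b) V)

/-! ### the inclusion -/

/-- THE INCLUSION (use everything above; compare `inc` in H3/Inc.lean). Proof. `M' = idle M` (read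
only on `I` as `M` is), `κ` tapes, `l`, `dec`, `enc` from `codes (LN M')`,
`D = 6 (c + 1) (l + 1) (6 κ + 1)`, `N0` from `S_Cmb`, `p = ⟨κ, N0 + 1, ..⟩`, `KK = l (3 (N0 + 1))`,
`N = (c + 1) (KK + 2)`; so `D t ≤ N` implies `t (6 κ + 1) ≤ P0`. Shapes `σ`: `q` on `0, .., N` and `h`
on `0, .., N - 1` with values in `[-N, N]` (a finite type), `valid σ`: `Shp` and `M.acc (q N)`. For
valid `σ`: `J`, `cl`, `gr`, `J2` from `S_Cmb` with `g = h k1`. Conditions: exists `y1`, `σ` valid, for all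
`i < N` exists `y2`, for all `j < N` exists `z`: `GoodN` for `J ∪ J2 i` and the class `(i, j)`
(`S_RecN`, `RgC.ex` three times), and one more `ex` for the marks (`S_MkL`). x in L implies (for
`|x| ≥ max (KK KK) n0`, `n0` from the bound of `s` with `2 (KK + 1)`: `s |x| < b`): `S_Tm` with
`T = N b`, `S_CplN`, `S_GluC`, `S_Cgr`, `S_ExY`, `S_ExZ`. Conversely `S_GluS`, `S_SndN`, `S_Tm`. Short words:
`cls_short`. -/
def S_IncN : Prop := ∀ {ρ : Type} {B : ρ → Type} (E : (i : ρ) → Set (List (B i × Bool)))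
  (m : ℕ) {A : Type} (L : Set (List A)), 2 ≤ m → AlmostOneTape L → Cls E m 5 A L

end MPdee884H4
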