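import Pool.Agent.Lib.MP_dee884_lc.H4.Stm2

/-!
# MP_dee884_lc, H4: advice; the statement of the module `Adv`
-/

namespace MPdee884H4

open MPdee884H1 MPdee884H2 Pool.Agent.Lin

/-- the words `v` over `{0,1} × [k + 2]` whose second track is the reversed second half of the first
track (`|v| / 2` letters), followed by `0`s -/
def AdvL (k : ℕ) : Set (List (Bool × Fin (k + 2))) :=
  {v | v = withAdvice k (v.map Prod.fst) ((v.map Prod.fst).reverse.take (v.length / 2))}

/-- THE ADVICE LANGUAGE IS ACCEPTED WITH ONE WORK TAPE. Proof: `v = u ++ m ++ z`, `|u| = |z| = |v| / 2`,
`m` empty or one letter; the condition is: the second components of `m` and `z` are `0`, and the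
second component of the letter `i` of `u` is the first component of the letter `i` of `z.reverse`
(as `0` or `1`). Machine: tape symbols `Bool`, states `P, Q, F`, start `P`, accepting `F`. `P`: read
`(α, lt01 k β)`, print `some β`, move right, stay in `P`. `P`: no letter, or a letter `(α, 0)`: print
the scanned symbol, move left, go to `Q`. `Q`: scanned `some γ`, read `(γ, 0)`, print `none`, move left,
stay in `Q`. `Q`: no letter, scanned `none`: print it, do not move, go to `F`. At most `|v| + 2`
steps. -/
def S_Adv : Prop := ∀ k : ℕ, OneTape (AdvL k)

end MPdee884H4
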