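import Pool.Agent.Lib.MP_dee884_lc.H4.Defs

/-!
# MP_dee884_lc, H4: the threshold; statements of the modules `QN`, `Cps`, `NQ`
-/

namespace MPdee884H4

open MPdee884H1 MPdee884H2 MPdee884H3 Pool.Agent.Lin

/-- `L` is accepted in linear time by a nondeterministic machine with finitely many tapes; the tapes
in `I` contain the input and are read only. -/
def NLin {A : Type} (L : Set (List A)) : Prop :=
  ∃ (_ : Finite A) (K : Type) (_ : Finite K) (Γ : K → Type) (_ : ∀ k, Finite (Γ k)) (I : Set K)
    (emb : (k : K) → A → Γ k) (M : NM K Γ) (c : ℕ),
    (∀ q v q' a, M.tr q v q' a → ∀ k ∈ I, (a k).1 = v k) ∧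
    (∀ x ∈ L, ∃ n ≤ c * (x.length + 1), M.Acc (fun _ => True) n
      (M.start, ini I emb x, fun _ => 0)) ∧
    ∀ n x, M.Acc (fun _ => True) n (M.start, ini I emb x, fun _ => 0) → x ∈ L

/-- Q IS ACCEPTED IN NONDETERMINISTIC LINEAR TIME. Proof. `InQ.cert` (QC.lean) gives `γ`, `R` in
LINTIME over `A ⊕ γ` and `C`: `x ∈ L` iff there is `v` with `|v| ≤ C (|x| + 1)` and
`x.map inl ++ v.map inr ∈ R`; let `M0` (tapes `K0`, input tape `k0`, letter map `e0`, time
`c0 (|w| + 1)`) decide `R`. New machine: tapes `Option K0`, `I = {none}`, alphabets `A` for `none`,
`A ⊕ Γ0 k` for `some k` (so `emb = inl` exists for all tapes; only `inr` letters are printed). States: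
`P1`, `P2`, `W`, `M0.S`. `P1` (copy): if the input head scans the letter `a`: print `e0 (inl a)` on `k0`,
move both heads right, stay in `P1`; if it scans a blank: go to `P2` (no move). `P2` (guess): for any
`g : γ` print `e0 (inr g)` on `k0`, move right, stay in `P2`; or move left on `k0`, go to `W`. `W`: if
the scanned symbol on `k0` is not blank: move left, stay in `W`; if it is blank: move right, go to the
start of `M0`. Then the steps of `M0` as long as `out q = none`; accepting: `out q = some true`. All
other tapes: print the scanned symbol, stay. When `M0` starts the tape `k0` is `tapeOf (w.map e0)` with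
the head at the cell `0`, `w = x.map inl ++ v.map inr`, the others are blank. The relative tapes of `M0`
against absolute tapes: `M0` makes the same steps (compare `S_Run` in H3/Spec.lean and H3/Run.lean,
`astep`). Time `2 |w| + O(1) + c0 (|w| + 1)`, `|w| ≤ (C + 1)(|x| + 1)`. Soundness: a computation which
accepts runs through `P1` (all of `x` is copied, as `P2` starts at the first blank), `P2` (some `v`),
`W`, and then is the run of `M0` (deterministic), so `x.map inl ++ v.map inr ∈ R`. -/
def S_QN : Prop := ∀ {A : Type} [Finite A] (L : Set (List A)), InQ L → NLin L

/-- TAPE COMPRESSION. Proof. Let `M` accept `L` in time `c (|x| + 1)`, `r = c D + 1`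
(so `c (n + 1) / r ≤ n / D + 1`). New tapes `Option K`; `none = k1` is a tape which is not used (alphabet
`Unit`); alphabet of `some k`: `Fin r → Option (Γ k)` (a block of `r` cells, the blank is a block of
blanks: `dec none = fun _ => none`, `dec (some f) = f`); for `k ∈ I` the letter `a` is the constant
block `fun _ => some (emb k a)` and only its cell `0` is looked at. States `M.S × (K → Fin r)` (the
positions in the blocks; always `0` for `k ∈ I`). A step of `M` with the scanned symbols
`dec (v k) (o k)` becomes: for `k ∉ I` print the block with the cell `o k` changed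
(`some (Function.update (dec (v k)) (o k) _)`); if the new position leaves the block move to the
neighbour block, otherwise stay; for `k ∈ I` print the scanned symbol, same move, position `0`.
Invariant: the same state; `k ∉ I`: `pos k = r * pos' k + o k`,
`dec (tape' k i) o = tape k (r * i + o)` (Euclidean division by `r` is unique); `k ∈ I`:
`pos' k = pos k`, `tape' k i` is the constant block of `tape k i` (or blank). Every step corresponds
to one step in both directions. The heads of `M` stay within the distance `T = c (|x| + 1)` of the
start (one cell per step), so `|pos' k| ≤ T / r + 1 ≤ |x| / D + 2` for `k ∉ I`. -/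
def S_Cps : Prop := ∀ {A : Type} (L : Set (List A)) (D : ℕ), 1 ≤ D → NLin L →
  Restr (fun n => n / D + 2) L

/-- NONDETERMINISTIC LINEAR TIME IS IN Q. Proof. By `Cert.inQ` (QC.lean; `A` is finite) it is enough to
have `R` in LINTIME over `A ⊕ γ` with: `x ∈ L` iff there is `v : List γ`, `|v| ≤ C (|x| + 1)`, with
`x.map inl ++ v.map inr ∈ R` (and then for all `v`). `γ = M.S × ((k : K) → Option (Γ k) × Dir)` (new
state, action), `C = c`. `R` = all words `z` such that `v = z.flatMap sR` is the list of the steps of a
computation of `M` on the input `x = z.flatMap sL` which ends in an accepting state (check each step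
against `tr`). `R ∈ LINTIME` by `init_lintime` (Init.lean) for the tapes `Option K`: `none` (alphabet
`γ`) contains `v` (`MP.hom sR`), `some k` with `k ∈ I` contains `x.map (emb k)`
(`MP.hom (fun c => (sL c).map (emb k))`), the other tapes are empty (`[]`, `tapeOf []`). Deterministic
machine: states `M.S ⊕ Bool`: in the state `inl q`, scanning the symbols `v` on the tapes `some k`: if the
tape `none` scans `(q', a)` and `M.tr q v q' a`: do the action `a` on the tapes `some k`, move right on
`none`, go to `inl q'`; if it is not a transition: go to `inr false`; if the tape `none` scans a blank: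
go to `inr (acc q)` (classical decision). `out (inr b) = some b`, `out (inl q) = none`. At most `|v| + 1`
steps. The relative tape of `some k` is `fun i => t k (i + pos k)` for the absolute tape `t k`. -/
def S_NQ : Prop := ∀ {A : Type} (L : Set (List A)), NLin L → InQ L

end MPdee884H4
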