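import Pool.Agent.Lib.MP_dee884_lc.H4.StmF
import Pool.Agent.Lib.MP_dee884_lc.Lin

/-!
# MP_dee884_lc, H4: longer advice; the statement of the module `AdvD`
-/

namespace MPdee884H4

open MPdee884H1 MPdee884H2 Pool.Agent.Lin

/-- The words over `({0,1} × [k + 2]) × [k + 2]` (tracks: word, advice, marks) with: the marks are
`0 .. 0 1 .. 1` with `n / D` zeros (`n` the length), the second track is the part of the first track
under the marks `1`, followed by `0`s. -/
def AdvD (k D : ℕ) : Set (List ((Bool × Fin (k + 2)) × Fin (k + 2))) :=
  {v | ∃ u z : List ((Bool × Fin (k + 2)) × Fin (k + 2)), v = u ++ z ∧ (∀ p ∈ u, p.2 = 0) ∧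
    (∀ p ∈ z, p.2 = 1) ∧ u.length = v.length / D ∧
    v.map (fun p => p.1.2) = (pad (z.map (fun p => p.1.1)) v.length).map (lt01 k)}

/-- THE ADVICE LANGUAGE IS IN LINTIME. Proof: `scan_lintime` (Lin.lean: a finite automaton reads
several words `(F k).val v` in parallel, from left to right, one letter of each word in every step)
and `LINTIME.inter`. (1) The marks: the word `v.map (·.2)` is in `0* 1*`. (2) `u.length = v.length / D`:
the words `v` (unary) and `D` letters for each letter of `v` with the mark `0`
(`MP.hom (fun p => if p.2 = 0 then List.replicate D () else [])`): the second one is not longer than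
the first one, and shorter by less than `D` (the automaton counts up to `D` after its end). (3) The
second track: read in parallel `v.map (fun p => p.1.2)` and
`MP.hom (fun p => if p.2 = 1 then [p.1.1] else [])`: as long as the second word has a letter `β` the
first one has the letter `lt01 k β`; after its end the letters of the first word are `0 = lt01 k
false`. (Letters with a mark different from `0`, `1` are excluded by (1).) -/
def S_AdvD : Prop := ∀ k D : ℕ, 1 ≤ D → LINTIME (AdvD k D)

end MPdee884H4
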