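import Pool.Agent.Lib.MP_dee884_lc.H4.StmF

/-!
# MP_dee884_lc, H4: advice words (moved to `StmF`)
-/
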