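import Pool.Agent.Lib.MP_dee884_lc.H2.Defs

/-!
# MP_dee884_lc, H4: definitions of the statement

Nondeterministic machines in which all work tapes but one use only few cells, the classes `D_j`,
advice.
-/

namespace MPdee884H4

open MPdee884H1 MPdee884H2 Pool.Agent.Lin

/-- A nondeterministic Turing machine with the set `K` of two-way infinite tapes; the tape `k` has
the symbols `Γ k` (and `none`, the blank): finitely many states `S`, the start state, the accepting
states and the transitions `tr q v q' a`: in the state `q`, scanning the symbols `v`, the machine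
may enter the state `q'`, print `(a k).1` on each tape `k` and move its head in the direction
`(a k).2`. -/
structure NM (K : Type) (Γ : K → Type) where
  S : Type
  fin : Finite S
  start : S
  acc : S → Prop
  tr : S → ((k : K) → Option (Γ k)) → S → ((k : K) → Option (Γ k) × Dir) → Prop

section

variable {K : Type} {Γ : K → Type}

/-- configurations: state, tapes, positions of the heads -/
abbrev NC (M : NM K Γ) : Type := M.S × ((k : K) → ℤ → Option (Γ k)) × (K → ℤ)

/-- the configuration after a step from `c` with the new state `q'` and the action `a` -/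
def upd {M : NM K Γ} (c : NC M) (q' : M.S) (a : (k : K) → Option (Γ k) × Dir) : NC M :=
  (q', fun k => Function.update (c.2.1 k) (c.2.2 k) (a k).1, fun k => c.2.2 k + (a k).2.toInt)

/-- `M.Acc P n c`: from the configuration `c` the machine `M` can reach an accepting state in `n`
steps such that all configurations on the way (the first and the last one included) satisfy `P`. -/
inductive NM.Acc (M : NM K Γ) (P : NC M → Prop) : ℕ → NC M → Prop
  | done (c : NC M) : P c → M.acc c.1 → NM.Acc M P 0 c
  | step (n : ℕ) (c : NC M) (q' : M.S) (a : (k : K) → Option (Γ k) × Dir) : P c →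
      M.tr c.1 (fun k => c.2.1 k (c.2.2 k)) q' a → NM.Acc M P n (upd c q' a) →
      NM.Acc M P (n + 1) c

open Classical in
/-- the tapes at the beginning: the word `x` (letter map `emb k`) in the cells `0, .., |x| - 1` of
each tape `k` of `I`, the other tapes are empty -/
noncomputable def ini {A : Type} (I : Set K) (emb : (k : K) → A → Γ k) (x : List A) :
    (k : K) → ℤ → Option (Γ k) :=
  fun k => if k ∈ I then tapeOf (x.map (emb k)) else fun _ => none

end

/-- `L` is accepted in linear time by a nondeterministic machine with finitely many tapes and one head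
on each tape: the tapes in `I` contain the input and are read only (two-way input heads), `k1` is a
work tape without restriction, on the other tapes only the cells up to the distance `s(|x|)` from the
start are used. Each word `x` of `L` is accepted by such a computation of at most `c (|x| + 1)`
steps, and no other word is accepted by any computation. -/
def Restr {A : Type} (s : ℕ → ℕ) (L : Set (List A)) : Prop :=
  ∃ (_ : Finite A) (K : Type) (_ : Finite K) (Γ : K → Type) (_ : ∀ k, Finite (Γ k)) (I : Set K)
    (k1 : K) (emb : (k : K) → A → Γ k) (M : NM K Γ) (c : ℕ),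
    k1 ∉ I ∧ (∀ q v q' a, M.tr q v q' a → ∀ k ∈ I, (a k).1 = v k) ∧
    (∀ x ∈ L, ∃ n ≤ c * (x.length + 1), M.Acc
      (fun cf => ∀ k, k ∉ I → k ≠ k1 → |cf.2.2 k| ≤ (s x.length : ℤ)) n
      (M.start, ini I emb x, fun _ => 0)) ∧
    ∀ n x, M.Acc (fun _ => True) n (M.start, ini I emb x, fun _ => 0) → x ∈ L

/-- all work tapes but one use only `o(n)` cells -/
def AlmostOne {A : Type} (L : Set (List A)) : Prop :=
  ∃ s : ℕ → ℕ, (∀ D : ℕ, ∃ n0 : ℕ, ∀ n, n0 ≤ n → D * s n ≤ n) ∧ Restr s L

/-- The class `D_j(A)`: Boolean closure of the context-free languages, of the languages of the class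
`AlmostOne`, of the languages in `LINTIME`, of the slices of the languages `E i`, and (`j > 0`)
of the languages `{x : some word over A × [k] above x is in M}`, `M` in `D_(j-1)(A × [k])`. -/
inductive ClsB {ρ : Type} {B : ρ → Type} (E : (i : ρ) → Set (List (B i × Bool))) (k : ℕ) :
    ℕ → (A : Type) → Set (List A) → Prop
  | cf {j : ℕ} {A : Type} (L : Language A) : L.IsContextFree → ClsB E k j A {x | x ∈ L}
  | tape {j : ℕ} {A : Type} (L : Set (List A)) : AlmostOne L → ClsB E k j A L
  | lin {j : ℕ} {A : Type} (L : Set (List A)) : LINTIME L → ClsB E k j A L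
  | slice {j : ℕ} {A : Type} (i : ρ) (f : A → B i) (u : List Bool) :
      ClsB E k j A {x | (x.map f).zip (pad u x.length) ∈ E i}
  | compl {j : ℕ} {A : Type} (L : Set (List A)) : ClsB E k j A L → ClsB E k j A Lᶜ
  | union {j : ℕ} {A : Type} (L M : Set (List A)) : ClsB E k j A L → ClsB E k j A M →
      ClsB E k j A (L ∪ M)
  | ex {j : ℕ} {A : Type} (M : Set (List (A × Fin k))) : ClsB E k j (A × Fin k) M →
      ClsB E k (j + 1) A {x | ∃ v : List (A × Fin k), v.map Prod.fst = x ∧ v ∈ M}

/-- the letters `0`, `1` of the alphabet with `k + 2` letters -/
def lt01 (k : ℕ) (b : Bool) : Fin (k + 2) := if b then 1 else 0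

/-- The word `x` with the advice `a` written below it: the word over `{0,1} × [k + 2]` with the first
components `x` and the second components `a`, followed by `0`s (or cut) to the length of `x`. -/
def withAdvice (k : ℕ) (x a : List Bool) : List (Bool × Fin (k + 2)) :=
  x.zip ((pad a x.length).map (lt01 k))

end MPdee884H4
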