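import Pool.Agent.Lib.MP_dee884_lc.H3.RudQ
import Pool.Agent.Lib.MP_dee884_lc.H3.InvQ
import Pool.Agent.Lib.MP_dee884_lc.H4.Fin
import Pool.Agent.Lib.MP_dee884_lc.H4.QN
import Pool.Agent.Lib.MP_dee884_lc.H4.Cps
import Pool.Agent.Lib.MP_dee884_lc.H4.NQ

/-!
# MP_dee884_lc, H4: the threshold
-/

namespace MPdee884H4

open MPdee884H1 MPdee884H2 MPdee884H3 Pool.Agent.Lin

/-- restricted classes are in nondeterministic linear time -/
theorem restr_nLin {A : Type} {s : ℕ → ℕ} {L : Set (List A)} (h : Restr s L) : NLin L := by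
  obtain ⟨hA, K, hK, Γ, hΓ, I, k1, emb, M, c, _, h2, h3, h4⟩ := h
  refine ⟨hA, K, hK, Γ, hΓ, I, emb, M, c, h2, ?_, h4⟩
  intro x hx
  obtain ⟨n, hn, hacc⟩ := h3 x hx
  refine ⟨n, hn, ?_⟩
  have key : ∀ (n : ℕ) (c : NC M), M.Acc
      (fun cf => ∀ k, k ∉ I → k ≠ k1 → |cf.2.2 k| ≤ (s x.length : ℤ)) n c →
      M.Acc (fun _ => True) n c := by
    intro n c h
    induction h with
    | done c _ h2 => exact NM.Acc.done c trivial h2
    | step n c q' a _ h2 _ ih => exact NM.Acc.step n c q' a trivial h2 ih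
  exact key n _ hacc

/-- the threshold: with `n / D + 2` cells the class is Q -/
theorem inQ_restr {A : Type} [Finite A] (D : ℕ) (hD : 1 ≤ D) (L : Set (List A)) :
    InQ L ↔ Restr (fun n => n / D + 2) L :=
  ⟨fun h => tCps L D hD (tQN L h), fun h => tNQ L (restr_nLin h)⟩

/-- some language in Q has a complement which is not in both Q and the class `ClsB E (k + 2) j`, and
which is not accepted in linear time with o(n) cells on all work tapes but one -/
theorem coQ_clsB {ρ : Type} [Finite ρ] {B : ρ → Type} [∀ i, Finite (B i)]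
    (E : (i : ρ) → Set (List (B i × Bool))) (hE : ∀ i, Rud (B i × Bool) (E i)) (k j : ℕ) :
    ∃ L : Set (List Bool), InQ L ∧ ¬ AlmostOne Lᶜ ∧
      ¬ (InQ Lᶜ ∧ ClsB E (k + 2) j Bool Lᶜ) := by
  have hA : ∀ L : Set (List Bool), AlmostOne L → InQ L ∧ ClsB E (k + 2) j Bool L := by
    intro L hL
    refine ⟨?_, ClsB.tape _ hL⟩
    obtain ⟨s, _, hr⟩ := hL
    exact tNQ L (restr_nLin hr)
  suffices h : ∃ L : Set (List Bool), InQ L ∧ ¬ (InQ Lᶜ ∧ ClsB E (k + 2) j Bool Lᶜ) by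
    obtain ⟨L, h1, h2⟩ := h
    exact ⟨L, h1, fun h3 => h2 (hA _ h3), h2⟩
  by_contra hcon
  have hcon2 : ∀ L : Set (List Bool), InQ L → InQ Lᶜ ∧ ClsB E (k + 2) j Bool Lᶜ := by
    intro L hL
    by_contra h
    exact hcon ⟨L, hL, h⟩
  obtain ⟨U, hU, h1, _⟩ := rud_clsB E hE k j
  have hQ := tRudQ tInvQ (fun L hL => (hcon2 L hL).1) Bool Uᶜ (Rud.compl hU)
  have h2 := (hcon2 _ hQ).2
  rw [compl_compl] at h2
  obtain ⟨w, hw⟩ := h1 U h2
  have h3 := hw []
  tauto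

end MPdee884H4
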